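import Mathlib

/-! Spectral gap and number of representations in a finite abelian group (MP_b4ec45_co). -/

namespace Pool.Agent.SLD

open Finset

variable {H : Type*} [AddCommGroup H] [Fintype H]

/-- Fourier transform of a finite set -/
noncomputable def hat (B : Finset H) (χ : AddChar H ℂ) : ℂ := ∑ a ∈ B, χ a

theorem fr_norm_sq (B : Finset H) (χ : AddChar H ℂ) :
    ‖hat B χ‖ ^ 2 = ∑ a ∈ B, ∑ b ∈ B, (χ (a - b)).re := by
  have h1 : ((‖hat B χ‖ ^ 2 : ℝ) : ℂ) = hat B χ * (starRingEnd ℂ) (hat B χ) := by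
    rw [Complex.mul_conj, Complex.normSq_eq_norm_sq]
  have h2 : hat B χ * (starRingEnd ℂ) (hat B χ) = ∑ a ∈ B, ∑ b ∈ B, χ (a - b) := by
    unfold hat
    rw [map_sum, Finset.sum_mul_sum]
    refine Finset.sum_congr rfl fun a _ => Finset.sum_congr rfl fun b _ => ?_
    rw [sub_eq_add_neg, AddChar.map_add_eq_mul, AddChar.map_neg_eq_conj]
  rw [h2] at h1
  have h3 := congrArg Complex.re h1
  rw [Complex.ofReal_re] at h3
  rw [h3]
  simp [Complex.re_sum]

theorem fr_parseval (B : Finset H) :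
    ∑ χ : AddChar H ℂ, ‖hat B χ‖ ^ 2 = (Fintype.card H : ℝ) * B.card := by
  classical
  have h1 : ∀ a b : H, ∑ χ : AddChar H ℂ, (χ (a - b)).re = if a = b then (Fintype.card H : ℝ) else 0 := by
    intro a b
    have h2 := AddChar.sum_apply_eq_ite (a - b)
    have h3 := congrArg Complex.re h2
    rw [Complex.re_sum] at h3
    rw [h3]
    by_cases hab : a = b
    · subst hab; simp
    · rw [if_neg hab, if_neg (sub_ne_zero.2 hab)]; simp
  calc ∑ χ : AddChar H ℂ, ‖hat B χ‖ ^ 2
      = ∑ χ : AddChar H ℂ, ∑ a ∈ B, ∑ b ∈ B, (χ (a - b)).re :=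
        Finset.sum_congr rfl fun χ _ => fr_norm_sq B χ
    _ = ∑ a ∈ B, ∑ b ∈ B, ∑ χ : AddChar H ℂ, (χ (a - b)).re := by
        rw [Finset.sum_comm]
        refine Finset.sum_congr rfl fun a _ => ?_
        rw [Finset.sum_comm]
    _ = ∑ a ∈ B, ∑ b ∈ B, if a = b then (Fintype.card H : ℝ) else 0 := by
        refine Finset.sum_congr rfl fun a _ => Finset.sum_congr rfl fun b _ => h1 a b
    _ = (Fintype.card H : ℝ) * B.card := by
        simp only [Finset.sum_ite_eq]
        rw [Finset.sum_ite_mem, Finset.inter_self, Finset.sum_const, nsmul_eq_mul]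
        ring

theorem fr_pow_re (z : ℂ) (hz : ‖z‖ = 1) (j : ℕ) : 1 - (z ^ j).re ≤ (j : ℝ) ^ 2 * (1 - z.re) := by
  have h1 : ∀ w : ℂ, ‖w‖ = 1 → ‖1 - w‖ ^ 2 = 2 * (1 - w.re) := by
    intro w hw
    rw [← Complex.normSq_eq_norm_sq, Complex.normSq_sub]
    rw [Complex.normSq_eq_norm_sq w, hw]
    simp
    ring
  have h2 : ‖1 - z ^ j‖ ≤ j * ‖1 - z‖ := by
    induction j with
    | zero => simp
    | succ j ih =>
      have e1 : (1 : ℂ) - z ^ (j + 1) = (1 - z ^ j) + z ^ j * (1 - z) := by ring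
      rw [e1]
      refine (norm_add_le _ _).trans ?_
      rw [norm_mul, norm_pow, hz, one_pow, one_mul]
      push_cast
      linarith
  have h3 : ‖1 - z ^ j‖ ^ 2 ≤ (j * ‖1 - z‖) ^ 2 := by gcongr
  rw [mul_pow, h1 _ (by rw [norm_pow, hz, one_pow]), h1 z hz] at h3
  nlinarith

/-- spectral gap -/
theorem gap (α β : ℝ) (hα : 0 < α) (hβ : 0 < β) : ∃ ε : ℝ, 0 < ε ∧ ε ≤ 1 ∧
    ∀ {H : Type*} [AddCommGroup H] [Fintype H] (B : Finset H),
      α * Fintype.card H ≤ B.card → B.Nonempty →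
      (∀ (K : AddSubgroup H) (y : H), K ≠ ⊤ →
        β * B.card ≤ ({a ∈ (B : Set H) | a - y ∉ K}.ncard : ℝ)) →
      ∀ χ : AddChar H ℂ, χ ≠ 0 → ‖hat B χ‖ ^ 2 ≤ (1 - ε) * (B.card : ℝ) ^ 2 := by
  obtain ⟨J, hJ⟩ := exists_nat_ge (2 / α)
  have hJ0 : (0 : ℝ) < J := lt_of_lt_of_le (by positivity) hJ
  set ε : ℝ := min (1 / 4) (β / 2) / (J : ℝ) ^ 2 with hε
  have hm0 : 0 < min (1 / 4 : ℝ) (β / 2) := lt_min (by norm_num) (by positivity)
  have hε0 : 0 < ε := by positivity
  have hJε : (J : ℝ) ^ 2 * ε = min (1 / 4) (β / 2) := by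
    rw [hε]; field_simp
  have hJ1 : (1 : ℝ) ≤ J := by
    have : 0 < J := by exact_mod_cast hJ0
    exact_mod_cast this
  have hε1 : ε ≤ 1 := by
    have h1 : ε ≤ (J : ℝ) ^ 2 * ε := by
      have : (1 : ℝ) ≤ (J : ℝ) ^ 2 := one_le_pow₀ hJ1
      nlinarith
    rw [hJε] at h1
    exact h1.trans ((min_le_left _ _).trans (by norm_num))
  refine ⟨ε, hε0, hε1, fun {H} _ _ B hB hne hsp χ hχ => ?_⟩
  classical
  by_contra hcon
  push Not at hcon
  set n : ℝ := (B.card : ℝ) with hn
  have hn0 : 0 < n := by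
    rw [hn]
    exact_mod_cast Finset.card_pos.2 hne
  -- the powers of the character
  have hpow : ∀ j : ℕ, n ^ 2 - ‖hat B (j • χ)‖ ^ 2 ≤ (j : ℝ) ^ 2 * (ε * n ^ 2) := by
    intro j
    have e1 : ∀ ψ : AddChar H ℂ, n ^ 2 - ‖hat B ψ‖ ^ 2 = ∑ a ∈ B, ∑ b ∈ B, (1 - (ψ (a - b)).re) := by
      intro ψ
      rw [fr_norm_sq]
      simp only [Finset.sum_sub_distrib, Finset.sum_const, nsmul_eq_mul, mul_one]
      rw [hn]; ring
    have e2 : n ^ 2 - ‖hat B (j • χ)‖ ^ 2 ≤ (j : ℝ) ^ 2 * (n ^ 2 - ‖hat B χ‖ ^ 2) := by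
      rw [e1, e1, Finset.mul_sum]
      refine Finset.sum_le_sum fun a _ => ?_
      rw [Finset.mul_sum]
      refine Finset.sum_le_sum fun b _ => ?_
      have := fr_pow_re (χ (a - b)) (AddChar.norm_apply χ (a - b)) j
      rw [AddChar.nsmul_apply]
      exact this
    refine e2.trans ?_
    gcongr
    linarith
  -- the sum over the first powers
  have hsum : ∀ r : ℕ, r ≤ J → ∑ j ∈ range r, (n ^ 2 - ‖hat B (j • χ)‖ ^ 2) ≤
      r * (min (1 / 4) (β / 2) * n ^ 2) := by
    intro r hr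
    have h1 : ∀ j ∈ range r, n ^ 2 - ‖hat B (j • χ)‖ ^ 2 ≤ min (1 / 4) (β / 2) * n ^ 2 := by
      intro j hj
      refine (hpow j).trans ?_
      rw [← hJε, mul_assoc]
      have : (j : ℝ) ≤ J := by
        have := mem_range.1 hj
        exact_mod_cast (by omega : j ≤ J)
      gcongr
    refine (Finset.sum_le_sum h1).trans ?_
    rw [Finset.sum_const, card_range, nsmul_eq_mul]
  set r := addOrderOf χ with hr
  have hr0 : 0 < r := addOrderOf_pos χ
  rcases Nat.lt_or_ge J r with hbig | hsmall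
  · -- large order
    have h1 := hsum J le_rfl
    have h2 : ∑ j ∈ range J, ‖hat B (j • χ)‖ ^ 2 ≤ (Fintype.card H : ℝ) * n := by
      rw [hn, ← fr_parseval B]
      have hinj : Set.InjOn (fun j : ℕ => j • χ) (range J : Set ℕ) := by
        intro a ha b hb hab
        rw [Finset.mem_coe, mem_range] at ha hb
        exact nsmul_injOn_Iio_addOrderOf (by show a < addOrderOf χ; omega)
          (by show b < addOrderOf χ; omega) hab
      have h3 : ∑ j ∈ range J, ‖hat B (j • χ)‖ ^ 2 =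
          ∑ ψ ∈ (range J).image (fun j : ℕ => j • χ), ‖hat B ψ‖ ^ 2 := by
        rw [Finset.sum_image hinj]
      rw [h3]
      exact Finset.sum_le_sum_of_subset_of_nonneg (Finset.subset_univ _) fun _ _ _ => by positivity
    rw [Finset.sum_sub_distrib, Finset.sum_const, card_range, nsmul_eq_mul] at h1
    have h4 : (J : ℝ) * n ^ 2 - (Fintype.card H : ℝ) * n ≤ J * (1 / 4 * n ^ 2) := by
      calc (J : ℝ) * n ^ 2 - (Fintype.card H : ℝ) * n
          ≤ J * n ^ 2 - ∑ j ∈ range J, ‖hat B (j • χ)‖ ^ 2 := by linarith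
        _ ≤ J * (min (1 / 4) (β / 2) * n ^ 2) := h1
        _ ≤ J * (1 / 4 * n ^ 2) := by gcongr; exact min_le_left _ _
    have h5 : (Fintype.card H : ℝ) ≤ n / α := by
      rw [le_div_iff₀ hα]
      linarith
    have h6 : (J : ℝ) * n ≤ 4 / 3 * (n / α) := by
      have h7 : (J : ℝ) * n * (3 / 4) * n ≤ Fintype.card H * n := by nlinarith
      have h8 : (J : ℝ) * n * (3 / 4) ≤ Fintype.card H := le_of_mul_le_mul_right h7 hn0
      linarith
    have h9 : 2 / α * n ≤ 4 / 3 * (n / α) := (mul_le_mul_of_nonneg_right hJ hn0.le).trans h6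
    have h10 : 2 / α * n = 2 * (n / α) := by ring
    have h11 : 0 < n / α := by positivity
    rw [h10] at h9
    linarith
  · -- small order
    have h1 := hsum r hsmall
    let K : AddSubgroup H := {
      carrier := {h | χ h = 1}
      zero_mem' := AddChar.map_zero_eq_one χ
      add_mem' := by
        intro a b ha hb
        show χ (a + b) = 1
        rw [AddChar.map_add_eq_mul, show χ a = 1 from ha, show χ b = 1 from hb, one_mul]
      neg_mem' := by
        intro a ha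
        show χ (-a) = 1
        rw [AddChar.map_neg_eq_inv, show χ a = 1 from ha, inv_one] }
    have hK : K ≠ ⊤ := by
      intro hK
      apply hχ
      ext h
      have : h ∈ K := by rw [hK]; trivial
      rw [show χ h = 1 from this]
      simp
    have h2 : ∀ h : H, ∑ j ∈ range r, ((j • χ) h).re = if χ h = 1 then (r : ℝ) else 0 := by
      intro h
      have e1 : ∑ j ∈ range r, ((j • χ) h).re = (∑ j ∈ range r, (χ h) ^ j).re := by
        rw [Complex.re_sum]
        refine Finset.sum_congr rfl fun j _ => ?_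
        rw [AddChar.nsmul_apply]
      rw [e1]
      by_cases hh : χ h = 1
      · rw [if_pos hh, hh]; simp
      · rw [if_neg hh, geom_sum_eq hh]
        have e2 : (χ h) ^ r = 1 := by
          rw [← AddChar.nsmul_apply, hr, addOrderOf_nsmul_eq_zero]
          simp
        rw [e2]; simp
    have h3 : ∑ j ∈ range r, (n ^ 2 - ‖hat B (j • χ)‖ ^ 2) =
        ∑ a ∈ B, ∑ b ∈ B, (if χ (a - b) = 1 then (0 : ℝ) else r) := by
      have e1 : ∀ j ∈ range r, n ^ 2 - ‖hat B (j • χ)‖ ^ 2 =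
          ∑ a ∈ B, ∑ b ∈ B, (1 - ((j • χ) (a - b)).re) := by
        intro j _
        rw [fr_norm_sq]
        simp only [Finset.sum_sub_distrib, Finset.sum_const, nsmul_eq_mul, mul_one]
        rw [hn]; ring
      rw [Finset.sum_congr rfl e1, Finset.sum_comm]
      refine Finset.sum_congr rfl fun a _ => ?_
      rw [Finset.sum_comm]
      refine Finset.sum_congr rfl fun b _ => ?_
      rw [Finset.sum_sub_distrib, h2, Finset.sum_const, card_range, nsmul_eq_mul, mul_one]
      split_ifs <;> ring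
    have h4 : (r : ℝ) * (β * n ^ 2) ≤
        ∑ a ∈ B, ∑ b ∈ B, (if χ (a - b) = 1 then (0 : ℝ) else r) := by
      have e1 : ∀ a ∈ B, (r : ℝ) * (β * n) ≤ ∑ b ∈ B, (if χ (a - b) = 1 then (0 : ℝ) else r) := by
        intro a _
        have e2 := hsp K a hK
        have e3 : {b ∈ (B : Set H) | b - a ∉ K}.ncard = (B.filter fun b => ¬ χ (a - b) = 1).card := by
          rw [← Set.ncard_coe_finset]
          congr 1
          ext b
          simp only [Set.mem_ofPred_eq, Finset.coe_filter, Finset.mem_coe]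
          have : b - a ∈ K ↔ χ (a - b) = 1 := by
            rw [← neg_mem_iff, neg_sub]
            exact Iff.rfl
          rw [this]
        rw [e3] at e2
        have e4 : ∑ b ∈ B, (if χ (a - b) = 1 then (0 : ℝ) else r) =
            ((B.filter fun b => ¬ χ (a - b) = 1).card : ℝ) * r := by
          rw [Finset.sum_ite, Finset.sum_const_zero, zero_add, Finset.sum_const, nsmul_eq_mul]
        rw [e4, mul_comm]
        gcongr
      refine le_trans ?_ (Finset.sum_le_sum e1)
      rw [Finset.sum_const, nsmul_eq_mul, ← hn]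
      apply le_of_eq
      ring
    rw [h3] at h1
    have h5 := h4.trans h1
    have h6 : (r : ℝ) * (min (1 / 4) (β / 2) * n ^ 2) ≤ r * (β / 2 * n ^ 2) := by
      gcongr
      exact min_le_right _ _
    have h7 : 0 < (r : ℝ) * (β * n ^ 2) := by
      have : (0 : ℝ) < r := by exact_mod_cast hr0
      positivity
    nlinarith

theorem fr_map_sum {ι : Type*} (χ : AddChar H ℂ) (s : Finset ι) (f : ι → H) :
    χ (∑ i ∈ s, f i) = ∏ i ∈ s, χ (f i) := by
  classical
  induction s using Finset.induction_on with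
  | empty => simp
  | insert a s ha ih => rw [Finset.sum_insert ha, Finset.prod_insert ha, AddChar.map_add_eq_mul, ih]

/-- every element has about the expected number of representations -/
theorem rep_count (α β : ℝ) (hα : 0 < α) (hβ : 0 < β) : ∃ m₀ : ℕ, ∀ m ≥ m₀,
    ∀ {H : Type*} [AddCommGroup H] [Fintype H] [DecidableEq H] (B : Finset H),
      α * Fintype.card H ≤ B.card → B.Nonempty →
      (∀ (K : AddSubgroup H) (y : H), K ≠ ⊤ →
        β * B.card ≤ ({a ∈ (B : Set H) | a - y ∉ K}.ncard : ℝ)) →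
      ∀ c : H, (B.card : ℝ) ^ m / (2 * Fintype.card H) ≤
        ((Fintype.piFinset fun _ : Fin m => B).filter fun t => ∑ i, t i = c).card := by
  obtain ⟨ε, hε0, hε1, hgap⟩ := gap α β hα hβ
  set ρ : ℝ := 1 - ε / 2 with hρ
  have hρ0 : 0 < ρ := by rw [hρ]; linarith
  have hρ1 : ρ < 1 := by rw [hρ]; linarith
  obtain ⟨m₁, hm₁⟩ := exists_pow_lt_of_lt_one (show 0 < α / 2 by positivity) hρ1
  refine ⟨m₁ + 2, fun m hm {H} _ _ _ B hB hne hsp c => ?_⟩
  obtain ⟨s, rfl⟩ : ∃ s, m = s + 2 := ⟨m - 2, by omega⟩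
  have hs : m₁ ≤ s := by omega
  set n : ℝ := (B.card : ℝ) with hn
  have hn0 : 0 < n := by rw [hn]; exact_mod_cast Finset.card_pos.2 hne
  set v : ℝ := (Fintype.card H : ℝ) with hv
  have hv0 : 0 < v := by
    rw [hv]
    exact_mod_cast Fintype.card_pos_iff.2 ⟨c⟩
  set T := (Fintype.piFinset fun _ : Fin (s + 2) => B).filter fun t => ∑ i, t i = c with hT
  -- the counting formula
  have hform : ∑ χ : AddChar H ℂ, (hat B χ) ^ (s + 2) * χ (-c) = (v : ℂ) * T.card := by
    have e1 : ∀ χ : AddChar H ℂ, (hat B χ) ^ (s + 2) * χ (-c) =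
        ∑ t ∈ Fintype.piFinset (fun _ : Fin (s + 2) => B), χ (∑ i, t i - c) := by
      intro χ
      have e2 : (hat B χ) ^ (s + 2) = ∏ _i : Fin (s + 2), ∑ a ∈ B, χ a := by
        rw [Finset.prod_const, Finset.card_univ, Fintype.card_fin]
        rfl
      rw [e2, Finset.prod_univ_sum, Finset.sum_mul]
      refine Finset.sum_congr rfl fun t _ => ?_
      rw [sub_eq_add_neg, AddChar.map_add_eq_mul, fr_map_sum]
    rw [Finset.sum_congr rfl fun χ _ => e1 χ, Finset.sum_comm]
    have e3 : ∀ t ∈ Fintype.piFinset (fun _ : Fin (s + 2) => B),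
        ∑ χ : AddChar H ℂ, χ (∑ i, t i - c) = if ∑ i, t i = c then (v : ℂ) else 0 := by
      intro t _
      rw [AddChar.sum_apply_eq_ite]
      by_cases h : ∑ i, t i = c
      · rw [if_pos h, if_pos (sub_eq_zero.2 h), hv]; simp
      · rw [if_neg h, if_neg (fun h' => h (sub_eq_zero.1 h'))]
    rw [Finset.sum_congr rfl e3, ← Finset.sum_filter, Finset.sum_const, nsmul_eq_mul, ← hT]
    ring
  -- the main term
  have hmain : hat B 0 = (n : ℂ) := by
    unfold hat
    simp [hn]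
  have hsplit : (v : ℂ) * T.card - (n : ℂ) ^ (s + 2) =
      ∑ χ ∈ (univ : Finset (AddChar H ℂ)).erase 0, (hat B χ) ^ (s + 2) * χ (-c) := by
    rw [← hform, ← Finset.add_sum_erase _ _ (Finset.mem_univ (0 : AddChar H ℂ)), hmain]
    simp
  have hbound : ‖(v : ℂ) * T.card - (n : ℂ) ^ (s + 2)‖ ≤ (ρ * n) ^ s * (v * n) := by
    rw [hsplit]
    calc ‖∑ χ ∈ (univ : Finset (AddChar H ℂ)).erase 0, (hat B χ) ^ (s + 2) * χ (-c)‖
        ≤ ∑ χ ∈ (univ : Finset (AddChar H ℂ)).erase 0, ‖(hat B χ) ^ (s + 2) * χ (-c)‖ :=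
          norm_sum_le _ _
      _ ≤ ∑ χ ∈ (univ : Finset (AddChar H ℂ)).erase 0, (ρ * n) ^ s * ‖hat B χ‖ ^ 2 := by
          refine Finset.sum_le_sum fun χ hχ => ?_
          rw [norm_mul, norm_pow, AddChar.norm_apply, mul_one, pow_add]
          have h1 := hgap B hB hne hsp χ (Finset.ne_of_mem_erase hχ)
          have h2 : ‖hat B χ‖ ≤ ρ * n := by
            apply le_of_sq_le_sq _ (by positivity)
            refine h1.trans ?_
            rw [mul_pow, hρ]
            have : (1 - ε) ≤ (1 - ε / 2) ^ 2 := by nlinarith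
            gcongr
          gcongr
      _ ≤ ∑ χ : AddChar H ℂ, (ρ * n) ^ s * ‖hat B χ‖ ^ 2 :=
          Finset.sum_le_sum_of_subset_of_nonneg (Finset.erase_subset _ _) fun _ _ _ => by positivity
      _ = (ρ * n) ^ s * (v * n) := by rw [← Finset.mul_sum, fr_parseval]
  have hre : n ^ (s + 2) - v * T.card ≤ ‖(v : ℂ) * T.card - (n : ℂ) ^ (s + 2)‖ := by
    have h1 : (v : ℂ) * T.card - (n : ℂ) ^ (s + 2) = ((v * T.card - n ^ (s + 2) : ℝ) : ℂ) := by
      push_cast; ring
    rw [h1, Complex.norm_real, Real.norm_eq_abs]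
    rw [abs_sub_comm]
    exact le_abs_self _
  have hfin : (ρ * n) ^ s * (v * n) ≤ n ^ (s + 2) / 2 := by
    have h1 : ρ ^ s ≤ α / 2 :=
      (pow_le_pow_of_le_one hρ0.le hρ1.le hs).trans hm₁.le
    have h2 : α * v ≤ n := hB
    calc (ρ * n) ^ s * (v * n) = ρ ^ s * v * n ^ (s + 1) := by rw [mul_pow]; ring
      _ ≤ α / 2 * v * n ^ (s + 1) := by gcongr
      _ = (α * v) * n ^ (s + 1) / 2 := by ring
      _ ≤ n * n ^ (s + 1) / 2 := by gcongr
      _ = n ^ (s + 2) / 2 := by ring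
  rw [div_le_iff₀ (by positivity)]
  linarith [hre.trans (hbound.trans hfin)]

end Pool.Agent.SLD
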