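import Pool.Agent.Lib_helper26.SLD.Defs

/-! Block AR (project SLD): the real arithmetic of the union bound. -/

namespace Pool.Agent.SLD

open Finset Equiv Function Pool.Agent.SEQ

variable {G : Type*} [AddCommGroup G] {m k : ℕ}

theorem AR_div {c X F Y : ℝ} {ε : ℝ} (hX : 0 < X) (hF : 0 ≤ F) (h : c * X ≤ F * Y)
    (hY : Y ≤ ε * X) : c ≤ ε * F := by
  have h1 : c * X ≤ (ε * F) * X := by
    calc c * X ≤ F * Y := h
      _ ≤ F * (ε * X) := by gcongr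
      _ = (ε * F) * X := by ring
  exact le_of_mul_le_mul_right h1 hX

theorem AR_num (j : ℕ) {ρ δ : ℝ} (hρ : ρ = 2 / 10 ^ 9) (hδ : δ = 2 / 10 ^ 10) :
    3 ^ (j + 1) * 4 ^ (j + 3) * (38 * ρ ^ (j + 1) + (if j = 0 then 437 * δ else 38 * δ ^ j)) ≤
      (1 / 100) * (1 / 2 : ℝ) ^ j := by
  rcases Nat.eq_zero_or_pos j with rfl | hj
  · subst hρ hδ; norm_num
  · obtain ⟨i, rfl⟩ : ∃ i, j = i + 1 := ⟨j - 1, by omega⟩
    rw [if_neg (by omega)]
    have e1 : (3 : ℝ) ^ (i + 1 + 1) * 4 ^ (i + 1 + 3) * (38 * ρ ^ (i + 1 + 1) + 38 * δ ^ (i + 1)) =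
        (9 * 256 * 38) * (ρ ^ 2 * (12 * ρ) ^ i + δ * (12 * δ) ^ i) := by
      rw [mul_pow, mul_pow, show (12 : ℝ) = 3 * 4 by norm_num, mul_pow]
      ring
    rw [e1]
    have h1 : (12 * ρ) ^ i ≤ (1 / 2 : ℝ) ^ i := by
      apply pow_le_pow_left₀ (by subst hρ; norm_num)
      subst hρ; norm_num
    have h2 : (12 * δ) ^ i ≤ (1 / 2 : ℝ) ^ i := by
      apply pow_le_pow_left₀ (by subst hδ; norm_num)
      subst hδ; norm_num
    have hp : (0 : ℝ) < (1 / 2) ^ i := by positivity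
    calc (9 * 256 * 38 : ℝ) * (ρ ^ 2 * (12 * ρ) ^ i + δ * (12 * δ) ^ i)
        ≤ (9 * 256 * 38 : ℝ) * (ρ ^ 2 * (1 / 2) ^ i + δ * (1 / 2) ^ i) := by
          have : 0 ≤ δ := by subst hδ; norm_num
          gcongr
      _ = ((9 * 256 * 38 : ℝ) * (ρ ^ 2 + δ)) * (1 / 2) ^ i := by ring
      _ ≤ (1 / 200) * (1 / 2) ^ i := by
          apply mul_le_mul_of_nonneg_right _ hp.le
          subst hρ hδ; norm_num
      _ = (1 / 100) * (1 / 2 : ℝ) ^ (i + 1) := by rw [pow_succ]; ring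

theorem AR_log : ∃ K : ℕ, ∀ k : ℕ, K ≤ k → 100 * (2 * (Nat.log 2 k + 1) + 12) ≤ k := by
  refine ⟨2 ^ 20, fun k hk => ?_⟩
  have hk0 : k ≠ 0 := by
    have : 0 < 2 ^ 20 := by norm_num
    omega
  have h1 : 2 ^ (Nat.log 2 k) ≤ k := Nat.pow_log_le_self 2 hk0
  have h2 : 20 ≤ Nat.log 2 k := by
    have := Nat.log_mono_right (b := 2) hk
    rwa [Nat.log_pow (by norm_num)] at this
  have h3 : ∀ l : ℕ, 20 ≤ l → 100 * (2 * (l + 1) + 12) ≤ 2 ^ l := by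
    intro l hl
    induction l, hl using Nat.le_induction with
    | base => norm_num
    | succ l hl ih => rw [pow_succ]; omega
  exact (h3 _ h2).trans h1

theorem arith_sld : ∃ K : ℕ, ∀ (k m d N F c1 cS cF : ℕ) (cN : ℕ → ℕ), K ≤ k → k = m + d →
    10 ^ 10 * d ≤ k → N = Nat.log 2 k + 1 → 0 < F →
    c1 * m ≤ F * (20 * RR0 (10 ^ 10) d k) → cS * m ≤ F * (3400 * d) →
    (∀ n, 2 ≤ n → n ≤ N → cN n * (m - (2 * n + 12)) ^ n ≤
      F * (3 ^ (n - 1) * 4 ^ (n + 1) * (19 * k * RR0 (10 ^ 10) d k ^ (n - 1) +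
        (if n = 2 then 437 * d else 19 * k * d ^ (n - 2)) * (m - (2 * n + 12))))) →
    cF * (m - (2 * N + 12)) ^ N ≤
      F * (3 ^ N * (k * RR0 (10 ^ 10) d k ^ N) * 4 ^ (N + 1)) →
    c1 + cS + ∑ n ∈ Ico 2 (N + 1), cN n + cF < F := by
  obtain ⟨K1, hK1⟩ := AR_log
  refine ⟨max K1 (10 ^ 11), ?_⟩
  intro k m d N F c1 cS cF cN hk hkm hd hN hF hc1 hcS hcN hcF
  have hk1 : K1 ≤ k := le_trans (le_max_left _ _) hk
  have hk2 : 10 ^ 11 ≤ k := le_trans (le_max_right _ _) hk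
  have hlog : 100 * (2 * N + 12) ≤ k := by rw [hN]; exact hK1 k hk1
  -- real versions
  have hkR : (10 : ℝ) ^ 11 ≤ (k : ℝ) := by exact_mod_cast hk2
  have hkpos : (0 : ℝ) < k := by linarith [show (0 : ℝ) < 10 ^ 11 by norm_num]
  have hdR : (10 : ℝ) ^ 10 * d ≤ k := by exact_mod_cast hd
  have hmR : (k : ℝ) = m + d := by exact_mod_cast hkm
  have hFR : (0 : ℝ) < F := by exact_mod_cast hF
  have hd0 : (0 : ℝ) ≤ d := Nat.cast_nonneg _
  set R : ℕ := RR0 (10 ^ 10) d k with hR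
  have hRR : (R : ℝ) ≤ k / 10 ^ 9 := by
    have h1 : R = k / 10 ^ 10 + 3 * d + 2 := rfl
    have h2 : (((k / 10 ^ 10 : ℕ)) : ℝ) ≤ (k : ℝ) / 10 ^ 10 := by
      have := @Nat.cast_div_le ℝ _ _ _ k (10 ^ 10)
      rwa [Nat.cast_pow, Nat.cast_ofNat] at this
    have h3 : (R : ℝ) = ((k / 10 ^ 10 : ℕ) : ℝ) + 3 * d + 2 := by rw [h1]; push_cast; ring
    rw [h3]
    have h4 : (k : ℝ) / 10 ^ 9 = k / 10 ^ 10 + 9 * (k / 10 ^ 10) := by ring
    have h5 : (d : ℝ) ≤ k / 10 ^ 10 := by rw [le_div_iff₀ (by norm_num)]; linarith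
    have h6 : (10 : ℝ) ≤ k / 10 ^ 10 := by rw [le_div_iff₀ (by norm_num)]; linarith
    linarith
  have hR0 : (0 : ℝ) ≤ R := Nat.cast_nonneg _
  have hdk : (d : ℝ) ≤ k / 10 ^ 10 := by rw [le_div_iff₀ (by norm_num)]; linarith
  have hm9 : (9 / 10 : ℝ) * k ≤ m := by
    have : (d : ℝ) ≤ k / 10 := hdk.trans (by apply div_le_div_of_nonneg_left hkpos.le <;> norm_num)
    linarith
  have hmpos : (0 : ℝ) < m := by nlinarith
  -- M n
  have hM : ∀ n, n ≤ N → ((m - (2 * n + 12) : ℕ) : ℝ) ≥ (1 / 2) * k := by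
    intro n hn
    have h1 : 2 * n + 12 ≤ 2 * N + 12 := by omega
    have h2 : (100 : ℝ) * ((2 * n + 12 : ℕ) : ℝ) ≤ k := by
      have : 100 * (2 * n + 12) ≤ k := by omega
      exact_mod_cast this
    have h3 : 2 * n + 12 ≤ m := by
      have : (((2 * n + 12 : ℕ)) : ℝ) ≤ m := by linarith
      exact_mod_cast this
    rw [Nat.cast_sub h3]
    linarith
  have hρR : ∀ M : ℝ, (1 / 2) * k ≤ M → (R : ℝ) ≤ (2 / 10 ^ 9) * M := by
    intro M hM
    calc (R : ℝ) ≤ k / 10 ^ 9 := hRR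
      _ = (2 / 10 ^ 9) * ((1 / 2) * k) := by ring
      _ ≤ (2 / 10 ^ 9) * M := by gcongr
  have hδd : ∀ M : ℝ, (1 / 2) * k ≤ M → (d : ℝ) ≤ (2 / 10 ^ 10) * M := by
    intro M hM
    calc (d : ℝ) ≤ k / 10 ^ 10 := hdk
      _ = (2 / 10 ^ 10) * ((1 / 2) * k) := by ring
      _ ≤ (2 / 10 ^ 10) * M := by gcongr
  have hmh : (1 / 2) * (k : ℝ) ≤ m := by linarith
  -- c1
  have b1 : (c1 : ℝ) ≤ (1 / 100) * F := by
    apply AR_div (X := (m : ℝ)) (Y := 20 * R) hmpos hFR.le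
    · exact_mod_cast hc1
    · have := hρR m hmh
      linarith
  have bS : (cS : ℝ) ≤ (1 / 100) * F := by
    apply AR_div (X := (m : ℝ)) (Y := 3400 * d) hmpos hFR.le
    · exact_mod_cast hcS
    · have := hδd m hmh
      linarith
  have bN : ∀ n, 2 ≤ n → n ≤ N → (cN n : ℝ) ≤ ((1 / 100) * (1 / 2 : ℝ) ^ (n - 2)) * F := by
    intro n hn hnN
    have hMn := hM n hnN
    set M : ℕ := m - (2 * n + 12) with hMdef
    have hMpos : (0 : ℝ) < M := by linarith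
    have hk2M : (k : ℝ) ≤ 2 * M := by linarith
    have hR' := hρR M hMn
    have hd' := hδd M hMn
    apply AR_div (X := (M : ℝ) ^ n)
      (Y := 3 ^ (n - 1) * 4 ^ (n + 1) * (19 * k * (R : ℝ) ^ (n - 1) +
        (if n = 2 then 437 * (d : ℝ) else 19 * k * (d : ℝ) ^ (n - 2)) * M))
      (by positivity) hFR.le
    · have := hcN n hn hnN
      have h' : ((cN n * M ^ n : ℕ) : ℝ) ≤ ((F * (3 ^ (n - 1) * 4 ^ (n + 1) * (19 * k * R ^ (n - 1) +
        (if n = 2 then 437 * d else 19 * k * d ^ (n - 2)) * M)) : ℕ) : ℝ) := by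
        exact_mod_cast this
      push_cast at h'
      convert h' using 6
    · obtain ⟨j, rfl⟩ : ∃ j, n = j + 2 := ⟨n - 2, by omega⟩
      have e1 : j + 2 - 1 = j + 1 := by omega
      have e2 : j + 2 - 2 = j := by omega
      rw [e1, e2]
      have hnum := AR_num j (ρ := 2 / 10 ^ 9) (δ := 2 / 10 ^ 10) rfl rfl
      have hA : 19 * (k : ℝ) * (R : ℝ) ^ (j + 1) ≤ 38 * (2 / 10 ^ 9) ^ (j + 1) * M ^ (j + 2) := by
        calc 19 * (k : ℝ) * (R : ℝ) ^ (j + 1) ≤ 19 * (2 * M) * ((2 / 10 ^ 9) * M) ^ (j + 1) := by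
              gcongr
          _ = 38 * (2 / 10 ^ 9) ^ (j + 1) * M ^ (j + 2) := by rw [mul_pow]; ring
      have hB : (if j + 2 = 2 then 437 * (d : ℝ) else 19 * k * (d : ℝ) ^ j) * M ≤
          (if j = 0 then 437 * (2 / 10 ^ 10) else 38 * (2 / 10 ^ 10) ^ j) * M ^ (j + 2) := by
        by_cases hj : j = 0
        · subst hj
          simp only [if_true, Nat.zero_add]
          calc 437 * (d : ℝ) * M ≤ 437 * ((2 / 10 ^ 10) * M) * M := by gcongr
            _ = 437 * (2 / 10 ^ 10) * M ^ 2 := by ring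
        · rw [if_neg (by omega), if_neg hj]
          calc 19 * (k : ℝ) * (d : ℝ) ^ j * M ≤ 19 * (2 * M) * ((2 / 10 ^ 10) * M) ^ j * M := by
                gcongr
            _ = 38 * (2 / 10 ^ 10) ^ j * M ^ (j + 2) := by rw [mul_pow]; ring
      calc (3 : ℝ) ^ (j + 1) * 4 ^ (j + 2 + 1) * (19 * k * (R : ℝ) ^ (j + 1) +
            (if j + 2 = 2 then 437 * (d : ℝ) else 19 * k * (d : ℝ) ^ j) * M)
          ≤ 3 ^ (j + 1) * 4 ^ (j + 2 + 1) * (38 * (2 / 10 ^ 9) ^ (j + 1) * M ^ (j + 2) +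
            (if j = 0 then 437 * (2 / 10 ^ 10) else 38 * (2 / 10 ^ 10) ^ j) * M ^ (j + 2)) := by
            gcongr
        _ = (3 ^ (j + 1) * 4 ^ (j + 3) * (38 * (2 / 10 ^ 9) ^ (j + 1) +
            (if j = 0 then 437 * (2 / 10 ^ 10) else 38 * (2 / 10 ^ 10) ^ j))) * M ^ (j + 2) := by
            ring
        _ ≤ ((1 / 100) * (1 / 2 : ℝ) ^ j) * M ^ (j + 2) := by gcongr
  have bsum : ((∑ n ∈ Ico 2 (N + 1), cN n : ℕ) : ℝ) ≤ (1 / 50) * F := by
    push_cast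
    calc ∑ n ∈ Ico 2 (N + 1), (cN n : ℝ)
        ≤ ∑ n ∈ Ico 2 (N + 1), ((1 / 100) * (1 / 2 : ℝ) ^ (n - 2)) * F := by
          apply Finset.sum_le_sum
          intro n hn
          rw [Finset.mem_Ico] at hn
          exact bN n hn.1 (by omega)
      _ = ((1 / 100) * ∑ n ∈ Ico 2 (N + 1), (1 / 2 : ℝ) ^ (n - 2)) * F := by
          rw [Finset.mul_sum, Finset.sum_mul]
      _ ≤ ((1 / 100) * 2) * F := by
          have : ∑ n ∈ Ico 2 (N + 1), (1 / 2 : ℝ) ^ (n - 2) ≤ 2 := by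
            rw [Finset.sum_Ico_eq_sum_range]
            have e : ∀ i, (1 / 2 : ℝ) ^ (2 + i - 2) = (1 / 2) ^ i := by
              intro i; congr 1; omega
            simp_rw [e]
            have hg := sum_geometric_two_le (N + 1 - 2)
            simpa using hg
          gcongr
      _ = (1 / 50) * F := by ring
  have bF : (cF : ℝ) ≤ (1 / 100) * F := by
    have hMN := hM N le_rfl
    set M : ℕ := m - (2 * N + 12) with hMdef
    have hMpos : (0 : ℝ) < M := by linarith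
    have hk2M : (k : ℝ) ≤ 2 * M := by linarith
    have hR' := hρR M hMN
    apply AR_div (X := (M : ℝ) ^ N) (Y := 3 ^ N * (k * (R : ℝ) ^ N) * 4 ^ (N + 1))
      (by positivity) hFR.le
    · have h' : ((cF * M ^ N : ℕ) : ℝ) ≤ ((F * (3 ^ N * (k * R ^ N) * 4 ^ (N + 1)) : ℕ) : ℝ) := by
        exact_mod_cast hcF
      push_cast at h'
      exact h'
    · have h2N : (k : ℝ) ≤ 2 ^ N := by
        have : k < 2 ^ N := by rw [hN]; exact Nat.lt_pow_succ_log_self (by norm_num) k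
        exact_mod_cast this.le
      have hs : (12 * (2 / 10 ^ 9) : ℝ) ^ N ≤ (1 / 4) ^ N := by
        apply pow_le_pow_left₀ (by norm_num); norm_num
      have h4 : (1 / 4 : ℝ) ^ N * (k * k) ≤ 1 := by
        calc (1 / 4 : ℝ) ^ N * (k * k) ≤ (1 / 4 : ℝ) ^ N * (2 ^ N * 2 ^ N) := by gcongr
          _ = 1 := by rw [← mul_pow, ← mul_pow]; norm_num
      have h5 : 4 * (k : ℝ) * (1 / 4) ^ N ≤ 1 / 100 := by
        have h6 : (1 / 4 : ℝ) ^ N * k ≤ 1 / k := by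
          rw [le_div_iff₀ hkpos]; linarith
        have h7 : 1 / (k : ℝ) ≤ 1 / 10 ^ 11 := by
          apply one_div_le_one_div_of_le (by norm_num) hkR
        have h8 : 4 * (k : ℝ) * (1 / 4) ^ N = 4 * ((1 / 4 : ℝ) ^ N * k) := by ring
        rw [h8]
        calc 4 * ((1 / 4 : ℝ) ^ N * k) ≤ 4 * (1 / 10 ^ 11) := by linarith
          _ ≤ 1 / 100 := by norm_num
      calc (3 : ℝ) ^ N * (k * (R : ℝ) ^ N) * 4 ^ (N + 1)
          ≤ 3 ^ N * (k * ((2 / 10 ^ 9) * M) ^ N) * 4 ^ (N + 1) := by gcongr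
        _ = (4 * k * (12 * (2 / 10 ^ 9)) ^ N) * M ^ N := by
            rw [mul_pow, mul_pow, show (12 : ℝ) = 3 * 4 by norm_num, mul_pow]; ring
        _ ≤ (4 * k * (1 / 4) ^ N) * M ^ N := by gcongr
        _ ≤ (1 / 100) * M ^ N := by gcongr
  have total : ((c1 + cS + ∑ n ∈ Ico 2 (N + 1), cN n + cF : ℕ) : ℝ) < (F : ℝ) := by
    push_cast
    push_cast at bsum
    linarith
  exact_mod_cast total

end Pool.Agent.SLD
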