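import Pool.Agent.Lib_helper26.SLD.Defs

/-! Block CS (project SLD): the closure equation of a near-cycle and its coefficients. -/

namespace Pool.Agent.SLD

open Finset Equiv Function Pool.Agent.SEQ

variable {G : Type*} [AddCommGroup G] {m k : ℕ}

theorem CS_single (w : ℕ → G) {c : Prop} [Decidable c] {a : ℕ} (ha : a < k) :
    ∑ p ∈ range k, (if c ∧ p = a then (1 : ℤ) else 0) • w p = if c then w a else 0 := by
  by_cases hc : c
  · simp only [hc, true_and, if_true]
    rw [Finset.sum_eq_single a]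
    · simp
    · intro b _ hb
      rw [if_neg hb, zero_smul]
    · intro h
      exact absurd (mem_range.2 ha) h
  · simp [hc]

theorem CS_single' (w : ℕ → G) {c : Prop} [Decidable c] {a : ℕ} (h1 : 1 ≤ a) (ha : a < k) :
    ∑ p ∈ range k, (if c ∧ p + 1 = a then (1 : ℤ) else 0) • w p = if c then w (a - 1) else 0 := by
  rw [← CS_single (k := k) w (c := c) (a := a - 1) (by omega)]
  apply Finset.sum_congr rfl
  intro p _
  have : (p + 1 = a) ↔ (p = a - 1) := by omega
  simp only [this]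

theorem CS_cu (E : Fin k → G) (ρ : Perm (Fin k)) (τ : Fin 4) {q : ℕ} (h1 : 1 ≤ q) (h2 : q < k) :
    ∑ p ∈ range k, cu τ q p • el E ρ p = uu E ρ τ q := by
  unfold cu uu
  simp only [add_smul, Finset.sum_add_distrib]
  rw [CS_single' (k := k) (el E ρ) h1 h2, CS_single (k := k) (el E ρ) h2]

theorem CS_cw (E : Fin k → G) (ρ : Perm (Fin k)) (τ : Fin 4) {q : ℕ} (h1 : 1 ≤ q) (h2 : q < k) :
    ∑ p ∈ range k, cw τ q p • el E ρ p = ww E ρ τ q := by
  unfold cw ww
  by_cases h : τ = 0
  · simp only [h, if_true]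
    have := CS_single (k := k) (el E ρ) (c := True) h2
    simpa using this
  · simp only [h, if_false]
    have := CS_single' (k := k) (el E ρ) (c := True) h1 h2
    simpa using this

theorem CS_ind (w : ℕ → G) (a b : ℕ) (ha : a ≤ k) (hb : b ≤ k) :
    ∑ p ∈ range k, (-(if a ≤ p ∧ p < b then (1 : ℤ) else 0) +
      (if b ≤ p ∧ p < a then (1 : ℤ) else 0)) • w p =
      ∑ p ∈ range a, w p - ∑ p ∈ range b, w p := by
  have key : ∀ c : ℕ, c ≤ k → ∑ p ∈ range c, w p =
      ∑ p ∈ range k, (if p < c then (1 : ℤ) else 0) • w p := by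
    intro c hc
    have h1 : ∀ p, (if p < c then (1 : ℤ) else 0) • w p = if p < c then w p else 0 := by
      intro p; split_ifs <;> simp
    simp only [h1]
    rw [← Finset.sum_filter]
    apply Finset.sum_congr _ (fun _ _ => rfl)
    ext p
    simp only [mem_range, mem_filter]
    omega
  rw [key a ha, key b hb, ← Finset.sum_sub_distrib]
  apply Finset.sum_congr rfl
  intro p _
  rw [← sub_smul]
  congr 1
  split_ifs <;> first | rfl | omega

theorem closure_eq (E : Fin k → G) (ρ : Perm (Fin k)) (n : ℕ) (q : ℕ → ℕ) (τ : ℕ → Fin 4)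
    (hq : ∀ i ≤ n, 2 ≤ q i ∧ q i < k) (hc : Chain E ρ n q τ) :
    ∑ p ∈ range k, cf n q τ p • el E ρ p = 0 := by
  have e1 : ∑ p ∈ range k, cf n q τ p • el E ρ p =
      ∑ j ∈ range n, uu E ρ (τ j) (q j) - ∑ j ∈ range n, ww E ρ (τ (j + 1)) (q (j + 1)) +
        (ps E ρ (q 0 - 1) - ps E ρ (q n - 1)) := by
    have h0 := hq 0 (Nat.zero_le n)
    have hn := hq n le_rfl
    have hi := CS_ind (k := k) (el E ρ) (q 0 - 1) (q n - 1) (by omega) (by omega)
    unfold ps
    rw [← hi]
    have hA : ∑ j ∈ range n, uu E ρ (τ j) (q j) =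
        ∑ p ∈ range k, (∑ j ∈ range n, cu (τ j) (q j) p) • el E ρ p := by
      simp only [Finset.sum_smul]
      rw [Finset.sum_comm]
      apply Finset.sum_congr rfl
      intro j hj
      have := hq j (by have := mem_range.1 hj; omega)
      exact (CS_cu E ρ (τ j) (by omega) this.2).symm
    have hB : ∑ j ∈ range n, ww E ρ (τ (j + 1)) (q (j + 1)) =
        ∑ p ∈ range k, (∑ j ∈ range n, cw (τ (j + 1)) (q (j + 1)) p) • el E ρ p := by
      simp only [Finset.sum_smul]
      rw [Finset.sum_comm]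
      apply Finset.sum_congr rfl
      intro j hj
      have := hq (j + 1) (by have := mem_range.1 hj; omega)
      exact (CS_cw E ρ (τ (j + 1)) (by omega) this.2).symm
    rw [hA, hB, ← Finset.sum_sub_distrib, ← Finset.sum_add_distrib]
    apply Finset.sum_congr rfl
    intro p _
    rw [← sub_smul, ← add_smul]
    congr 1
    unfold cf
    ring
  have e2 : ∑ j ∈ range n, uu E ρ (τ j) (q j) - ∑ j ∈ range n, ww E ρ (τ (j + 1)) (q (j + 1)) =
      ps E ρ (q n - 1) - ps E ρ (q 0 - 1) := by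
    rw [← Finset.sum_sub_distrib]
    have : ∀ j ∈ range n, uu E ρ (τ j) (q j) - ww E ρ (τ (j + 1)) (q (j + 1)) =
        ps E ρ (q (j + 1) - 1) - ps E ρ (q j - 1) := by
      intro j hj
      have := hc j (mem_range.1 hj)
      rw [sub_eq_sub_iff_add_eq_add, add_comm, this]
    rw [Finset.sum_congr rfl this, Finset.sum_range_sub (fun j => ps E ρ (q j - 1))]
  rw [e1, e2]
  abel

theorem CS_cu_ne {τ : Fin 4} {q p : ℕ} (h : cu τ q p ≠ 0) : p + 1 = q ∨ p = q := by
  by_contra hc
  push Not at hc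
  apply h
  unfold cu
  rw [if_neg (fun h => hc.1 h.2), if_neg (fun h => hc.2 h.2), add_zero]

theorem CS_cw_ne {τ : Fin 4} {q p : ℕ} (h : cw τ q p ≠ 0) : p + 1 = q ∨ p = q := by
  by_contra hc
  push Not at hc
  apply h
  unfold cw
  split_ifs with h1 h2 h3
  · exact absurd h2 hc.2
  · rfl
  · exact absurd h3 hc.1
  · rfl

theorem cf_supp (k n : ℕ) (q : ℕ → ℕ) (τ : ℕ → Fin 4) (hn : 1 ≤ n) (hq : NQ k n q) (p : ℕ)
    (hp : cf n q τ p ≠ 0) : (min (q 0) (q n) ≤ p + 1 ∧ p ≤ max (q 0) (q n)) ∨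
      ∃ j, 1 ≤ j ∧ j < n ∧ (p + 1 = q j ∨ p = q j) := by
  by_contra hc
  push Not at hc
  obtain ⟨hz, hj⟩ := hc
  have hz' : ¬ (min (q 0) (q n) ≤ p + 1 ∧ p ≤ max (q 0) (q n)) := by
    rintro ⟨h1, h2⟩
    exact absurd h2 (not_le.2 (hz h1))
  have hst : ∀ i, i ≤ n → ¬ (p + 1 = q i ∨ p = q i) := by
    intro i hi hpi
    rcases Nat.eq_zero_or_pos i with rfl | h1
    · exact hz' (by omega)
    · rcases Nat.lt_or_ge i n with h2 | h2
      · have := hj i h1 h2
        omega
      · have : i = n := le_antisymm hi h2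
        subst this
        exact hz' (by omega)
  apply hp
  unfold cf
  have hA : ∑ j ∈ range n, cu (τ j) (q j) p = 0 := by
    apply Finset.sum_eq_zero
    intro j hj'
    by_contra h
    exact hst j (by have := mem_range.1 hj'; omega) (CS_cu_ne h)
  have hB : ∑ j ∈ range n, cw (τ (j + 1)) (q (j + 1)) p = 0 := by
    apply Finset.sum_eq_zero
    intro j hj'
    by_contra h
    exact hst (j + 1) (by have := mem_range.1 hj'; omega) (CS_cw_ne h)
  rw [hA, hB, if_neg, if_neg]
  · ring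
  · rintro ⟨h1, h2⟩; apply hz'; omega
  · rintro ⟨h1, h2⟩; apply hz'; omega

theorem cf_stop (k n : ℕ) (q : ℕ → ℕ) (τ : ℕ → Fin 4) (hq : NQ k n q) (j : ℕ)
    (hj : 1 ≤ j) (hjn : j < n) (p : ℕ) (hp : p + 1 = q j ∨ p = q j) :
    cf n q τ p = cu (τ j) (q j) p - cw (τ j) (q j) p := by
  obtain ⟨hr, hd, hc⟩ := hq
  have hne : ∀ i, i ≤ n → i ≠ j → ¬ (p + 1 = q i ∨ p = q i) := by
    intro i hi hij
    rcases lt_or_gt_of_ne hij with h | h
    · have := hd i j h (by omega) (by omega)
      omega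
    · have := hd j i h hi (by omega)
      omega
  have h0j := hd 0 j (by omega) (by omega) (by omega)
  have hjn' := hd j n hjn le_rfl (by omega)
  unfold cf
  have hA : ∑ i ∈ range n, cu (τ i) (q i) p = cu (τ j) (q j) p := by
    apply Finset.sum_eq_single j
    · intro i hi hij
      by_contra h
      exact hne i (by have := mem_range.1 hi; omega) hij (CS_cu_ne h)
    · intro h
      exact absurd (mem_range.2 hjn) h
  have hB : ∑ i ∈ range n, cw (τ (i + 1)) (q (i + 1)) p = cw (τ j) (q j) p := by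
    rw [Finset.sum_eq_single (j - 1)]
    · rw [Nat.sub_add_cancel hj]
    · intro i hi hij
      by_contra h
      exact hne (i + 1) (by have := mem_range.1 hi; omega) (by omega) (CS_cw_ne h)
    · intro h
      exact absurd (mem_range.2 (by omega)) h
  rw [hA, hB, if_neg, if_neg]
  · ring
  · rintro ⟨h1, h2⟩; omega
  · rintro ⟨h1, h2⟩; omega

theorem cf_zone (k n : ℕ) (q : ℕ → ℕ) (τ : ℕ → Fin 4) (hn : 1 ≤ n) (hq : NQ k n q) (p : ℕ)
    (hp : min (q 0) (q n) ≤ p + 1 ∧ p ≤ max (q 0) (q n)) :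
    cf n q τ p = cu (τ 0) (q 0) p - cw (τ n) (q n) p -
      (if q 0 - 1 ≤ p ∧ p < q n - 1 then 1 else 0) +
      (if q n - 1 ≤ p ∧ p < q 0 - 1 then 1 else 0) := by
  obtain ⟨hr, hd, hc⟩ := hq
  have hne : ∀ i, 1 ≤ i → i < n → ¬ (p + 1 = q i ∨ p = q i) := by
    intro i hi hin
    have h0 := hd 0 i (by omega) (by omega) (by omega)
    have h1 := hd i n hin le_rfl (by omega)
    omega
  unfold cf
  have hA : ∑ i ∈ range n, cu (τ i) (q i) p = cu (τ 0) (q 0) p := by
    apply Finset.sum_eq_single 0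
    · intro i hi hij
      by_contra h
      exact hne i (by omega) (mem_range.1 hi) (CS_cu_ne h)
    · intro h
      exact absurd (mem_range.2 (by omega)) h
  have hB : ∑ i ∈ range n, cw (τ (i + 1)) (q (i + 1)) p = cw (τ n) (q n) p := by
    rw [Finset.sum_eq_single (n - 1)]
    · rw [Nat.sub_add_cancel hn]
    · intro i hi hij
      by_contra h
      have := mem_range.1 hi
      exact hne (i + 1) (by omega) (by omega) (CS_cw_ne h)
    · intro h
      exact absurd (mem_range.2 (by omega)) h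
  rw [hA, hB]

end Pool.Agent.SLD
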