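import Pool.Agent.Lib_helper26.SLD.Defs

/-! Block RK (project SLD): rank lemmas. -/

namespace Pool.Agent.SLD

open Finset Equiv Function Pool.Agent.SEQ

variable {G : Type*} [AddCommGroup G] {m k : ℕ}

theorem rk_zero (D : Finset ℕ) : rk D 0 = 0 := by
  simp [rk]

theorem rk_succ (D : Finset ℕ) (j : ℕ) : rk D (j + 1) = rk D j + if j ∈ D then 0 else 1 := by
  unfold rk
  rw [Finset.range_add_one, Finset.filter_insert]
  by_cases h : j ∈ D
  · simp [h]
  · simp [h]

theorem rk_mono (D : Finset ℕ) {i j : ℕ} (h : i ≤ j) : rk D i ≤ rk D j := by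
  induction h with
  | refl => exact le_rfl
  | step _ ih => exact ih.trans (by rw [rk_succ]; omega)

theorem rk_diff (D : Finset ℕ) {i j : ℕ} (h : i ≤ j) : rk D j ≤ rk D i + (j - i) := by
  induction h with
  | refl => simp
  | @step n hn ih =>
    rw [Nat.succ_eq_add_one, rk_succ]
    have h1 : (if n ∈ D then 0 else 1) ≤ 1 := by split <;> omega
    have h2 : i ≤ n := hn
    omega

theorem rk_k {H : AddSubgroup G} {x : G} {D0 : ℕ} {e : Fin m → G} {D : Finset ℕ} {lam : ℕ → G}
    (h : Cf H x D0 e D lam k) : rk D k = m := by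
  have hsub : D ⊆ range k := by
    intro p hp
    have := h.hi p hp
    rw [Finset.mem_range]
    omega
  have h1 : (range k).filter (fun p => p ∉ D) = range k \ D := by
    ext p
    simp
  unfold rk
  rw [h1, Finset.card_sdiff_of_subset hsub, Finset.card_range]
  have := h.card
  omega

theorem RK_strict (D : Finset ℕ) {i j : ℕ} (hij : i < j) (hi : i ∉ D) : rk D i < rk D j := by
  have h1 : rk D (i + 1) ≤ rk D j := rk_mono D hij
  rw [rk_succ] at h1
  simp only [hi, if_false] at h1
  omega

theorem rk_lt {H : AddSubgroup G} {x : G} {D0 : ℕ} {e : Fin m → G} {D : Finset ℕ} {lam : ℕ → G}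
    (h : Cf H x D0 e D lam k) {p : ℕ} (hp : p < k) (hpD : p ∉ D) : rk D p < m := by
  have h1 := RK_strict D hp hpD
  rwa [rk_k h] at h1

theorem rk_sep {H : AddSubgroup G} {x : G} {D0 : ℕ} {e : Fin m → G} {D : Finset ℕ} {lam : ℕ → G}
    (h : Cf H x D0 e D lam k) {i j : ℕ} (hij : i + 2 ≤ j) : rk D i < rk D j := by
  by_cases hi : i ∈ D
  · have hi1 : i + 1 ∉ D := by
      intro hh
      have := h.sep i hi (i + 1) hh (by omega)
      omega
    exact lt_of_le_of_lt (rk_mono D (Nat.le_succ i)) (RK_strict D (by omega) hi1)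
  · exact RK_strict D (by omega) hi

theorem rk_inj (D : Finset ℕ) {p p' : ℕ} (hp : p ∉ D) (hp' : p' ∉ D) (h : rk D p = rk D p') :
    p = p' := by
  rcases lt_trichotomy p p' with h1 | h1 | h1
  · have := RK_strict D h1 hp
    omega
  · exact h1
  · have := RK_strict D h1 hp'
    omega

theorem el_sq (e : Fin m → G) (D : Finset ℕ) (lam : ℕ → G) (π : Perm (Fin m)) {p : ℕ}
    (hp : p < k) : el (sq k e D lam π) 1 p = fl e D lam π p := by
  unfold el sq
  simp [hp]

theorem ps_sq (e : Fin m → G) (D : Finset ℕ) (lam : ℕ → G) (π : Perm (Fin m)) {j : ℕ}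
    (hj : j ≤ k) : ps (sq k e D lam π) 1 j =
      ps e π (rk D j) + ∑ p ∈ D.filter (fun p => p < j), lam p := by
  induction j with
  | zero => simp [rk_zero, ps]
  | succ j ih =>
    rw [ps_succ, ih (by omega), el_sq e D lam π (show j < k by omega), rk_succ]
    by_cases h : j ∈ D
    · have h1 : D.filter (fun p => p < j + 1) = insert j (D.filter (fun p => p < j)) := by
        ext p
        simp only [Finset.mem_filter, Finset.mem_insert]
        constructor
        · rintro ⟨h2, h3⟩
          rcases Nat.lt_succ_iff_lt_or_eq.1 h3 with h4 | h4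
          · exact Or.inr ⟨h2, h4⟩
          · exact Or.inl h4
        · rintro (h2 | ⟨h2, h3⟩)
          · subst h2
            exact ⟨h, Nat.lt_succ_self _⟩
          · exact ⟨h2, by omega⟩
      have h2 : j ∉ D.filter (fun p => p < j) := by simp
      rw [h1, Finset.sum_insert h2]
      simp only [h, if_true, add_zero, fl]
      abel
    · have h1 : D.filter (fun p => p < j + 1) = D.filter (fun p => p < j) := by
        ext p
        simp only [Finset.mem_filter]
        constructor
        · rintro ⟨h2, h3⟩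
          refine ⟨h2, ?_⟩
          rcases Nat.lt_succ_iff_lt_or_eq.1 h3 with h4 | h4
          · exact h4
          · subst h4
            exact absurd h2 h
        · rintro ⟨h2, h3⟩
          exact ⟨h2, by omega⟩
      rw [h1]
      simp only [h, if_false, fl]
      rw [ps_succ]
      abel

theorem dep_fl (e : Fin m → G) (D : Finset ℕ) (lam : ℕ → G) (I : Finset ℕ) (p : ℕ)
    (h : p ∉ D → rk D p ∈ I) : Dep I (fun π => fl e D lam π p) := by
  by_cases hp : p ∈ D
  · intro π π' _
    simp [fl, hp]
  · intro π π' ha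
    have := dep_el e (h hp) π π' ha
    simpa [fl, hp] using this

end Pool.Agent.SLD
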