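import Pool.Agent.Lib_helper26.SLD.Defs
import Pool.Agent.Lib_helper26.SLD.RK
import Pool.Agent.Lib_helper26.SLD.CS

/-! Block NP (project SLD). -/

namespace Pool.Agent.SLD

open Finset Equiv Function Pool.Agent.SEQ

variable {G : Type*} [AddCommGroup G] {m k : ℕ}

theorem np_cu (τ : Fin 4) (q p : ℕ) : cu τ q p = 0 ∨ cu τ q p = 1 := by
  unfold cu
  by_cases h1 : (τ = 0 ∨ τ = 2) ∧ p + 1 = q
  · have h2 : ¬ ((τ = 1 ∨ τ = 2) ∧ p = q) := by
      rintro ⟨_, h⟩
      omega
    rw [if_pos h1, if_neg h2]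
    right; ring
  · rw [if_neg h1]
    split_ifs
    · right; ring
    · left; ring

theorem np_cw (τ : Fin 4) (q p : ℕ) : cw τ q p = 0 ∨ cw τ q p = 1 := by
  unfold cw
  split_ifs <;> simp

theorem np_cu_supp {τ : Fin 4} {q p : ℕ} (h : cu τ q p ≠ 0) : p + 1 = q ∨ p = q := by
  unfold cu at h
  by_contra hc
  push Not at hc
  apply h
  rw [if_neg (fun h1 => hc.1 h1.2), if_neg (fun h1 => hc.2 h1.2)]
  rfl

theorem np_cw_supp {τ : Fin 4} {q p : ℕ} (h : cw τ q p ≠ 0) : p + 1 = q ∨ p = q := by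
  unfold cw at h
  by_contra hc
  push Not at hc
  apply h
  rw [if_neg hc.2, if_neg hc.1]
  split_ifs <;> rfl

theorem cf_range (k n : ℕ) (q : ℕ → ℕ) (τ : ℕ → Fin 4) (hn : 1 ≤ n) (hq : NQ k n q)
    (p : ℕ) : cf n q τ p = -1 ∨ cf n q τ p = 0 ∨ cf n q τ p = 1 := by
  by_cases h0 : cf n q τ p = 0
  · right; left; exact h0
  rcases cf_supp k n q τ hn hq p h0 with hz | ⟨j, hj, hjn, hp⟩
  · rw [cf_zone k n q τ hn hq p hz]
    have a := np_cu (τ 0) (q 0) p
    have b := np_cw (τ n) (q n) p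
    have a' : cu (τ 0) (q 0) p ≠ 0 → p + 1 = q 0 ∨ p = q 0 := np_cu_supp
    have b' : cw (τ n) (q n) p ≠ 0 → p + 1 = q n ∨ p = q n := np_cw_supp
    generalize cu (τ 0) (q 0) p = u at *
    generalize cw (τ n) (q n) p = w at *
    have c := hq.1 0 (by omega)
    have d := hq.1 n le_rfl
    split_ifs with h1 h2 h2
    · omega
    · have : w = 0 := by
        by_contra hw
        have := b' hw
        omega
      rcases a with a | a <;> rw [this, a] <;> simp
    · have : u = 0 := by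
        by_contra hu
        have := a' hu
        omega
      rcases b with b | b <;> rw [this, b] <;> simp
    · rcases a with a | a <;> rcases b with b | b <;> rw [a, b] <;> simp
  · rw [cf_stop k n q τ hq j hj hjn p hp]
    rcases np_cu (τ j) (q j) p with a | a <;> rcases np_cw (τ j) (q j) p with b | b <;>
      rw [a, b] <;> simp

theorem no_pivot {H : AddSubgroup G} {x : G} {D0 : ℕ} {e : Fin m → G} {D : Finset ℕ} {lam : ℕ → G}
    (h : Cf H x D0 e D lam k) (n : ℕ) (q : ℕ → ℕ) (τ : ℕ → Fin 4) (hn : 1 ≤ n) (hq : NQ k n q)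
    (hP : ¬ Pv D k n q τ) :
    (∀ j, 1 ≤ j → j < n → (τ j = 2 ∧ q j ∈ D) ∨ (τ j = 3 ∧ q j - 1 ∈ D)) ∧
      ∀ p < k, p ∉ D → cf n q τ p = 0 := by
  refine ⟨fun j hj hjn => ?_, fun p hp hpD => ?_⟩
  · have hqj := hq.1 j hjn.le
    have h1 := cf_stop k n q τ hq j hj hjn (q j) (Or.inr rfl)
    have h2 := cf_stop k n q τ hq j hj hjn (q j - 1) (Or.inl (by omega))
    have e1 : q j - 1 + 1 = q j := by omega
    have e2 : ¬ q j - 1 = q j := by omega
    have e3 : ¬ q j + 1 = q j := by omega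
    have hsep : q j ∉ D ∨ q j - 1 ∉ D := by
      by_contra hc
      push Not at hc
      have := h.sep _ hc.2 _ hc.1 (by omega)
      omega
    have hτ : τ j = 0 ∨ τ j = 1 ∨ τ j = 2 ∨ τ j = 3 := by
      generalize τ j = z
      fin_cases z <;> simp
    have hno : ∀ p < k, p ∉ D → cf n q τ p ≠ 1 ∧ cf n q τ p ≠ -1 := fun p hp hpD =>
      ⟨fun h => hP ⟨p, hp, hpD, Or.inl h⟩, fun h => hP ⟨p, hp, hpD, Or.inr h⟩⟩
    rcases hτ with ht | ht | ht | ht
    · exfalso
      rw [ht] at h1 h2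
      have h1' : cf n q τ (q j) = -1 := by
        rw [h1]; simp [cu, cw]
      have h2' : cf n q τ (q j - 1) = 1 := by
        rw [h2]; simp [cu, cw, e1, e2]
      rcases hsep with hs | hs
      · exact (hno _ hqj.2 hs).2 h1'
      · exact (hno _ (by omega) hs).1 h2'
    · exfalso
      rw [ht] at h1 h2
      have h1' : cf n q τ (q j) = 1 := by
        rw [h1]; simp [cu, cw]
      have h2' : cf n q τ (q j - 1) = -1 := by
        rw [h2]; simp [cu, cw, e1, e2]
      rcases hsep with hs | hs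
      · exact (hno _ hqj.2 hs).1 h1'
      · exact (hno _ (by omega) hs).2 h2'
    · left
      refine ⟨ht, ?_⟩
      by_contra hs
      rw [ht] at h1
      have h1' : cf n q τ (q j) = 1 := by
        rw [h1]; simp [cu, cw]
      exact (hno _ hqj.2 hs).1 h1'
    · right
      refine ⟨ht, ?_⟩
      by_contra hs
      rw [ht] at h2
      have h2' : cf n q τ (q j - 1) = -1 := by
        rw [h2]; simp [cu, cw, e1, e2]
      exact (hno _ (by omega) hs).2 h2'
  · rcases cf_range k n q τ hn hq p with h1 | h1 | h1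
    · exact absurd ⟨p, hp, hpD, Or.inr h1⟩ hP
    · exact h1
    · exact absurd ⟨p, hp, hpD, Or.inl h1⟩ hP

theorem rel_of_chain {H : AddSubgroup G} {x : G} {D0 : ℕ} {e : Fin m → G} {D : Finset ℕ} {lam : ℕ → G}
    (h : Cf H x D0 e D lam k) (n : ℕ) (q : ℕ → ℕ) (τ : ℕ → Fin 4) (hn : 1 ≤ n) (hq : NQ k n q)
    (hP : ¬ Pv D k n q τ) (π : Perm (Fin m)) (hc : Chain (sq k e D lam π) 1 n q τ) :
    Rl D lam n q τ := by
  have h1 := closure_eq (sq k e D lam π) 1 n q τ hq.1 hc
  have h2 := (no_pivot h n q τ hn hq hP).2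
  have hDk : D ⊆ range k := by
    intro p hp
    have := h.hi p hp
    rw [mem_range]
    omega
  unfold Rl
  rw [← h1]
  symm
  rw [← Finset.sum_subset hDk]
  · refine Finset.sum_congr rfl fun p hp => ?_
    rw [el_sq e D lam π (mem_range.1 (hDk hp))]
    unfold fl
    rw [if_pos hp]
  · intro p hp hpD
    rw [h2 p (mem_range.1 hp) hpD, zero_smul]

end Pool.Agent.SLD
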