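import Pool.Agent.Lib_helper26.SLD.Defs
import Pool.Agent.Lib_helper26.SLD.RK
import Pool.Agent.Lib_helper26.SLD.CS
import Pool.Agent.Lib_helper26.SLD.NP

/-! Block C2 (project SLD): near-cycles with two jumps and without a free pivot. -/

namespace Pool.Agent.SLD

open Finset Equiv Function Pool.Agent.SEQ

variable {G : Type*} [AddCommGroup G] {m k : ℕ}

/-- the contribution of one stop at a prescribed position -/
theorem C2_stop {H : AddSubgroup G} {x : G} {D0 : ℕ} {e : Fin m → G} {D : Finset ℕ} {lam : ℕ → G}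
    (h : Cf H x D0 e D lam k) (τ : Fin 4) (q : ℕ) (hq : 2 ≤ q)
    (hτ : (τ = 2 ∧ q ∈ D) ∨ (τ = 3 ∧ q - 1 ∈ D)) :
    ∃ p ∈ D, (τ = 2 → p = q) ∧ (τ = 3 → p + 1 = q) ∧
      ∑ p' ∈ D, (cu τ q p' - cw τ q p') • lam p' = (if τ = 2 then lam p else - lam p) := by
  rcases hτ with ⟨h2, hD⟩ | ⟨h3, hD⟩
  · subst h2
    refine ⟨q, hD, fun _ => rfl, fun h => absurd h (by decide), ?_⟩
    rw [Finset.sum_eq_single_of_mem q hD]
    · simp [cu, cw]
    · intro p' hp' hne
      have h1 : ¬ p' + 1 = q := by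
        intro h1
        have := h.sep p' hp' q hD (by omega)
        omega
      simp [cu, cw, h1, hne]
  · subst h3
    refine ⟨q - 1, hD, fun h => absurd h (by decide), fun _ => by omega, ?_⟩
    rw [Finset.sum_eq_single_of_mem (q - 1) hD]
    · have h1 : q - 1 + 1 = q := by omega
      simp [cu, cw, h1]
    · intro p' hp' hne
      have h1 : ¬ p' + 1 = q := by omega
      simp [cu, cw, h1]

/-- the closure coefficient for two jumps -/
theorem C2_cf (q : ℕ → ℕ) (τ : ℕ → Fin 4) (p : ℕ) :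
    cf 2 q τ p = (cu (τ 0) (q 0) p - cw (τ 2) (q 2) p -
      (if q 0 - 1 ≤ p ∧ p < q 2 - 1 then 1 else 0) + (if q 2 - 1 ≤ p ∧ p < q 0 - 1 then 1 else 0)) +
      (cu (τ 1) (q 1) p - cw (τ 1) (q 1) p) := by
  unfold cf
  rw [Finset.sum_range_succ, Finset.sum_range_one, Finset.sum_range_succ, Finset.sum_range_one]
  ring

/-- the middle stop is determined by the two other ones -/
theorem C2_inj {H : AddSubgroup G} {x : G} {D0 : ℕ} {e : Fin m → G} {D : Finset ℕ} {lam : ℕ → G}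
    (h : Cf H x D0 e D lam k) (τ : ℕ → Fin 4) (q q' : ℕ → ℕ) (hq : NQ k 2 q) (hq' : NQ k 2 q')
    (hP : ¬ Pv D k 2 q τ) (hP' : ¬ Pv D k 2 q' τ) (hR : Rl D lam 2 q τ) (hR' : Rl D lam 2 q' τ)
    (h0 : q 0 = q' 0) (h2 : q 2 = q' 2) : q 1 = q' 1 := by
  have n1 := (no_pivot h 2 q τ (by norm_num) hq hP).1 1 le_rfl (by norm_num)
  have n2 := (no_pivot h 2 q' τ (by norm_num) hq' hP').1 1 le_rfl (by norm_num)
  obtain ⟨p, hp, e2, e3, es⟩ := C2_stop h (τ 1) (q 1) (hq.1 1 (by norm_num)).1 n1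
  obtain ⟨p', hp', e2', e3', es'⟩ := C2_stop h (τ 1) (q' 1) (hq'.1 1 (by norm_num)).1 n2
  unfold Rl at hR hR'
  have r1 : ∑ p ∈ D, (cu (τ 0) (q 0) p - cw (τ 2) (q 2) p -
      (if q 0 - 1 ≤ p ∧ p < q 2 - 1 then 1 else 0) +
      (if q 2 - 1 ≤ p ∧ p < q 0 - 1 then (1 : ℤ) else 0)) • lam p +
      ∑ p ∈ D, (cu (τ 1) (q 1) p - cw (τ 1) (q 1) p) • lam p = 0 := by
    rw [← Finset.sum_add_distrib, ← hR]
    exact Finset.sum_congr rfl fun p _ => by rw [C2_cf q τ p]; exact (add_smul _ _ _).symm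
  have r2 : ∑ p ∈ D, (cu (τ 0) (q 0) p - cw (τ 2) (q 2) p -
      (if q 0 - 1 ≤ p ∧ p < q 2 - 1 then 1 else 0) +
      (if q 2 - 1 ≤ p ∧ p < q 0 - 1 then (1 : ℤ) else 0)) • lam p +
      ∑ p ∈ D, (cu (τ 1) (q' 1) p - cw (τ 1) (q' 1) p) • lam p = 0 := by
    rw [← Finset.sum_add_distrib, ← hR']
    exact Finset.sum_congr rfl fun p _ => by rw [C2_cf q' τ p, h0, h2]; exact (add_smul _ _ _).symm
  have r3 := add_left_cancel (r1.trans r2.symm)
  rw [es, es'] at r3
  rcases n1 with ⟨t2, _⟩ | ⟨t3, _⟩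
  · rw [if_pos t2, if_pos t2] at r3
    rw [← e2 t2, ← e2' t2]
    exact h.laminj p hp p' hp' r3
  · have t2 : ¬ τ 1 = 2 := by
      rw [t3]
      decide
    rw [if_neg t2, if_neg t2] at r3
    rw [← e3 t3, ← e3' t3]
    rw [h.laminj p hp p' hp' (neg_injective r3)]

/-- there is a prescribed position in the zone -/
theorem C2_zone {H : AddSubgroup G} {x : G} {D0 : ℕ} {e : Fin m → G} {D : Finset ℕ} {lam : ℕ → G}
    (h : Cf H x D0 e D lam k) (τ : ℕ → Fin 4) (q : ℕ → ℕ) (hq : NQ k 2 q)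
    (hP : ¬ Pv D k 2 q τ) (hR : Rl D lam 2 q τ) :
    ∃ p ∈ D, p ≤ q 0 + 9 ∧ q 0 ≤ p + 10 := by
  have n1 := (no_pivot h 2 q τ (by norm_num) hq hP).1 1 le_rfl (by norm_num)
  have hq1 := (hq.1 1 (by norm_num)).1
  have hz := hq.2.2
  by_contra hc
  push Not at hc
  -- all other coefficients vanish
  have hv : ∀ p ∈ D, ¬ (p + 1 = q 1 ∨ p = q 1) → cf 2 q τ p = 0 := by
    intro p hp hne
    by_contra h0
    rcases cf_supp k 2 q τ (by norm_num) hq p h0 with hz' | ⟨j, hj, hj2, hjp⟩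
    · have h1 : p ≤ q 0 + 9 := by
        have := hz'.2
        rcases le_max_iff.1 this with h' | h' <;> omega
      have h2 := hc p hp h1
      rcases min_le_iff.1 hz'.1 with h' | h' <;> omega
    · have : j = 1 := by omega
      subst this
      exact hne hjp
  unfold Rl at hR
  rcases n1 with ⟨t2, hD⟩ | ⟨t3, hD⟩
  · rw [Finset.sum_eq_single_of_mem (q 1) hD] at hR
    · have : cf 2 q τ (q 1) = 1 := by
        rw [cf_stop k 2 q τ hq 1 le_rfl (by norm_num) (q 1) (Or.inr rfl), t2]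
        simp [cu, cw]
      rw [this, one_smul] at hR
      exact h.lam0 _ hD hR
    · intro p hp hne
      rw [hv p hp, zero_smul]
      rintro (h1 | h1)
      · have := h.sep p hp (q 1) hD (by omega)
        omega
      · exact hne h1
  · rw [Finset.sum_eq_single_of_mem (q 1 - 1) hD] at hR
    · have : cf 2 q τ (q 1 - 1) = -1 := by
        have h1 : q 1 - 1 + 1 = q 1 := by omega
        rw [cf_stop k 2 q τ hq 1 le_rfl (by norm_num) (q 1 - 1) (Or.inl h1), t3]
        simp [cu, cw, h1]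
      rw [this, neg_smul, one_smul, neg_eq_zero] at hR
      exact h.lam0 _ hD hR
    · intro p hp hne
      rw [hv p hp, zero_smul]
      rintro (h1 | h1)
      · omega
      · have := h.sep (q 1 - 1) hD p hp (by omega)
        omega

open Classical in
theorem count_rel2 {H : AddSubgroup G} {x : G} {D0 : ℕ} {e : Fin m → G} {D : Finset ℕ} {lam : ℕ → G}
    (h : Cf H x D0 e D lam k) (τ : ℕ → Fin 4) :
    ((Fintype.piFinset fun _ : Fin (2 + 1) => range k).filter fun Q =>
      NQ k 2 (xq 2 Q) ∧ ¬ Pv D k 2 (xq 2 Q) τ ∧ Rl D lam 2 (xq 2 Q) τ).card ≤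
      437 * D.card := by
  have x0 : ∀ Q : Fin (2 + 1) → ℕ, xq 2 Q 0 = Q 0 := fun Q => by simp [xq]
  have x1 : ∀ Q : Fin (2 + 1) → ℕ, xq 2 Q 1 = Q 1 := fun Q => by simp [xq]
  have x2 : ∀ Q : Fin (2 + 1) → ℕ, xq 2 Q 2 = Q 2 := fun Q => by simp [xq]
  calc _ ≤ (D.biUnion fun p => (Icc (p - 9) (p + 10)).biUnion fun a =>
        (Icc (a - 9) (a + 9)).image fun b => (a, b)).card := by
        refine Finset.card_le_card_of_injOn (fun Q => (Q 0, Q 2)) ?_ ?_
        · intro Q hQ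
          rw [Finset.mem_coe, Finset.mem_filter] at hQ
          obtain ⟨_, h1, h2, h3⟩ := hQ
          obtain ⟨p, hp, hp1, hp2⟩ := C2_zone h τ _ h1 h2 h3
          have hz := h1.2.2
          rw [x0] at hp1 hp2
          rw [x0, x2] at hz
          rw [Finset.mem_coe]
          simp only [Finset.mem_biUnion, Finset.mem_image, Finset.mem_Icc]
          exact ⟨p, hp, Q 0, ⟨by omega, by omega⟩, Q 2, ⟨by omega, by omega⟩, rfl⟩
        · intro Q hQ Q' hQ' hE
          rw [Finset.mem_coe, Finset.mem_filter] at hQ hQ'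
          obtain ⟨_, h1, h2, h3⟩ := hQ
          obtain ⟨_, h1', h2', h3'⟩ := hQ'
          have e0 : Q 0 = Q' 0 := (Prod.mk.inj hE).1
          have e2 : Q 2 = Q' 2 := (Prod.mk.inj hE).2
          have e1 := C2_inj h τ _ _ h1 h1' h2 h2' h3 h3' (by rw [x0, x0]; exact e0)
            (by rw [x2, x2]; exact e2)
          rw [x1, x1] at e1
          funext i
          fin_cases i
          · exact e0
          · exact e1
          · exact e2
    _ ≤ ∑ p ∈ D, 380 := by
        refine Finset.card_biUnion_le.trans (Finset.sum_le_sum fun p _ => ?_)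
        refine Finset.card_biUnion_le.trans ?_
        calc ∑ a ∈ Icc (p - 9) (p + 10), ((Icc (a - 9) (a + 9)).image fun b => (a, b)).card
            ≤ ∑ a ∈ Icc (p - 9) (p + 10), 19 := by
              refine Finset.sum_le_sum fun a _ => Finset.card_image_le.trans ?_
              rw [Nat.card_Icc]
              omega
          _ ≤ 380 := by
              rw [Finset.sum_const, smul_eq_mul, Nat.card_Icc]
              omega
    _ ≤ 437 * D.card := by
        rw [Finset.sum_const, smul_eq_mul]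
        omega

end Pool.Agent.SLD
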