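import Pool.Agent.Lib_helper26.SLD.Defs
import Pool.Agent.Lib_helper26.SLD.RK

/-! Block CL (project SLD). -/

namespace Pool.Agent.SLD

open Finset Equiv Function Pool.Agent.SEQ

variable {G : Type*} [AddCommGroup G] {m k : ℕ}

theorem CL_sum (H : AddSubgroup G) (s : Finset ℕ) (f : ℕ → G) :
    ((∑ p ∈ s, f p : G) : G ⧸ H) = ∑ p ∈ s, ((f p : G) : G ⧸ H) :=
  map_sum (QuotientAddGroup.mk' H) f s

theorem cls_fl {H : AddSubgroup G} {x : G} {D0 : ℕ} {e : Fin m → G} {D : Finset ℕ} {lam : ℕ → G}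
    (h : Cf H x D0 e D lam k) (π : Perm (Fin m)) {p : ℕ} (hp : p < k) :
    ((fl e D lam π p : G) : G ⧸ H) = clp H x D lam p := by
  unfold fl clp
  by_cases hD : p ∈ D
  · rw [if_pos hD, if_pos hD]
  · rw [if_neg hD, if_neg hD]
    have h1 := rk_lt h hp hD
    unfold el
    rw [dif_pos h1]
    refine (QuotientAddGroup.eq.2 ?_).symm
    rw [neg_add_eq_sub]
    exact h.cls _

theorem CL_el {H : AddSubgroup G} {x : G} {D0 : ℕ} {e : Fin m → G} {D : Finset ℕ} {lam : ℕ → G}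
    (h : Cf H x D0 e D lam k) (π : Perm (Fin m)) {p : ℕ} (hp : p < k) :
    ((el (sq k e D lam π) 1 p : G) : G ⧸ H) = clp H x D lam p := by
  rw [el_sq e D lam π hp, cls_fl h π hp]

theorem cls_ps {H : AddSubgroup G} {x : G} {D0 : ℕ} {e : Fin m → G} {D : Finset ℕ} {lam : ℕ → G}
    (h : Cf H x D0 e D lam k) (π : Perm (Fin m)) {j : ℕ} (hj : j ≤ k) :
    ((ps (sq k e D lam π) 1 j : G) : G ⧸ H) = KK H x D lam j := by
  unfold ps KK
  rw [CL_sum]
  refine sum_congr rfl fun p hp => ?_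
  rw [mem_range] at hp
  exact CL_el h π (by omega)

theorem cls_vv {H : AddSubgroup G} {x : G} {D0 : ℕ} {e : Fin m → G} {D : Finset ℕ} {lam : ℕ → G}
    (h : Cf H x D0 e D lam k) (π : Perm (Fin m)) {j : ℕ} {s : Bool} (h1 : 1 ≤ j) (hj : j ≤ k)
    (hs : s = true → j < k) :
    ((vv (sq k e D lam π) 1 j s : G) : G ⧸ H) =
      KK H x D lam (j - 1) + WW H x D lam (if s then 0 else 1) j := by
  obtain ⟨i, rfl⟩ : ∃ i, j = i + 1 := ⟨j - 1, by omega⟩
  rw [Nat.add_sub_cancel]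
  have h2 : ps (sq k e D lam π) 1 (i + 1) = ps (sq k e D lam π) 1 i + el (sq k e D lam π) 1 i := by
    unfold ps; rw [sum_range_succ]
  cases s with
  | true =>
    have h3 : i + 1 < k := hs rfl
    unfold vv WW
    rw [if_pos rfl, if_pos rfl, if_pos rfl, h2, Nat.add_sub_cancel, add_sub_cancel_right,
      QuotientAddGroup.mk_add, cls_ps h π (by omega), CL_el h π h3]
  | false =>
    unfold vv WW
    rw [if_neg (by simp), if_neg (by simp), h2, Nat.add_sub_cancel,
      QuotientAddGroup.mk_add, cls_ps h π (by omega), CL_el h π (by omega)]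

theorem CL_uu {H : AddSubgroup G} {x : G} {D0 : ℕ} {e : Fin m → G} {D : Finset ℕ} {lam : ℕ → G}
    (h : Cf H x D0 e D lam k) (π : Perm (Fin m)) {q : ℕ} (hq : q < k) (τ : Fin 4) :
    ((uu (sq k e D lam π) 1 τ q : G) : G ⧸ H) = UU H x D lam τ q := by
  unfold uu UU
  rw [QuotientAddGroup.mk_add]
  congr 1
  · split_ifs
    · exact CL_el h π (by omega)
    · rfl
  · split_ifs
    · exact CL_el h π hq
    · rfl

theorem CL_ww {H : AddSubgroup G} {x : G} {D0 : ℕ} {e : Fin m → G} {D : Finset ℕ} {lam : ℕ → G}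
    (h : Cf H x D0 e D lam k) (π : Perm (Fin m)) {q : ℕ} (hq : q < k) (τ : Fin 4) :
    ((ww (sq k e D lam π) 1 τ q : G) : G ⧸ H) = WW H x D lam τ q := by
  unfold ww WW
  split_ifs
  · exact CL_el h π hq
  · exact CL_el h π (by omega)

theorem chain_cls {H : AddSubgroup G} {x : G} {D0 : ℕ} {e : Fin m → G} {D : Finset ℕ} {lam : ℕ → G}
    (h : Cf H x D0 e D lam k) (n : ℕ) (q : ℕ → ℕ) (τ : ℕ → Fin 4) (hq : ∀ i ≤ n, 2 ≤ q i ∧ q i < k)
    (π : Perm (Fin m)) (hc : Chain (sq k e D lam π) 1 n q τ) :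
    ∀ i < n, CC H x D lam q τ i := by
  intro i hi
  have h1 := congrArg (fun g : G => (g : G ⧸ H)) (hc i hi)
  have h2 := hq i hi.le
  have h3 := hq (i + 1) hi
  simp only [QuotientAddGroup.mk_add] at h1
  rw [cls_ps h π (by omega), cls_ps h π (by omega), CL_uu h π h2.2, CL_ww h π h3.2] at h1
  exact h1

theorem short_cls {H : AddSubgroup G} {x : G} {D0 : ℕ} {e : Fin m → G} {D : Finset ℕ} {lam : ℕ → G}
    (h : Cf H x D0 e D lam k) (π : Perm (Fin m)) (a : ℕ) (s : Bool) (b : ℕ) (r : Bool)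
    (hco : Co (sq k e D lam π) (k - 1) 1 a s b r) (hsh : b ≤ a + 20) :
    ∃ p ∈ D, a ≤ p + 1 ∧ p ≤ b := by
  obtain ⟨h1, -, h3, h4, h5, h6⟩ := hco
  by_contra hc
  push Not at hc
  have hw := win_sum (sq k e D lam π) 1 a s b r h1 h4
  rw [← h6, sub_self] at hw
  have hsub := win_subset k a s b r h1 h3 h5
  have hmem : ∀ p ∈ win a s b r, a ≤ p + 1 ∧ p ≤ b := by
    intro p hp
    unfold win at hp
    rw [mem_insert, mem_insert, mem_Ico] at hp
    rcases hp with hp | hp | hp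
    · cases s with
      | true => have := h4 rfl; simp at hp; omega
      | false => simp at hp; omega
    · cases r <;> simp at hp <;> omega
    · omega
  have hcl := congrArg (fun g : G => (g : G ⧸ H)) hw
  simp only [CL_sum] at hcl
  have h7 : ∀ p ∈ win a s b r, ((el (sq k e D lam π) 1 p : G) : G ⧸ H) = (x : G ⧸ H) := by
    intro p hp
    rw [CL_el h π (mem_range.1 (hsub hp)), clp, if_neg]
    intro hD
    have h8 := hmem p hp
    have h9 := hc p hD h8.1
    omega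
  rw [sum_congr rfl h7, sum_const, win_card a s b r h1 h4] at hcl
  have h10 : (((b - a) • x : G) : G ⧸ H) = 0 := by
    have h11 : (((b - a) • x : G) : G ⧸ H) = (b - a) • (x : G ⧸ H) := rfl
    rw [h11, ← hcl]; rfl
  rw [QuotientAddGroup.eq_zero_iff] at h10
  have h12 := h.D0pos
  exact h.ord (b - a) (by omega) (by omega) h10

end Pool.Agent.SLD
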