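import Pool.Agent.Lib_helper26.SLD.Defs

/-! Block CN (project SLD). -/

namespace Pool.Agent.SLD

open Finset Equiv Function Pool.Agent.SEQ

variable {G : Type*} [AddCommGroup G] {m k : ℕ}

theorem CN_step (H : AddSubgroup G) (x : G) (D : Finset ℕ) (lam : ℕ → G) (q d : ℕ)
    (h : ∀ p ∈ D, q ≤ p → q + d ≤ p) :
    KK H x D lam (q + d) = KK H x D lam q + d • (x : G ⧸ H) := by
  induction d with
  | zero => simp
  | succ d ih =>
    have h1 := ih fun p hp hq => by have := h p hp hq; omega
    have h2 : q + d ∉ D := fun hm => by have := h _ hm (by omega); omega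
    unfold KK at h1 ⊢
    rw [← add_assoc, sum_range_succ, h1, clp, if_neg h2, succ_nsmul, add_assoc]

theorem CN_gap {H : AddSubgroup G} {x : G} {D0 : ℕ} {e : Fin m → G} {D : Finset ℕ} {lam : ℕ → G}
    (h : Cf H x D0 e D lam k) {q q' : ℕ} (hlt : q < q') (hD : ∀ p ∈ D, q ≤ p → q' ≤ p)
    (he : KK H x D lam q = KK H x D lam q') : D0 < q' - q := by
  by_contra hc
  obtain ⟨d, rfl⟩ := Nat.exists_eq_add_of_lt hlt
  have h1 := CN_step H x D lam q (d + 1) (fun p hp hq => by have := hD p hp hq; omega)
  have h2 : q + d + 1 = q + (d + 1) := by ring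
  rw [h2] at he
  rw [h1] at he
  have h3 : ((d + 1) • (x : G ⧸ H)) = 0 := by
    simpa using he
  have h4 : (((d + 1) • x : G) : G ⧸ H) = 0 := by
    rw [← h3]; rfl
  rw [QuotientAddGroup.eq_zero_iff] at h4
  exact h.ord (d + 1) (by omega) (by omega) h4

open Classical in
theorem CN_main {H : AddSubgroup G} {x : G} {D0 : ℕ} {e : Fin m → G} {D : Finset ℕ} {lam : ℕ → G}
    (h : Cf H x D0 e D lam k) (c : G ⧸ H) :
    ((range (k + 1)).filter fun q => KK H x D lam q = c).card ≤ D.card + (k / D0 + 1) := by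
  set S := (range (k + 1)).filter fun q => KK H x D lam q = c with hS
  have hD0 : 0 < D0 + 1 := Nat.succ_pos _
  rw [← card_filter_add_card_filter_not (s := S)
    (fun q => ∃ p ∈ D, q ≤ p ∧ p / (D0 + 1) = q / (D0 + 1))]
  have hmem : ∀ q ∈ S, q ≤ k ∧ KK H x D lam q = c := fun q hq => by
    rw [hS, mem_filter, mem_range] at hq
    exact ⟨by omega, hq.2⟩
  have hblk : ∀ q q' : ℕ, q < q' → q / (D0 + 1) = q' / (D0 + 1) → q' - q ≤ D0 := by
    intro q q' hlt heq
    have h1 := Nat.div_add_mod q (D0 + 1)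
    have h2 := Nat.div_add_mod q' (D0 + 1)
    have h3 := Nat.mod_lt q' hD0
    rw [heq] at h1
    omega
  refine add_le_add ?_ ?_
  · have hf : ∀ q : ℕ, (∃ p ∈ D, q ≤ p ∧ p / (D0 + 1) = q / (D0 + 1)) →
        ∃ p ∈ D, q ≤ p ∧ p / (D0 + 1) = q / (D0 + 1) ∧ ∀ p' ∈ D, q ≤ p' → p ≤ p' := by
      rintro q ⟨p, hp, hqp, hpq⟩
      have hne : (D.filter fun p => q ≤ p).Nonempty := ⟨p, mem_filter.2 ⟨hp, hqp⟩⟩
      have hm := min'_mem _ hne
      rw [mem_filter] at hm
      refine ⟨(D.filter fun p => q ≤ p).min' hne, hm.1, hm.2, ?_, fun p' hp' hq' =>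
        min'_le _ _ (mem_filter.2 ⟨hp', hq'⟩)⟩
      have h1 : (D.filter fun p => q ≤ p).min' hne ≤ p := min'_le _ _ (mem_filter.2 ⟨hp, hqp⟩)
      have h2 := Nat.div_le_div_right (c := D0 + 1) h1
      have h3 := Nat.div_le_div_right (c := D0 + 1) hm.2
      omega
    let f : ℕ → ℕ := fun q => if hq : ∃ p ∈ D, q ≤ p ∧ p / (D0 + 1) = q / (D0 + 1) then
      Classical.choose (hf q hq) else 0
    refine card_le_card_of_injOn f ?_ ?_
    · intro q hq
      rw [mem_coe, mem_filter] at hq
      simp only [f, dif_pos hq.2]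
      exact (Classical.choose_spec (hf q hq.2)).1
    · have key : ∀ q q' : ℕ, q ∈ S → q' ∈ S →
          (hq : ∃ p ∈ D, q ≤ p ∧ p / (D0 + 1) = q / (D0 + 1)) →
          (hq' : ∃ p ∈ D, q' ≤ p ∧ p / (D0 + 1) = q' / (D0 + 1)) →
          Classical.choose (hf q hq) = Classical.choose (hf q' hq') → ¬ q < q' := by
        intro q q' hqS hq'S hq hq' he hlt
        have h1 := Classical.choose_spec (hf q hq)
        have h2 := Classical.choose_spec (hf q' hq')
        rw [← he] at h2
        have h3 : q / (D0 + 1) = q' / (D0 + 1) := by rw [← h1.2.2.1, h2.2.2.1]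
        have h4 := hblk q q' hlt h3
        have h5 := CN_gap h hlt (fun p hp hqp => h2.2.1.trans (h1.2.2.2 p hp hqp))
          ((hmem q hqS).2.trans (hmem q' hq'S).2.symm)
        omega
      intro q hq q' hq' he
      rw [mem_coe, mem_filter] at hq hq'
      simp only [f, dif_pos hq.2, dif_pos hq'.2] at he
      have h1 := key q q' hq.1 hq'.1 hq.2 hq'.2 he
      have h2 := key q' q hq'.1 hq.1 hq'.2 hq.2 he.symm
      omega
  · calc _ ≤ (range (k / (D0 + 1) + 1)).card := by
          refine card_le_card_of_injOn (fun q => q / (D0 + 1)) ?_ ?_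
          · intro q hq
            rw [mem_coe, mem_filter] at hq
            have := Nat.div_le_div_right (c := D0 + 1) (hmem q hq.1).1
            rw [mem_coe, mem_range]
            simp only
            omega
          · have key : ∀ q q' : ℕ, q ∈ S → q' ∈ S →
                (¬ ∃ p ∈ D, q ≤ p ∧ p / (D0 + 1) = q / (D0 + 1)) →
                q / (D0 + 1) = q' / (D0 + 1) → ¬ q < q' := by
              intro q q' hqS hq'S hq he hlt
              have h4 := hblk q q' hlt he
              have h5 := CN_gap h hlt (fun p hp hqp => by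
                by_contra hlt'
                push Not at hlt'
                refine hq ⟨p, hp, hqp, ?_⟩
                have h2 := Nat.div_le_div_right (c := D0 + 1) hqp
                have h3 := Nat.div_le_div_right (c := D0 + 1) hlt'.le
                omega)
                ((hmem q hqS).2.trans (hmem q' hq'S).2.symm)
              omega
            intro q hq q' hq' he
            rw [mem_coe, mem_filter] at hq hq'
            have h1 := key q q' hq.1 hq'.1 hq.2 he
            have h2 := key q' q hq'.1 hq.1 hq'.2 he.symm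
            omega
      _ = k / (D0 + 1) + 1 := card_range _
      _ ≤ k / D0 + 1 := by
          have : k / (D0 + 1) ≤ k / D0 := Nat.div_le_div_left (Nat.le_succ _)
            (lt_of_lt_of_le (by norm_num) h.D0pos)
          omega

open Classical in
theorem class_count {H : AddSubgroup G} {x : G} {D0 : ℕ} {e : Fin m → G} {D : Finset ℕ} {lam : ℕ → G}
    (h : Cf H x D0 e D lam k) (τ : Fin 4) (c : G ⧸ H) :
    ((range (k + 1)).filter fun q => 1 ≤ q ∧
      KK H x D lam (q - 1) + WW H x D lam τ q = c).card ≤ RR0 D0 D.card k := by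
  have hsub : ((range (k + 1)).filter fun q => 1 ≤ q ∧
      KK H x D lam (q - 1) + WW H x D lam τ q = c) ⊆
      ((range (k + 1)).filter fun q => KK H x D lam q = c) ∪ (D ∪ D.image (fun p => p + 1)) := by
    intro q hq
    rw [mem_filter] at hq
    obtain ⟨hqk, hq1, hqc⟩ := hq
    obtain ⟨r, rfl⟩ : ∃ r, q = r + 1 := ⟨q - 1, by omega⟩
    rw [mem_union, mem_union, mem_filter, mem_image]
    by_cases h1 : r + 1 ∈ D
    · exact Or.inr (Or.inl h1)
    by_cases h2 : r ∈ D
    · exact Or.inr (Or.inr ⟨r, h2, rfl⟩)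
    refine Or.inl ⟨hqk, ?_⟩
    have h3 : KK H x D lam (r + 1) = KK H x D lam r + (x : G ⧸ H) := by
      unfold KK
      rw [sum_range_succ]
      congr 1
      rw [clp, if_neg h2]
    have h4 : WW H x D lam τ (r + 1) = (x : G ⧸ H) := by
      unfold WW
      split_ifs
      · rw [clp, if_neg h1]
      · rw [clp, Nat.add_sub_cancel, if_neg h2]
    rw [h3, ← hqc, h4, Nat.add_sub_cancel]
  calc _ ≤ _ := card_le_card hsub
    _ ≤ _ := card_union_le _ _
    _ ≤ (D.card + (k / D0 + 1)) + (D.card + D.card) := by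
        refine add_le_add (CN_main h c) ((card_union_le _ _).trans ?_)
        exact add_le_add le_rfl card_image_le
    _ ≤ _ := by unfold RR0; omega

end Pool.Agent.SLD
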