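import Pool.Agent.Lib_helper26.SLD.Defs
import Pool.Agent.Lib_helper26.SLD.RK
import Pool.Agent.Lib_helper26.SLD.CS
import Pool.Agent.Lib_helper26.SLD.NP

/-! The block CR (project SLD). -/

namespace Pool.Agent.SLD

open Finset Equiv Function Pool.Agent.SEQ

variable {G : Type*} [AddCommGroup G] {m k : ℕ}

theorem CR_diff (r : ℕ) (q q' : ℕ → ℕ) (τ : ℕ → Fin 4)
    (h : ∀ i ≤ r + 2, i ≠ r + 1 → q i = q' i) (p : ℕ) :
    cf (r + 2) q τ p - cf (r + 2) q' τ p =
      (cu (τ (r + 1)) (q (r + 1)) p - cw (τ (r + 1)) (q (r + 1)) p) -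
        (cu (τ (r + 1)) (q' (r + 1)) p - cw (τ (r + 1)) (q' (r + 1)) p) := by
  have h0 : q 0 = q' 0 := h 0 (by omega) (by omega)
  have hn : q (r + 2) = q' (r + 2) := h (r + 2) le_rfl (by omega)
  have e1 : ∑ j ∈ range (r + 1), cu (τ j) (q j) p = ∑ j ∈ range (r + 1), cu (τ j) (q' j) p := by
    apply sum_congr rfl
    intro j hj
    rw [mem_range] at hj
    rw [h j (by omega) (by omega)]
  have e2 : ∑ j ∈ range r, cw (τ (j + 1)) (q (j + 1)) p =
      ∑ j ∈ range r, cw (τ (j + 1)) (q' (j + 1)) p := by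
    apply sum_congr rfl
    intro j hj
    rw [mem_range] at hj
    rw [h (j + 1) (by omega) (by omega)]
  unfold cf
  rw [sum_range_succ (fun j => cu (τ j) (q j) p) (r + 1),
    sum_range_succ (fun j => cu (τ j) (q' j) p) (r + 1),
    sum_range_succ (fun j => cw (τ (j + 1)) (q (j + 1)) p) (r + 1),
    sum_range_succ (fun j => cw (τ (j + 1)) (q' (j + 1)) p) (r + 1),
    sum_range_succ (fun j => cw (τ (j + 1)) (q (j + 1)) p) r,
    sum_range_succ (fun j => cw (τ (j + 1)) (q' (j + 1)) p) r, e1, e2, h0,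
    show r + 1 + 1 = r + 2 from rfl, hn]
  ring

theorem CR_det {H : AddSubgroup G} {x : G} {D0 : ℕ} {e : Fin m → G} {D : Finset ℕ} {lam : ℕ → G}
    (hc : Cf H x D0 e D lam k) (r : ℕ) (q q' : ℕ → ℕ) (τ : ℕ → Fin 4)
    (hN : NQ k (r + 2) q) (hN' : NQ k (r + 2) q')
    (hP : ¬ Pv D k (r + 2) q τ) (hP' : ¬ Pv D k (r + 2) q' τ)
    (hR : Rl D lam (r + 2) q τ) (hR' : Rl D lam (r + 2) q' τ)
    (h : ∀ i ≤ r + 2, i ≠ r + 1 → q i = q' i) : q (r + 1) = q' (r + 1) := by
  have h1 := (no_pivot hc (r + 2) q τ (by omega) hN hP).1 (r + 1) (by omega) (by omega)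
  have h2 := (no_pivot hc (r + 2) q' τ (by omega) hN' hP').1 (r + 1) (by omega) (by omega)
  have hs : ∑ p ∈ D, ((cu (τ (r + 1)) (q (r + 1)) p - cw (τ (r + 1)) (q (r + 1)) p) -
        (cu (τ (r + 1)) (q' (r + 1)) p - cw (τ (r + 1)) (q' (r + 1)) p)) • lam p = 0 := by
    have e1 : ∑ p ∈ D, (cf (r + 2) q τ p - cf (r + 2) q' τ p) • lam p = 0 := by
      simp only [sub_smul, sum_sub_distrib]
      unfold Rl at hR hR'
      rw [hR, hR', sub_zero]
    rw [← e1]
    apply sum_congr rfl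
    intro p _
    rw [CR_diff r q q' τ h p]
  rcases h1 with ⟨t1, d1⟩ | ⟨t1, d1⟩
  · rcases h2 with ⟨_, d2⟩ | ⟨t2, d2⟩
    · have e2 : ∀ (a p : ℕ), cu 2 a p - cw 2 a p = if p = a then 1 else 0 := by
        intro a p
        simp [cu, cw]
      rw [t1] at hs
      simp only [e2, sub_smul, ite_smul, one_smul, zero_smul, sum_sub_distrib, sum_ite_eq',
        d1, d2, if_true] at hs
      exact hc.laminj _ d1 _ d2 (sub_eq_zero.mp hs)
    · rw [t1] at t2
      exact absurd t2 (by decide)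
  · rcases h2 with ⟨t2, d2⟩ | ⟨_, d2⟩
    · rw [t1] at t2
      exact absurd t2 (by decide)
    · have e2 : ∀ (a p : ℕ), 1 ≤ a → cu 3 a p - cw 3 a p = if p = a - 1 then -1 else 0 := by
        intro a p ha
        have : (p + 1 = a) ↔ (p = a - 1) := by omega
        simp [cu, cw, this]
        split_ifs <;> rfl
      have g1 := (hN.1 (r + 1) (by omega)).1
      have g2 := (hN'.1 (r + 1) (by omega)).1
      rw [t1] at hs
      simp only [e2 _ _ (show 1 ≤ q (r + 1) by omega), e2 _ _ (show 1 ≤ q' (r + 1) by omega),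
        sub_smul, ite_smul, neg_smul, one_smul, zero_smul, sum_sub_distrib, sum_ite_eq',
        d1, d2, if_true] at hs
      have h3 : lam (q (r + 1) - 1) = lam (q' (r + 1) - 1) := by
        have := sub_eq_zero.mp hs
        exact neg_injective this
      have h4 := hc.laminj _ d1 _ d2 h3
      omega

open Classical in
theorem count_rel {H : AddSubgroup G} {x : G} {D0 : ℕ} {e : Fin m → G} {D : Finset ℕ} {lam : ℕ → G}
    (h : Cf H x D0 e D lam k) (n : ℕ) (hn : 3 ≤ n) (τ : ℕ → Fin 4) :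
    ((Fintype.piFinset fun _ : Fin (n + 1) => range k).filter fun Q =>
      NQ k n (xq n Q) ∧ ¬ Pv D k n (xq n Q) τ ∧ Rl D lam n (xq n Q) τ).card ≤
      19 * k * D.card ^ (n - 2) := by
  obtain ⟨r, rfl⟩ : ∃ r, n = r + 2 := ⟨n - 2, by omega⟩
  set T : Finset (ℕ × ℕ × (Fin r → ℕ)) :=
    (range k) ×ˢ ((range 19) ×ˢ (Fintype.piFinset fun _ : Fin r => D)) with hT
  have hTc : T.card = 19 * k * D.card ^ (r + 2 - 2) := by
    rw [hT, card_product, card_product, Fintype.card_piFinset, card_range, card_range, prod_const,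
      card_univ, Fintype.card_fin, Nat.add_sub_cancel]
    ring
  rw [← hTc]
  set g : (Fin (r + 2 + 1) → ℕ) → ℕ × ℕ × (Fin r → ℕ) := fun Q =>
    (xq (r + 2) Q 0, xq (r + 2) Q (r + 2) + 9 - xq (r + 2) Q 0,
      fun j => if τ (j + 1) = 2 then xq (r + 2) Q (j + 1) else xq (r + 2) Q (j + 1) - 1) with hg
  apply card_le_card_of_injOn g
  · intro Q hQ
    rw [coe_filter] at hQ
    obtain ⟨-, hN, hP, hR⟩ := hQ
    have hst := (no_pivot h (r + 2) _ τ (by omega) hN hP).1
    have h0 := hN.1 0 (by omega)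
    have hz := hN.2.2
    rw [hT, coe_product, Set.mem_prod, coe_product, Set.mem_prod]
    refine ⟨?_, ?_, ?_⟩
    · rw [mem_coe, mem_range]
      exact h0.2
    · rw [mem_coe, mem_range]
      show xq (r + 2) Q (r + 2) + 9 - xq (r + 2) Q 0 < 19
      omega
    · rw [mem_coe, Fintype.mem_piFinset]
      intro j
      show (if τ (j + 1) = 2 then xq (r + 2) Q (j + 1) else xq (r + 2) Q (j + 1) - 1) ∈ D
      have hj := j.2
      rcases hst (j + 1) (by omega) (by omega) with ⟨t1, d1⟩ | ⟨t1, d1⟩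
      · rw [if_pos t1]
        exact d1
      · rw [if_neg (by rw [t1]; decide)]
        exact d1
  · intro Q hQ Q' hQ' heq
    rw [coe_filter] at hQ hQ'
    obtain ⟨-, hN, hP, hR⟩ := hQ
    obtain ⟨-, hN', hP', hR'⟩ := hQ'
    have hz := hN.2.2
    have hz' := hN'.2.2
    have a0 : xq (r + 2) Q 0 = xq (r + 2) Q' 0 := congrArg Prod.fst heq
    have a1 : xq (r + 2) Q (r + 2) + 9 - xq (r + 2) Q 0 =
        xq (r + 2) Q' (r + 2) + 9 - xq (r + 2) Q' 0 := congrArg (fun z => z.2.1) heq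
    have a2 : ∀ j : Fin r, (if τ (j + 1) = 2 then xq (r + 2) Q (j + 1) else
        xq (r + 2) Q (j + 1) - 1) =
        (if τ (j + 1) = 2 then xq (r + 2) Q' (j + 1) else xq (r + 2) Q' (j + 1) - 1) :=
      fun j => congrFun (congrArg (fun z => z.2.2) heq) j
    have hall : ∀ i ≤ r + 2, i ≠ r + 1 → xq (r + 2) Q i = xq (r + 2) Q' i := by
      intro i hi hir
      rcases Nat.eq_zero_or_pos i with rfl | hpos
      · exact a0
      · rcases Nat.lt_or_ge i (r + 1) with hlt | hge
        · obtain ⟨j, rfl⟩ : ∃ j, i = j + 1 := ⟨i - 1, by omega⟩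
          have h3 := a2 ⟨j, by omega⟩
          have g1 := (hN.1 (j + 1) (by omega)).1
          have g2 := (hN'.1 (j + 1) (by omega)).1
          simp only at h3
          split_ifs at h3
          · exact h3
          · omega
        · have : i = r + 2 := by omega
          subst this
          omega
    have hlast := CR_det h r _ _ τ hN hN' hP hP' hR hR' hall
    funext i
    have e1 : ∀ (R : Fin (r + 2 + 1) → ℕ), xq (r + 2) R i = R i := by
      intro R
      unfold xq
      rw [dif_pos i.2]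
    rw [← e1 Q, ← e1 Q']
    by_cases hi : (i : ℕ) = r + 1
    · rw [hi]
      exact hlast
    · exact hall i (by omega) hi

end Pool.Agent.SLD
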