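import Pool.Agent.Lib_helper26.SLD.Defs

/-! Block DT (project SLD). -/

namespace Pool.Agent.SLD

open Finset Equiv Function Pool.Agent.SEQ

variable {G : Type*} [AddCommGroup G] {m k : ℕ}

/-- the exit value as a partial sum near `q` -/
theorem DT_exit (E : Fin k → G) (ρ : Perm (Fin k)) (τ : Fin 4) (q : ℕ) (h1 : 2 ≤ q) (h2 : q < k) :
    ∃ (x : ℕ) (s : Bool), q ≤ x + 1 ∧ x ≤ q + 1 ∧ (s = true → x = q) ∧
      ps E ρ (q - 1) + uu E ρ τ q = vv E ρ x s := by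
  have hq : ps E ρ q = ps E ρ (q - 1) + el E ρ (q - 1) := by
    have := ps_succ E ρ (q - 1)
    rw [show q - 1 + 1 = q by omega] at this
    exact this
  have hq1 : ps E ρ (q + 1) = ps E ρ q + el E ρ q := ps_succ E ρ q
  fin_cases τ
  · refine ⟨q, false, by omega, by omega, by simp, ?_⟩
    simp [uu, vv, hq]
  · refine ⟨q, true, by omega, by omega, by simp, ?_⟩
    simp [uu, vv, hq]
  · refine ⟨q + 1, false, by omega, by omega, by simp, ?_⟩
    simp [uu, vv, hq1, hq]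
    abel
  · refine ⟨q - 1, false, by omega, by omega, by simp, ?_⟩
    simp [uu, vv]

/-- the entry value as a partial sum at `q` -/
theorem DT_entry (E : Fin k → G) (ρ : Perm (Fin k)) (c : Bool) (q : ℕ) (h1 : 2 ≤ q) :
    ∃ s : Bool, ps E ρ (q - 1) + ww E ρ (if c then 1 else 0) q = vv E ρ q s := by
  have hq : ps E ρ q = ps E ρ (q - 1) + el E ρ (q - 1) := by
    have := ps_succ E ρ (q - 1)
    rw [show q - 1 + 1 = q by omega] at this
    exact this
  cases c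
  · refine ⟨true, ?_⟩
    simp [ww, vv, hq]
  · refine ⟨false, ?_⟩
    simp [ww, vv, hq]

theorem jump_far (E : Fin k → G) (ρ : Perm (Fin k)) (hSC : ¬ SC E ρ) (a b : ℕ × Bool)
    (h : JJ E (k - 1) ρ a b) : a.1 + 10 ≤ b.1 ∨ b.1 + 10 ≤ a.1 := by
  obtain ⟨⟨ha1, ha2, hb1, hb2⟩, h3, -, -, τ, -, heq⟩ := h
  by_contra hcon
  push Not at hcon
  obtain ⟨x, s, hx1, hx2, hxs, hx⟩ := DT_exit E ρ τ a.1 ha1 ha2
  obtain ⟨r, hr⟩ := DT_entry E ρ b.2 b.1 hb1
  rw [hx, hr] at heq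
  apply hSC
  rcases h3 with h3 | h3
  · refine ⟨x, s, b.1, r, ⟨by omega, by omega, by omega, ?_, ?_, heq⟩, by omega⟩
    · intro _; omega
    · intro _; omega
  · refine ⟨b.1, r, x, s, ⟨by omega, by omega, by omega, ?_, ?_, heq.symm⟩, by omega⟩
    · intro _; omega
    · intro hs; have := hxs hs; omega

theorem no_bad10 (E : Fin k → G) (N : ℕ) (ρ : Perm (Fin k)) (hSC : ¬ SC E ρ)
    (hNC : ∀ n, 2 ≤ n → n ≤ N → ¬ NC10 E n ρ) (hFP : ¬ FP10 E N ρ) (a c : ℕ × Bool)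
    (h : Relation.ReflTransGen (JJ E (k - 1) ρ) a c) (hne : a ≠ c) :
    a.1 + 2 < c.1 ∨ c.1 + 2 < a.1 := by
  classical
  by_contra hcon
  push Not at hcon
  obtain ⟨n, f, h0, hn, hJ⟩ := scb_seq h
  have hn1 : 1 ≤ n := by
    rcases Nat.eq_zero_or_pos n with h1 | h1
    · subst h1
      exact absurd (h0.symm.trans hn) hne
    · exact h1
  have hex : ∃ d, 1 ≤ d ∧ ∃ i, i + d ≤ n ∧ (f i).1 ≤ (f (i + d)).1 + 9 ∧
      (f (i + d)).1 ≤ (f i).1 + 9 := by
    refine ⟨n, hn1, 0, by omega, ?_, ?_⟩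
    · rw [Nat.zero_add, h0, hn]; omega
    · rw [Nat.zero_add, h0, hn]; omega
  set d := Nat.find hex with hd
  obtain ⟨hd1, i, hid, hc1, hc2⟩ := Nat.find_spec hex
  rw [← hd] at hd1 hid hc1 hc2
  have hmin : ∀ u v, u < v → v - u < d → v ≤ n →
      (f u).1 + 10 ≤ (f v).1 ∨ (f v).1 + 10 ≤ (f u).1 := by
    intro u v huv h1 h2
    by_contra hc
    push Not at hc
    refine Nat.find_min hex h1 ⟨by omega, u, by omega, ?_, ?_⟩
    · rw [show u + (v - u) = v by omega]; omega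
    · rw [show u + (v - u) = v by omega]; omega
  have hd2 : 2 ≤ d := by
    by_contra hlt
    have h1 : d = 1 := by omega
    rw [h1] at hc1 hc2 hid
    have hfar := jump_far E ρ hSC _ _ (hJ i (by omega))
    omega
  have hJ' : ∀ l < d, JJ E (k - 1) ρ (f (i + l)) (f (i + l + 1)) := fun l hl => hJ (i + l) (by omega)
  have hrange : ∀ l ≤ d, 2 ≤ (f (i + l)).1 ∧ (f (i + l)).1 < k := by
    intro l hl
    rcases Nat.lt_or_ge l d with h1 | h1
    · obtain ⟨h2, _⟩ := hJ' l h1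
      exact ⟨h2.1, h2.2.1⟩
    · have h2 : l = (d - 1) + 1 := by omega
      obtain ⟨h3, _⟩ := hJ' (d - 1) (by omega)
      rw [show i + l = i + (d - 1) + 1 by omega]
      exact ⟨h3.2.2.1, h3.2.2.2⟩
  rcases Nat.lt_or_ge N d with hN | hN
  · obtain ⟨τ, _, hτ2⟩ := scb_chain E (k - 1) ρ f i N fun l hl => hJ' l (by omega)
    refine hFP ⟨fun l => (f (i + l)).1, τ, ⟨fun l hl => hrange l (by omega),
      fun u v huv hv => ?_⟩, hτ2⟩
    exact hmin (i + u) (i + v) (by omega) (by omega) (by omega)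
  · obtain ⟨τ, _, hτ2⟩ := scb_chain E (k - 1) ρ f i d hJ'
    refine hNC d hd2 hN ⟨fun l => (f (i + l)).1, τ, ⟨hrange,
      fun u v huv hv huv0 => ?_, ⟨hc1, hc2⟩⟩, hτ2⟩
    exact hmin (i + u) (i + v) (by omega) (by omega) (by omega)

theorem main10 (E : Fin k → G) (hE0 : ∀ i, E i ≠ 0) (N : ℕ) (hk : 2 ≤ k)
    (ρ : Perm (Fin k)) (hB1 : ¬ B1 E (k - 1) ρ) (hSC : ¬ SC E ρ)
    (hNC : ∀ n, 2 ≤ n → n ≤ N → ¬ NC10 E n ρ) (hFP : ¬ FP10 E N ρ) :
    ∃ π' : Perm (Fin k), ∀ i j, i < j → j ≤ k → j ≤ i + (k - 1) →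
      ps E π' i ≠ ps E π' j := by
  have hB2 : ¬ B2 E (k - 1) ρ := by
    rintro ⟨x, s, y, r, x', s', y', r', h1, -, h3, -⟩
    exact hSC ⟨x, s, y, r, h1, by omega⟩
  have hno : ∀ x s, ¬ Relation.ReflTransGen (RR E (k - 1) ρ) (x, s) (x, !s) := by
    intro x s h
    obtain ⟨c, hc, hcb⟩ := jump_of_path E (k - 1) ρ hB1 _ _ h
    rcases hcb with hcb | ⟨_, _, h3, _, _⟩
    · have hne : ((x, s) : ℕ × Bool) ≠ c := by
        rw [← hcb]
        intro h'
        have := congrArg Prod.snd h'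
        simp at this
      have := no_bad10 E N ρ hSC hNC hFP _ _ hc hne
      rw [← hcb] at this
      simp at this
    · have hne : ((x, s) : ℕ × Bool) ≠ c := by
        intro h'
        rw [← h'] at h3
        simp at h3
      have := no_bad10 E N ρ hSC hNC hFP _ _ hc hne
      simp only at this h3
      omega
  obtain ⟨σ, hσ⟩ := two_sat (RR E (k - 1) ρ) (fun x s y r h => rr_contra E (k - 1) ρ x s y r h) hno (k + 1)
  obtain ⟨X, hX1, hX2, hX3⟩ := det E (k - 1) ρ hB1 hB2 σ hσ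
  obtain ⟨π', hπ'⟩ := swap_set E ρ X hX1 hX2
  refine ⟨π', fun i j hij hj hjt => ?_⟩
  rcases Nat.lt_or_ge (i + 1) j with h | h
  · rw [hπ' i (by omega), hπ' j hj]
    exact hX3 i j (by omega) hjt hj
  · have : j = i + 1 := by omega
    subst this
    rw [ps_succ]
    intro h'
    have h0 : el E π' i = 0 := by
      have := h'.symm
      simpa using this
    unfold el at h0
    rw [dif_pos (by omega : i < k)] at h0
    exact hE0 _ h0

end Pool.Agent.SLD
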