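import Pool.Agent.Lib_helper26.SEQ.Final

/-!
Definitions for the large order case of the Alspach-Liversidge conjecture (MP_b4ec45_co), project
SLD.  `el`, `ps`, `vv`, `Dep`, `cnt`, `win`, `Co`, `uu`, `ww`, `Chain`, `JJ`, `B1`, `B2` are those
of `Pool.Agent.SEQ`.  Positions are `0, ..., k - 1`; on the set `D` of positions the elements
`lam p` are prescribed, on the other `m` positions stand the `m` elements `e (π 0), e (π 1), ...`
in this order, where `π` is a random permutation of `Fin m`.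
-/

namespace Pool.Agent.SLD

open Finset Equiv Function Pool.Agent.SEQ

variable {G : Type*} [AddCommGroup G] {m k : ℕ}

/-- the number of positions smaller than `j` outside `D` -/
def rk (D : Finset ℕ) (j : ℕ) : ℕ := ((range j).filter fun p => p ∉ D).card

/-- the element at position `p`: prescribed on `D`, random elsewhere -/
def fl (e : Fin m → G) (D : Finset ℕ) (lam : ℕ → G) (π : Perm (Fin m)) (p : ℕ) : G :=
  if p ∈ D then lam p else el e π (rk D p)

/-- the whole ordering -/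
def sq (k : ℕ) (e : Fin m → G) (D : Finset ℕ) (lam : ℕ → G) (π : Perm (Fin m)) : Fin k → G :=
  fun i => fl e D lam π i

/-- the standing hypotheses -/
structure Cf (H : AddSubgroup G) (x : G) (D0 : ℕ) (e : Fin m → G) (D : Finset ℕ) (lam : ℕ → G)
    (k : ℕ) : Prop where
  inj : Injective e
  card : k = m + D.card
  cls : ∀ i, e i - x ∈ H
  ord : ∀ j : ℕ, 1 ≤ j → j ≤ D0 → j • x ∉ H
  lo : ∀ p ∈ D, 10 ≤ p
  hi : ∀ p ∈ D, p + 10 ≤ k
  sep : ∀ p ∈ D, ∀ p' ∈ D, p < p' → p + 100 ≤ p'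
  laminj : ∀ p ∈ D, ∀ p' ∈ D, lam p = lam p' → p = p'
  lam0 : ∀ p ∈ D, lam p ≠ 0
  D0pos : 20 ≤ D0
  kpos : 20 ≤ k

/-- the class modulo `H` of the element at position `p` -/
def clp (H : AddSubgroup G) (x : G) (D : Finset ℕ) (lam : ℕ → G) (p : ℕ) : G ⧸ H :=
  if p ∈ D then (lam p : G ⧸ H) else (x : G ⧸ H)

/-- the class modulo `H` of the `j`-th partial sum -/
def KK (H : AddSubgroup G) (x : G) (D : Finset ℕ) (lam : ℕ → G) (j : ℕ) : G ⧸ H :=
  ∑ p ∈ range j, clp H x D lam p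

/-- the class of the exit value -/
def UU (H : AddSubgroup G) (x : G) (D : Finset ℕ) (lam : ℕ → G) (τ : Fin 4) (q : ℕ) : G ⧸ H :=
  (if τ = 0 ∨ τ = 2 then clp H x D lam (q - 1) else 0) +
    (if τ = 1 ∨ τ = 2 then clp H x D lam q else 0)

/-- the class of the entry value -/
def WW (H : AddSubgroup G) (x : G) (D : Finset ℕ) (lam : ℕ → G) (τ : Fin 4) (q : ℕ) : G ⧸ H :=
  if τ = 0 then clp H x D lam q else clp H x D lam (q - 1)

/-- class compatibility of the `i`-th step of a chain -/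
def CC (H : AddSubgroup G) (x : G) (D : Finset ℕ) (lam : ℕ → G) (q : ℕ → ℕ) (τ : ℕ → Fin 4)
    (i : ℕ) : Prop :=
  KK H x D lam (q i - 1) + UU H x D lam (τ i) (q i) =
    KK H x D lam (q (i + 1) - 1) + WW H x D lam (τ (i + 1)) (q (i + 1))

/-- coefficient of the position `p` in the exit value -/
def cu (τ : Fin 4) (q p : ℕ) : ℤ :=
  (if (τ = 0 ∨ τ = 2) ∧ p + 1 = q then 1 else 0) + (if (τ = 1 ∨ τ = 2) ∧ p = q then 1 else 0)

/-- coefficient of the position `p` in the entry value -/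
def cw (τ : Fin 4) (q p : ℕ) : ℤ :=
  if τ = 0 then (if p = q then 1 else 0) else (if p + 1 = q then 1 else 0)

/-- coefficient of the position `p` in the closure equation of a near-cycle -/
def cf (n : ℕ) (q : ℕ → ℕ) (τ : ℕ → Fin 4) (p : ℕ) : ℤ :=
  ∑ j ∈ range n, cu (τ j) (q j) p - ∑ j ∈ range n, cw (τ (j + 1)) (q (j + 1)) p -
    (if q 0 - 1 ≤ p ∧ p < q n - 1 then 1 else 0) + (if q n - 1 ≤ p ∧ p < q 0 - 1 then 1 else 0)

/-- conditions on the stops of a near-cycle -/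
def NQ (k n : ℕ) (q : ℕ → ℕ) : Prop :=
  (∀ i ≤ n, 2 ≤ q i ∧ q i < k) ∧
    (∀ i j, i < j → j ≤ n → ¬ (i = 0 ∧ j = n) → q i + 10 ≤ q j ∨ q j + 10 ≤ q i) ∧
    (q 0 ≤ q n + 9 ∧ q n ≤ q 0 + 9)

/-- conditions on the stops of a far path -/
def FQ (k n : ℕ) (q : ℕ → ℕ) : Prop :=
  (∀ i ≤ n, 2 ≤ q i ∧ q i < k) ∧ ∀ i j, i < j → j ≤ n → q i + 10 ≤ q j ∨ q j + 10 ≤ q i

/-- there is a free position with coefficient `± 1` in the closure equation -/
def Pv (D : Finset ℕ) (k n : ℕ) (q : ℕ → ℕ) (τ : ℕ → Fin 4) : Prop :=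
  ∃ p < k, p ∉ D ∧ (cf n q τ p = 1 ∨ cf n q τ p = -1)

/-- the closure equation on the prescribed positions -/
def Rl (D : Finset ℕ) (lam : ℕ → G) (n : ℕ) (q : ℕ → ℕ) (τ : ℕ → Fin 4) : Prop :=
  ∑ p ∈ D, cf n q τ p • lam p = 0

/-- the (ranks of the) positions fixed by a near-cycle -/
def ZI (D : Finset ℕ) (n : ℕ) (q : ℕ → ℕ) : Finset ℕ :=
  (range n).biUnion fun i =>
    if i = 0 then Ico (rk D (min (q 0) (q n) - 1)) (rk D (max (q 0) (q n) + 1))
    else Ico (rk D (q i - 1)) (rk D (q i + 1))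

/-- a short coincidence -/
def SC (E : Fin k → G) (π : Perm (Fin k)) : Prop :=
  ∃ x s y r, Co E (k - 1) π x s y r ∧ y ≤ x + 20

/-- near-cycles with `n` jumps -/
def NC10 (E : Fin k → G) (n : ℕ) (π : Perm (Fin k)) : Prop :=
  ∃ (q : ℕ → ℕ) (τ : ℕ → Fin 4), NQ k n q ∧ Chain E π n q τ

/-- far paths with `n` jumps -/
def FP10 (E : Fin k → G) (n : ℕ) (π : Perm (Fin k)) : Prop :=
  ∃ (q : ℕ → ℕ) (τ : ℕ → Fin 4), FQ k n q ∧ Chain E π n q τ

/-- the bound for the number of positions with a given class -/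
def RR0 (D0 d k : ℕ) : ℕ := k / D0 + 3 * d + 2

/-- extension of a finite sequence of positions -/
def xq (n : ℕ) (Q : Fin (n + 1) → ℕ) (i : ℕ) : ℕ := if h : i < n + 1 then Q ⟨i, h⟩ else 0

/-- extension of a finite sequence of types -/
def xt (n : ℕ) (T : Fin (n + 1) → Fin 4) (i : ℕ) : Fin 4 :=
  if h : i < n + 1 then T ⟨i, h⟩ else 0

end Pool.Agent.SLD
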