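import Pool.Agent.Lib_helper26.SLD.Defs
import Pool.Agent.Lib_helper26.SLD.RK

/-! Block FA (project SLD): probability of a far path, with prescribed elements on `D`. -/

namespace Pool.Agent.SLD

open Finset Equiv Function Pool.Agent.SEQ

variable {G : Type*} [AddCommGroup G] {m k : ℕ}

theorem FA_dep_el (e : Fin m → G) (D : Finset ℕ) (lam : ℕ → G) (I : Finset ℕ) {p : ℕ}
    (hp : p < k) (h : p ∉ D → rk D p ∈ I) :
    Dep I (fun π => el (sq k e D lam π) 1 p) := by
  intro π π' ha
  have h1 := dep_fl e D lam I p h π π' ha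
  simp only at h1 ⊢
  rw [el_sq e D lam π hp, el_sq e D lam π' hp, h1]

theorem FA_dep_uu (e : Fin m → G) (D : Finset ℕ) (lam : ℕ → G) (I : Finset ℕ) (τ : Fin 4) {q : ℕ}
    (hq : q < k) (h1 : q - 1 ∉ D → rk D (q - 1) ∈ I) (h2 : q ∉ D → rk D q ∈ I) :
    Dep I (fun π => uu (sq k e D lam π) 1 τ q) := by
  intro π π' ha
  have a := FA_dep_el (k := k) e D lam I (p := q - 1) (by omega) h1 π π' ha
  have b := FA_dep_el (k := k) e D lam I (p := q) hq h2 π π' ha
  simp only at a b ⊢
  unfold uu
  rw [a, b]

theorem FA_dep_ww (e : Fin m → G) (D : Finset ℕ) (lam : ℕ → G) (I : Finset ℕ) (τ : Fin 4) {q : ℕ}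
    (hq : q < k) (h1 : q - 1 ∉ D → rk D (q - 1) ∈ I) (h2 : q ∉ D → rk D q ∈ I) :
    Dep I (fun π => ww (sq k e D lam π) 1 τ q) := by
  intro π π' ha
  have a := FA_dep_el (k := k) e D lam I (p := q - 1) (by omega) h1 π π' ha
  have b := FA_dep_el (k := k) e D lam I (p := q) hq h2 π π' ha
  simp only at a b ⊢
  unfold ww
  rw [a, b]

/-- the sum of the prescribed elements before the position `j` -/
def FA_lam (D : Finset ℕ) (lam : ℕ → G) (j : ℕ) : G := ∑ p ∈ D.filter (fun p => p < j), lam p

theorem far10 {H : AddSubgroup G} {x : G} {D0 : ℕ} {e : Fin m → G} {D : Finset ℕ} {lam : ℕ → G}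
    (h : Cf H x D0 e D lam k) (n : ℕ) (q : ℕ → ℕ) (τ : ℕ → Fin 4) (hq : FQ k n q) :
    cnt (fun π : Perm (Fin m) => Chain (sq k e D lam π) 1 n q τ) * (m - (2 * n + 12)) ^ n ≤
      m.factorial * 3 ^ n := by
  classical
  obtain ⟨hq1, hfar⟩ := hq
  set I : Finset ℕ := (range (n + 1)).biUnion fun i => Ico (rk D (q i - 1)) (rk D (q i + 1))
    with hIdef
  have hlr : ∀ i ≤ n, rk D (q i - 1) < rk D (q i + 1) := by
    intro i hi
    have := (hq1 i hi).1
    exact rk_sep h (by omega)
  have hmem : ∀ i ≤ n, (q i - 1 ∉ D → rk D (q i - 1) ∈ I) ∧ (q i ∉ D → rk D (q i) ∈ I) := by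
    intro i hi
    constructor
    · intro _
      rw [hIdef, Finset.mem_biUnion]
      exact ⟨i, Finset.mem_range.2 (by omega), Finset.mem_Ico.2 ⟨le_refl _, hlr i hi⟩⟩
    · intro hD
      rw [hIdef, Finset.mem_biUnion]
      refine ⟨i, Finset.mem_range.2 (by omega), Finset.mem_Ico.2 ⟨rk_mono D (by omega), ?_⟩⟩
      rw [rk_succ, if_neg hD]
      omega
  have hcard : I.card ≤ 2 * (n + 1) := by
    calc I.card ≤ ∑ i ∈ range (n + 1), (Ico (rk D (q i - 1)) (rk D (q i + 1))).card :=
          Finset.card_biUnion_le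
      _ ≤ ∑ i ∈ range (n + 1), 2 := by
          apply Finset.sum_le_sum
          intro i hi
          rw [Nat.card_Ico]
          have h2 := (hq1 i (by rw [Finset.mem_range] at hi; omega)).1
          have := rk_diff D (i := q i - 1) (j := q i + 1) (by omega)
          omega
      _ = 2 * (n + 1) := by rw [Finset.sum_const, Finset.card_range, smul_eq_mul, mul_comm]
  have key := zones_bound e h.inj (n + 1) (fun i => rk D (q i - 1)) (fun i => rk D (q i + 1))
    (fun i π => sfb_off (sq k e D lam π) q τ i 1 - FA_lam D lam (q i - 1)) (fun _ => True) I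
    (by omega) hIdef
    (by
      intro i hi
      have h2 := (hq1 i (by omega)).1
      show 1 ≤ rk D (q i - 1)
      have h0 : (0 : ℕ) ∉ D := by
        intro hD
        have := h.lo 0 hD
        omega
      have h1 : rk D 1 = 1 := by
        rw [show (1 : ℕ) = 0 + 1 from rfl, rk_succ, if_neg h0, rk_zero]
      rw [← h1]
      exact rk_mono D (by omega))
    (by
      intro i hi
      exact hlr i (by omega))
    (by
      intro i hi j hj hij
      show rk D (q i + 1) < rk D (q j - 1) ∨ rk D (q j + 1) < rk D (q i - 1)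
      rcases Nat.lt_or_gt_of_ne hij with h' | h'
      · rcases hfar i j h' (by omega) with h'' | h''
        · left; exact rk_sep h (by omega)
        · right; exact rk_sep h (by omega)
      · rcases hfar j i h' (by omega) with h'' | h''
        · right; exact rk_sep h (by omega)
        · left; exact rk_sep h (by omega))
    (by
      intro i hi
      have h2 := (hq1 i (by omega)).2
      show rk D (q i + 1) ≤ m
      rw [← rk_k h]
      exact rk_mono D (by omega))
    (dep_const I True)
    (by
      intro i hi π π' ha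
      show sfb_off (sq k e D lam π) q τ i 1 - FA_lam D lam (q i - 1) =
        sfb_off (sq k e D lam π') q τ i 1 - FA_lam D lam (q i - 1)
      congr 1
      unfold sfb_off
      apply Finset.sum_congr rfl
      intro j hj
      rw [Finset.mem_range] at hj
      have h1 := FA_dep_uu (k := k) e D lam I (τ j) (hq1 j (by omega)).2 (hmem j (by omega)).1
        (hmem j (by omega)).2 π π' ha
      have h2 := FA_dep_ww (k := k) e D lam I (τ (j + 1)) (hq1 (j + 1) (by omega)).2
        (hmem (j + 1) (by omega)).1 (hmem (j + 1) (by omega)).2 π π' ha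
      simp only at h1 h2
      rw [h1, h2])
  rw [Nat.add_sub_cancel, cnt_true] at key
  refine le_trans (Nat.mul_le_mul ?_ ?_) key
  · apply cnt_mono
    intro π hπ
    refine ⟨trivial, ?_⟩
    intro i hi j hj
    have h1 := sfb_chain (sq k e D lam π) 1 n q τ hπ i (by omega)
    have h2 := sfb_chain (sq k e D lam π) 1 n q τ hπ j (by omega)
    have hi2 := (hq1 i (by omega)).2
    have hj2 := (hq1 j (by omega)).2
    have p1 := ps_sq (k := k) e D lam π (j := q i - 1) (by omega)
    have p2 := ps_sq (k := k) e D lam π (j := q j - 1) (by omega)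
    show ps e π (rk D (q i - 1)) - ps e π (rk D (q j - 1)) =
      (sfb_off (sq k e D lam π) q τ i 1 - FA_lam D lam (q i - 1)) -
        (sfb_off (sq k e D lam π) q τ j 1 - FA_lam D lam (q j - 1))
    rw [p1] at h1
    rw [p2] at h2
    unfold FA_lam
    rw [eq_sub_of_add_eq h1, eq_sub_of_add_eq h2]
    abel
  · apply Nat.pow_le_pow_left
    omega

end Pool.Agent.SLD
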