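import Pool.Agent.Lib_helper26.SLD.Defs
import Pool.Agent.Lib_helper26.SLD.RK

/-! Block WB (project SLD). -/

namespace Pool.Agent.SLD

open Finset Equiv Function Pool.Agent.SEQ

variable {G : Type*} [AddCommGroup G] {m k : ℕ}

/-- an event which fixes the sum over a nonempty proper set of positions -/
theorem WB_half {e : Fin m → G} (he : Injective e) (E : Perm (Fin m) → Prop) (Q : Finset ℕ)
    (hQ : Q ⊆ range m) (hne : Q.Nonempty) (hne' : (range m \ Q).Nonempty) (c : G)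
    (hE : ∀ π, E π → ∑ q ∈ Q, el e π q = c) : cnt E * m ≤ 2 * m.factorial := by
  have key : ∀ (R : Finset ℕ) (d : G), R ⊆ range m → R.Nonempty →
      (∀ π, E π → ∑ q ∈ R, el e π q = d) → cnt E * (m - R.card) ≤ m.factorial := by
    intro R d hR hRn hd
    obtain ⟨p, hp⟩ := hRn
    have h := pivot_sum e he (fun _ => True) ∅ R p (fun _ => d) (dep_const ∅ True)
      (dep_const ∅ d) (Finset.empty_subset _) hR hp (Finset.notMem_empty _)
    rw [cnt_true, Finset.empty_union] at h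
    refine le_trans ?_ h
    apply Nat.mul_le_mul_right
    exact cnt_mono fun π hπ => ⟨trivial, hd π hπ⟩
  have h1 := key Q c hQ hne hE
  have h2 := key (range m \ Q) (∑ i, e i - c) Finset.sdiff_subset hne' (fun π hπ => by
    have h3 : ∑ q ∈ range m \ Q, el e π q + ∑ q ∈ Q, el e π q = ∑ q ∈ range m, el e π q :=
      Finset.sum_sdiff hQ
    have h4 := ps_total e π
    unfold ps at h4
    rw [hE π hπ, h4] at h3
    exact eq_sub_of_add_eq h3)
  rw [Finset.card_sdiff_of_subset hQ, Finset.card_range] at h2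
  have h5 := Finset.card_le_card hQ
  rw [Finset.card_range] at h5
  obtain ⟨a, ha⟩ : ∃ a, a = Q.card := ⟨_, rfl⟩
  rw [← ha] at h1 h2 h5
  have h6 : m = (m - a) + (m - (m - a)) := by omega
  calc cnt E * m = cnt E * ((m - a) + (m - (m - a))) := by rw [← h6]
    _ = cnt E * (m - a) + cnt E * (m - (m - a)) := by ring
    _ ≤ 2 * m.factorial := by omega

theorem WB_false {E : Perm (Fin m) → Prop} (h : ∀ π, ¬ E π) : cnt E = 0 := by
  classical
  unfold cnt
  rw [Finset.card_eq_zero, Finset.filter_eq_empty_iff]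
  intro π _
  exact h π

theorem win_half10 {H : AddSubgroup G} {x : G} {D0 : ℕ} {e : Fin m → G} {D : Finset ℕ} {lam : ℕ → G}
    (h : Cf H x D0 e D lam k) (a : ℕ) (s : Bool) (b : ℕ) (r : Bool) :
    cnt (fun π : Perm (Fin m) => Co (sq k e D lam π) (k - 1) 1 a s b r) * m ≤
      2 * m.factorial := by
  by_cases hsh : a + 2 ≤ b ∧ b ≤ a + (k - 1) ∧ b ≤ k ∧ (s = true → 1 ≤ a) ∧ (r = true → b < k)
  swap
  · rw [WB_false (fun π hπ => hsh ⟨hπ.1, hπ.2.1, hπ.2.2.1, hπ.2.2.2.1, hπ.2.2.2.2.1⟩), zero_mul]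
    exact Nat.zero_le _
  obtain ⟨h1, h2, h3, h4, h5⟩ := hsh
  have hsub := win_subset k a s b r h1 h3 h5
  have hk := h.kpos
  have hmemD : ∀ p ∈ D, 10 ≤ p ∧ p + 10 ≤ k := fun p hp => ⟨h.lo p hp, h.hi p hp⟩
  obtain ⟨W, hW⟩ : ∃ W, W = win a s b r := ⟨_, rfl⟩
  have hmem : ∀ p, p ∈ W ↔ (p = (if s then a - 1 else a) ∨ p = (if r then b else b - 1) ∨
      (a + 1 ≤ p ∧ p < b - 1)) := by
    intro p
    rw [hW, win, Finset.mem_insert, Finset.mem_insert, Finset.mem_Ico]
  rw [← hW] at hsub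
  -- a free position in the window
  obtain ⟨p1, hp1, hp1D⟩ : ∃ p ∈ W, p ∉ D := by
    obtain ⟨u, hu⟩ : ∃ u, u = (if s then a - 1 else a) := ⟨_, rfl⟩
    obtain ⟨v, hv⟩ : ∃ v, v = (if a + 1 < b - 1 then a + 1 else if r then b else b - 1) :=
      ⟨_, rfl⟩
    have huW : u ∈ W := (hmem u).2 (Or.inl hu)
    have hvW : v ∈ W := by
      rw [hmem, hv]
      split_ifs <;> omega
    have huv : u < v ∧ v < u + 100 := by
      rw [hu, hv]
      split_ifs <;> omega
    by_cases huD : u ∈ D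
    · refine ⟨v, hvW, fun hvD => ?_⟩
      have := h.sep u huD v hvD huv.1
      omega
    · exact ⟨u, huW, huD⟩
  -- a free position outside
  obtain ⟨p2, hp2k, hp2, hp2D⟩ : ∃ p < k, p ∉ W ∧ p ∉ D := by
    have hD' : ∀ p, p < 10 ∨ k < p + 10 → p ∉ D := by
      intro p hp hpD
      have := hmemD p hpD
      omega
    have hW' : ∀ p, (p ≠ (if s then a - 1 else a) ∧ p ≠ (if r then b else b - 1) ∧
      ¬ (a + 1 ≤ p ∧ p < b - 1)) → p ∉ W := by
      intro p hp hpW
      rw [hmem] at hpW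
      tauto
    have h4' : s = true → 1 ≤ a := h4
    have h5' : r = true → b < k := h5
    rcases Nat.eq_zero_or_pos a with ha | ha
    · -- a = 0
      have hs : s = false := by
        cases s
        · rfl
        · have := h4 rfl
          omega
      cases r
      · exact ⟨k - 1, by omega, hW' _ (by rw [hs]; simp; omega), hD' _ (by omega)⟩
      · have := h5 rfl
        by_cases hb : b = k - 1
        · exact ⟨k - 2, by omega, hW' _ (by rw [hs]; simp; omega), hD' _ (by omega)⟩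
        · exact ⟨k - 1, by omega, hW' _ (by rw [hs]; simp; omega), hD' _ (by omega)⟩
    · by_cases ha1 : a = 1 ∧ s = true
      · exact ⟨1, by omega, hW' _ (by rw [ha1.2, ha1.1]; cases r <;> simp <;> omega),
          hD' _ (by omega)⟩
      · refine ⟨0, by omega, hW' _ ?_, hD' _ (by omega)⟩
        cases s
        · cases r <;> simp <;> omega
        · have : a ≠ 1 := fun hh => ha1 ⟨hh, rfl⟩
          cases r <;> simp <;> omega
  obtain ⟨F, hF⟩ : ∃ F, F = W.filter (fun p => p ∉ D) := ⟨_, rfl⟩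
  have hFm : ∀ p, p ∈ F ↔ p ∈ W ∧ p ∉ D := by
    intro p
    rw [hF, Finset.mem_filter]
  have hinj : ∀ p ∈ F, ∀ p' ∈ F, rk D p = rk D p' → p = p' := fun p hp p' hp' hh =>
    rk_inj D ((hFm p).1 hp).2 ((hFm p').1 hp').2 hh
  refine WB_half h.inj _ (F.image (rk D)) ?_ ?_ ?_ (-∑ p ∈ W.filter (fun p => p ∈ D), lam p) ?_
  · intro q hq
    obtain ⟨p, hp, rfl⟩ := Finset.mem_image.1 hq
    rw [Finset.mem_range]
    exact rk_lt h (Finset.mem_range.1 (hsub ((hFm p).1 hp).1)) ((hFm p).1 hp).2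
  · exact ⟨rk D p1, Finset.mem_image.2 ⟨p1, (hFm p1).2 ⟨hp1, hp1D⟩, rfl⟩⟩
  · refine ⟨rk D p2, Finset.mem_sdiff.2 ⟨Finset.mem_range.2 (rk_lt h hp2k hp2D), fun hc => ?_⟩⟩
    obtain ⟨p, hp, hpp⟩ := Finset.mem_image.1 hc
    have := rk_inj D ((hFm p).1 hp).2 hp2D hpp
    rw [this] at hp
    exact hp2 ((hFm p2).1 hp).1
  · intro π hπ
    have h6 : ∑ p ∈ W, el (sq k e D lam π) 1 p = 0 := by
      rw [hW, ← win_sum _ _ a s b r h1 h4, hπ.2.2.2.2.2, sub_self]
    have h7 : ∑ p ∈ W, el (sq k e D lam π) 1 p = ∑ p ∈ W, fl e D lam π p :=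
      Finset.sum_congr rfl fun p hp => el_sq e D lam π (Finset.mem_range.1 (hsub hp))
    rw [h7, ← Finset.sum_filter_add_sum_filter_not W (fun p => p ∈ D)] at h6
    have h8 : ∑ p ∈ W.filter (fun p => p ∈ D), fl e D lam π p =
        ∑ p ∈ W.filter (fun p => p ∈ D), lam p :=
      Finset.sum_congr rfl fun p hp => by
        rw [fl, if_pos (Finset.mem_filter.1 hp).2]
    have h9 : ∑ p ∈ W.filter (fun p => p ∉ D), fl e D lam π p =
        ∑ q ∈ F.image (rk D), el e π q := by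
      rw [Finset.sum_image hinj, hF]
      refine Finset.sum_congr rfl fun p hp => ?_
      rw [fl, if_neg (Finset.mem_filter.1 hp).2]
    rw [h8, h9] at h6
    exact eq_neg_of_add_eq_zero_right h6

end Pool.Agent.SLD
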