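import Pool.Agent.Lib_helper26.SLD.Defs
import Pool.Agent.Lib_helper26.SLD.RK
import Pool.Agent.Lib_helper26.SLD.CL
import Pool.Agent.Lib_helper26.SLD.CN
import Pool.Agent.Lib_helper26.SLD.WB

/-! Block U1 (project SLD). -/

namespace Pool.Agent.SLD

open Finset Equiv Function Pool.Agent.SEQ

variable {G : Type*} [AddCommGroup G] {m k : ℕ}

/-- union bound over a set of windows -/
theorem U1_union {H : AddSubgroup G} {x : G} {D0 : ℕ} {e : Fin m → G} {D : Finset ℕ}
    {lam : ℕ → G} (h : Cf H x D0 e D lam k) {ι : Type*} (J : Finset ι) (a : ι → ℕ) (s : ι → Bool)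
    (b : ι → ℕ) (r : ι → Bool) (E : Perm (Fin m) → Prop)
    (hE : ∀ π, E π → ∃ i ∈ J, Co (sq k e D lam π) (k - 1) 1 (a i) (s i) (b i) (r i)) :
    cnt E * m ≤ m.factorial * (2 * J.card) := by
  have h1 : cnt E ≤ ∑ i ∈ J, cnt (fun π : Perm (Fin m) =>
      Co (sq k e D lam π) (k - 1) 1 (a i) (s i) (b i) (r i)) :=
    (cnt_mono hE).trans (cnt_exists_le J _)
  calc cnt E * m ≤ (∑ i ∈ J, cnt (fun π : Perm (Fin m) =>
        Co (sq k e D lam π) (k - 1) 1 (a i) (s i) (b i) (r i))) * m := Nat.mul_le_mul_right _ h1
    _ = ∑ i ∈ J, cnt (fun π : Perm (Fin m) =>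
        Co (sq k e D lam π) (k - 1) 1 (a i) (s i) (b i) (r i)) * m := Finset.sum_mul _ _ _
    _ ≤ ∑ _i ∈ J, 2 * m.factorial := Finset.sum_le_sum fun i _ => win_half10 h _ _ _ _
    _ = m.factorial * (2 * J.card) := by
        rw [Finset.sum_const, smul_eq_mul]
        ring

open Classical in
theorem ub_b1 {H : AddSubgroup G} {x : G} {D0 : ℕ} {e : Fin m → G} {D : Finset ℕ} {lam : ℕ → G}
    (h : Cf H x D0 e D lam k) :
    cnt (fun π : Perm (Fin m) => B1 (sq k e D lam π) (k - 1) 1) * m ≤
      m.factorial * (20 * RR0 D0 D.card k) := by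
  obtain ⟨S, hS⟩ : ∃ S : Bool → G ⧸ H → Finset ℕ, S = fun r c => (range (k + 1)).filter fun q =>
    1 ≤ q ∧ KK H x D lam (q - 1) + WW H x D lam (if r then 0 else 1) q = c := ⟨_, rfl⟩
  obtain ⟨R, hR⟩ : ∃ R, R = RR0 D0 D.card k := ⟨_, rfl⟩
  have hSR : ∀ r c, (S r c).card ≤ R := by
    intro r c
    rw [hS, hR]
    exact class_count h _ c
  have hSm : ∀ r c q, 1 ≤ q → q ≤ k →
      KK H x D lam (q - 1) + WW H x D lam (if r then 0 else 1) q = c → q ∈ S r c := by
    intro r c q h1 h2 h3
    rw [hS, Finset.mem_filter, Finset.mem_range]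
    exact ⟨by omega, h1, h3⟩
  have hk := h.kpos
  obtain ⟨J, hJ⟩ : ∃ J : Finset (ℕ × Bool × ℕ × Bool), J =
    ((univ : Finset Bool).biUnion fun r => (S r 0).image fun y => (0, false, y, r)) ∪
    (((univ : Finset (Bool × Bool)).biUnion fun p =>
      (S p.2 (KK H x D lam (1 - 1) + WW H x D lam (if p.1 then 0 else 1) 1)).image
        fun y => (1, p.1, y, p.2)) ∪
    ((univ : Finset Bool).biUnion fun s =>
      (S s (KK H x D lam (k - 1) + WW H x D lam (if false then 0 else 1) k)).image
        fun a => (a, s, k, false))) := ⟨_, rfl⟩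
  have hJc : J.card ≤ 8 * R := by
    rw [hJ]
    have e1 : ((univ : Finset Bool).biUnion fun r => (S r 0).image fun y =>
        ((0, false, y, r) : ℕ × Bool × ℕ × Bool)).card ≤ 2 * R := by
      refine Finset.card_biUnion_le.trans ?_
      calc _ ≤ ∑ _r : Bool, R := Finset.sum_le_sum fun r _ => Finset.card_image_le.trans (hSR _ _)
        _ = 2 * R := by rw [Finset.sum_const, Finset.card_univ, Fintype.card_bool, smul_eq_mul]
    have e2 : ((univ : Finset (Bool × Bool)).biUnion fun p =>
        (S p.2 (KK H x D lam (1 - 1) + WW H x D lam (if p.1 then 0 else 1) 1)).image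
        fun y => ((1, p.1, y, p.2) : ℕ × Bool × ℕ × Bool)).card ≤ 4 * R := by
      refine Finset.card_biUnion_le.trans ?_
      calc _ ≤ ∑ _r : Bool × Bool, R :=
            Finset.sum_le_sum fun r _ => Finset.card_image_le.trans (hSR _ _)
        _ = 4 * R := by
            rw [Finset.sum_const, Finset.card_univ, Fintype.card_prod, Fintype.card_bool,
              smul_eq_mul]
    have e3 : ((univ : Finset Bool).biUnion fun s =>
        (S s (KK H x D lam (k - 1) + WW H x D lam (if false then 0 else 1) k)).image
        fun a => ((a, s, k, false) : ℕ × Bool × ℕ × Bool)).card ≤ 2 * R := by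
      refine Finset.card_biUnion_le.trans ?_
      calc _ ≤ ∑ _r : Bool, R := Finset.sum_le_sum fun r _ => Finset.card_image_le.trans (hSR _ _)
        _ = 2 * R := by rw [Finset.sum_const, Finset.card_univ, Fintype.card_bool, smul_eq_mul]
    have e4 := Finset.card_union_le
      ((univ : Finset Bool).biUnion fun r => (S r 0).image fun y =>
        ((0, false, y, r) : ℕ × Bool × ℕ × Bool))
      (((univ : Finset (Bool × Bool)).biUnion fun p =>
        (S p.2 (KK H x D lam (1 - 1) + WW H x D lam (if p.1 then 0 else 1) 1)).image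
        fun y => ((1, p.1, y, p.2) : ℕ × Bool × ℕ × Bool)) ∪
      ((univ : Finset Bool).biUnion fun s =>
        (S s (KK H x D lam (k - 1) + WW H x D lam (if false then 0 else 1) k)).image
        fun a => ((a, s, k, false) : ℕ × Bool × ℕ × Bool)))
    have e5 := Finset.card_union_le
      ((univ : Finset (Bool × Bool)).biUnion fun p =>
        (S p.2 (KK H x D lam (1 - 1) + WW H x D lam (if p.1 then 0 else 1) 1)).image
        fun y => ((1, p.1, y, p.2) : ℕ × Bool × ℕ × Bool))
      ((univ : Finset Bool).biUnion fun s =>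
        (S s (KK H x D lam (k - 1) + WW H x D lam (if false then 0 else 1) k)).image
        fun a => ((a, s, k, false) : ℕ × Bool × ℕ × Bool))
    omega
  have hcnt := U1_union h J (fun w => w.1) (fun w => w.2.1) (fun w => w.2.2.1)
    (fun w => w.2.2.2) (fun π => B1 (sq k e D lam π) (k - 1) 1) (by
      rintro π ⟨a, s, b, r, hco, hab⟩
      have hco' := hco
      obtain ⟨h1, h2, h3, h4, h5, h6⟩ := hco
      have hb := cls_vv h π (j := b) (s := r) (by omega) h3 h5
      rcases hab with ha | rfl
      · rcases Nat.eq_zero_or_pos a with rfl | ha0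
        · -- a = 0
          have hs : s = false := by
            cases s
            · rfl
            · have := h4 rfl
              omega
          subst hs
          refine ⟨(0, false, b, r), ?_, hco'⟩
          rw [hJ]
          refine Finset.mem_union_left _ (Finset.mem_biUnion.2 ⟨r, Finset.mem_univ _,
            Finset.mem_image.2 ⟨b, hSm r 0 b (by omega) h3 ?_, rfl⟩⟩)
          rw [← hb, ← h6]
          simp [vv, ps]
        · -- a = 1
          have ha1 : a = 1 := by omega
          subst ha1
          have hacls := cls_vv h π (j := 1) (s := s) le_rfl (by omega) (fun _ => by omega)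
          refine ⟨(1, s, b, r), ?_, hco'⟩
          rw [hJ]
          refine Finset.mem_union_right _ (Finset.mem_union_left _ (Finset.mem_biUnion.2
            ⟨(s, r), Finset.mem_univ _, Finset.mem_image.2 ⟨b, hSm r _ b (by omega) h3 ?_,
              rfl⟩⟩))
          rw [← hb, ← h6, hacls]
      · -- b = k
        have hr : r = false := by
          cases r
          · rfl
          · have := h5 rfl
            omega
        subst hr
        rcases Nat.eq_zero_or_pos a with rfl | ha0
        · have hs : s = false := by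
            cases s
            · rfl
            · have := h4 rfl
              omega
          subst hs
          exfalso
          omega
        · have hacls := cls_vv h π (j := a) (s := s) ha0 (by omega) (fun _ => by omega)
          refine ⟨(a, s, b, false), ?_, hco'⟩
          rw [hJ]
          refine Finset.mem_union_right _ (Finset.mem_union_right _ (Finset.mem_biUnion.2
            ⟨s, Finset.mem_univ _, Finset.mem_image.2 ⟨a, hSm s _ a ha0 (by omega) ?_,
              rfl⟩⟩))
          rw [← hacls, h6, hb])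
  refine hcnt.trans (Nat.mul_le_mul_left _ ?_)
  rw [← hR]
  omega

theorem ub_sc {H : AddSubgroup G} {x : G} {D0 : ℕ} {e : Fin m → G} {D : Finset ℕ} {lam : ℕ → G}
    (h : Cf H x D0 e D lam k) :
    cnt (fun π : Perm (Fin m) => SC (sq k e D lam π) 1) * m ≤
      m.factorial * (3400 * D.card) := by
  have hcnt := U1_union h (D ×ˢ range 22 ×ˢ range 19 ×ˢ (univ : Finset (Bool × Bool)))
    (fun w => w.1 + 1 - w.2.1) (fun w => w.2.2.2.1) (fun w => w.1 + 1 - w.2.1 + 2 + w.2.2.1)
    (fun w => w.2.2.2.2) (fun π => SC (sq k e D lam π) 1) (by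
      rintro π ⟨a, s, b, r, hco, hab⟩
      obtain ⟨p, hp, hp1, hp2⟩ := short_cls h π a s b r hco hab
      have h1 := hco.1
      refine ⟨(p, p + 1 - a, b - a - 2, s, r), ?_, ?_⟩
      · simp only [Finset.mem_product, Finset.mem_range, Finset.mem_univ, and_true]
        refine ⟨hp, ?_, ?_⟩ <;> omega
      · have e1 : p + 1 - (p + 1 - a) = a := by omega
        have e2 : p + 1 - (p + 1 - a) + 2 + (b - a - 2) = b := by omega
        simp only [e2]
        simp only [e1]
        exact hco)
  refine hcnt.trans (Nat.mul_le_mul_left _ ?_)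
  rw [Finset.card_product, Finset.card_product, Finset.card_product, Finset.card_range,
    Finset.card_range, Finset.card_univ, Fintype.card_prod, Fintype.card_bool]
  omega

end Pool.Agent.SLD
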