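import Pool.Agent.Lib_helper26.SLD.Defs

/-! Block SN (project SLD): counting sequences of stops. -/

namespace Pool.Agent.SLD

open Finset Equiv Function Pool.Agent.SEQ

variable {G : Type*} [AddCommGroup G] {m k : ℕ}

/-- one more coordinate -/
theorem SN_ext {n R : ℕ} (S : Finset (Fin (n + 1) → ℕ)) (S' : Finset (Fin n → ℕ))
    (F : (Fin n → ℕ) → Finset ℕ) (hF : ∀ q, (F q).card ≤ R)
    (h : ∀ Q ∈ S, (fun i : Fin n => Q i.castSucc) ∈ S' ∧
      Q (Fin.last n) ∈ F (fun i : Fin n => Q i.castSucc)) : S.card ≤ S'.card * R := by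
  classical
  rw [mul_comm]
  refine Finset.card_le_mul_card_image_of_maps_to (f := fun Q : Fin (n + 1) → ℕ =>
    (fun i : Fin n => Q i.castSucc)) (fun Q hQ => (h Q hQ).1) R fun q _ => ?_
  refine le_trans (Finset.card_le_card_of_injOn (fun Q : Fin (n + 1) → ℕ => Q (Fin.last n))
    (t := F q) ?_ ?_) (hF q)
  · intro Q hQ
    obtain ⟨h1, h2⟩ := Finset.mem_filter.1 (Finset.mem_coe.1 hQ)
    have h3 := (h Q h1).2
    rw [h2] at h3
    exact h3
  · intro Q hQ Q' hQ' he
    obtain ⟨_, h2⟩ := Finset.mem_filter.1 (Finset.mem_coe.1 hQ)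
    obtain ⟨_, h2'⟩ := Finset.mem_filter.1 (Finset.mem_coe.1 hQ')
    funext i
    refine Fin.lastCases ?_ (fun j => ?_) i
    · exact he
    · exact (congrFun h2 j).trans (congrFun h2' j).symm

open Classical in
theorem seq_far (k n R : ℕ) (P : ℕ → ℕ → ℕ → Prop)
    (hP : ∀ i a, ((range k).filter fun b => P i a b).card ≤ R) :
    ((Fintype.piFinset fun _ : Fin (n + 1) => range k).filter fun Q =>
      ∀ i : Fin n, P i (Q i.castSucc) (Q i.succ)).card ≤ k * R ^ n := by
  induction n with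
  | zero =>
    refine (Finset.card_filter_le _ _).trans ?_
    rw [Fintype.card_piFinset]
    simp
  | succ n ih =>
    refine (SN_ext (R := R) _ _ (fun q => (range k).filter fun b => P n (q (Fin.last n)) b)
      (fun q => hP _ _) ?_).trans ((Nat.mul_le_mul_right R ih).trans (le_of_eq ?_))
    · intro Q hQ
      obtain ⟨h1, h2⟩ := Finset.mem_filter.1 hQ
      rw [Fintype.mem_piFinset] at h1
      refine ⟨Finset.mem_filter.2 ⟨Fintype.mem_piFinset.2 fun i => h1 _, fun i => ?_⟩,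
        Finset.mem_filter.2 ⟨h1 _, ?_⟩⟩
      · have := h2 i.castSucc
        rw [Fin.succ_castSucc] at this
        exact this
      · have := h2 (Fin.last n)
        rw [Fin.succ_last] at this
        exact this
    · rw [pow_succ, mul_assoc]

open Classical in
theorem seq_near (k n R : ℕ) (hn : 1 ≤ n) (P : ℕ → ℕ → ℕ → Prop)
    (hP : ∀ i a, ((range k).filter fun b => P i a b).card ≤ R) :
    ((Fintype.piFinset fun _ : Fin (n + 1) => range k).filter fun Q =>
      (∀ i : Fin n, (i : ℕ) + 1 < n → P i (Q i.castSucc) (Q i.succ)) ∧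
        Q 0 ≤ Q (Fin.last n) + 9 ∧ Q (Fin.last n) ≤ Q 0 + 9).card ≤
      19 * k * R ^ (n - 1) := by
  obtain ⟨n, rfl⟩ : ∃ n', n = n' + 1 := ⟨n - 1, by omega⟩
  refine (SN_ext (R := 19) _ _ (fun q : Fin (n + 1) → ℕ => Finset.Icc (q 0 - 9) (q 0 + 9))
    (fun q => ?_) ?_).trans ((Nat.mul_le_mul_right 19 (seq_far k n R P hP)).trans (le_of_eq ?_))
  · rw [Nat.card_Icc]
    omega
  · intro Q hQ
    obtain ⟨h1, h2, h3, h4⟩ := Finset.mem_filter.1 hQ
    rw [Fintype.mem_piFinset] at h1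
    refine ⟨Finset.mem_filter.2 ⟨Fintype.mem_piFinset.2 fun i => h1 _, fun i => ?_⟩,
      Finset.mem_Icc.2 ⟨?_, ?_⟩⟩
    · have := h2 i.castSucc (by rw [Fin.val_castSucc]; omega)
      rw [Fin.succ_castSucc] at this
      exact this
    · show Q (Fin.castSucc 0) - 9 ≤ _
      rw [Fin.castSucc_zero]
      omega
    · show _ ≤ Q (Fin.castSucc 0) + 9
      rw [Fin.castSucc_zero]
      omega
  · rw [Nat.add_sub_cancel]
    ring

end Pool.Agent.SLD
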