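import Pool.Agent.Lib_helper26.SLD.Defs
import Pool.Agent.Lib_helper26.SLD.CL
import Pool.Agent.Lib_helper26.SLD.CN
import Pool.Agent.Lib_helper26.SLD.SN
import Pool.Agent.Lib_helper26.SLD.FA

/-! Block UF (project SLD). -/

namespace Pool.Agent.SLD

open Finset Equiv Function Pool.Agent.SEQ

variable {G : Type*} [AddCommGroup G] {m k : ℕ}

theorem ub_fp {H : AddSubgroup G} {x : G} {D0 : ℕ} {e : Fin m → G} {D : Finset ℕ} {lam : ℕ → G}
    (h : Cf H x D0 e D lam k) (n : ℕ) :
    cnt (fun π : Perm (Fin m) => FP10 (sq k e D lam π) n 1) * (m - (2 * n + 12)) ^ n ≤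
      m.factorial * (3 ^ n * (k * RR0 D0 D.card k ^ n) * 4 ^ (n + 1)) := by
  classical
  obtain ⟨P, hPd⟩ : ∃ P : (Fin (n + 1) → Fin 4) → ℕ → ℕ → ℕ → Prop, P = fun T i a b =>
    1 ≤ b ∧ KK H x D lam (b - 1) + WW H x D lam (xt n T (i + 1)) b =
      KK H x D lam (a - 1) + UU H x D lam (xt n T i) a := ⟨_, rfl⟩
  have hPcard : ∀ T i a, ((range k).filter fun b => P T i a b).card ≤ RR0 D0 D.card k := by
    intro T i a
    refine le_trans (card_le_card ?_) (class_count h (xt n T (i + 1))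
      (KK H x D lam (a - 1) + UU H x D lam (xt n T i) a))
    intro b hb
    rw [mem_filter, mem_range] at hb
    rw [mem_filter, mem_range]
    rw [hPd] at hb
    exact ⟨by omega, hb.2⟩
  set J : Finset (Σ _ : Fin (n + 1) → Fin 4, (Fin (n + 1) → ℕ)) :=
    (univ : Finset (Fin (n + 1) → Fin 4)).sigma fun T =>
      (Fintype.piFinset fun _ : Fin (n + 1) => range k).filter fun Q =>
        ∀ i : Fin n, P T i (Q i.castSucc) (Q i.succ) with hJ
  set E : (Σ _ : Fin (n + 1) → Fin 4, (Fin (n + 1) → ℕ)) → Perm (Fin m) → Prop := fun a π =>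
    FQ k n (xq n a.2) ∧ Chain (sq k e D lam π) 1 n (xq n a.2) (xt n a.1) with hE
  have hcard : J.card ≤ 4 ^ (n + 1) * (k * RR0 D0 D.card k ^ n) := by
    rw [hJ, card_sigma]
    refine (Finset.sum_le_sum fun T _ => seq_far k n (RR0 D0 D.card k) (P T) (hPcard T)).trans ?_
    rw [sum_const, smul_eq_mul]
    have h1 : (univ : Finset (Fin (n + 1) → Fin 4)).card = 4 ^ (n + 1) := by simp
    rw [h1]
  have hone : ∀ a ∈ J, cnt (E a) * (m - (2 * n + 12)) ^ n ≤ m.factorial * 3 ^ n := by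
    intro a _
    by_cases hf : FQ k n (xq n a.2)
    · have h1 : cnt (E a) ≤ cnt (fun π : Perm (Fin m) =>
          Chain (sq k e D lam π) 1 n (xq n a.2) (xt n a.1)) := cnt_mono fun π h => h.2
      exact (Nat.mul_le_mul_right _ h1).trans (far10 h n _ _ hf)
    · have h1 : cnt (E a) = 0 := suf_cnt_zero fun π h => hf h.1
      rw [h1, zero_mul]
      exact Nat.zero_le _
  have hsub : cnt (fun π : Perm (Fin m) => FP10 (sq k e D lam π) n 1) ≤
      cnt (fun π => ∃ a ∈ J, E a π) := by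
    refine cnt_mono fun π hπ => ?_
    obtain ⟨q, τ, hq, hch⟩ := hπ
    have eq1 : ∀ i ≤ n, q i = xq n (fun i => q i) i := by
      intro i hi
      unfold xq
      rw [dif_pos (by omega)]
    have et1 : ∀ i ≤ n, τ i = xt n (fun i => τ i) i := by
      intro i hi
      unfold xt
      rw [dif_pos (by omega)]
    refine ⟨⟨fun i => τ i, fun i => q i⟩, ?_, ⟨?_, ?_⟩, ?_⟩
    · rw [hJ, mem_sigma]
      refine ⟨mem_univ _, ?_⟩
      rw [mem_filter, Fintype.mem_piFinset]
      refine ⟨fun i => ?_, fun i => ?_⟩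
      · rw [mem_range]
        exact (hq.1 i (by omega)).2
      · have h1 := chain_cls h n q τ hq.1 π hch i i.2
        unfold CC at h1
        rw [hPd]
        simp only
        have h2 : ((i.succ : Fin (n + 1)) : ℕ) = (i : ℕ) + 1 := rfl
        have h3 : ((i.castSucc : Fin (n + 1)) : ℕ) = (i : ℕ) := rfl
        rw [h2, h3, ← et1 i (by omega), ← et1 (i + 1) (by omega)]
        exact ⟨by have := hq.1 (i + 1) (by omega); omega, h1.symm⟩
    · intro i hi
      simp only
      rw [← eq1 i hi]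
      exact hq.1 i hi
    · intro i j hij hj
      simp only
      rw [← eq1 i (by omega), ← eq1 j hj]
      exact hq.2 i j hij hj
    · exact suf_chain_congr (sq k e D lam π) 1 n eq1 et1 hch
  calc cnt (fun π : Perm (Fin m) => FP10 (sq k e D lam π) n 1) * (m - (2 * n + 12)) ^ n
      ≤ (∑ a ∈ J, cnt (E a)) * (m - (2 * n + 12)) ^ n :=
        Nat.mul_le_mul_right _ (hsub.trans (cnt_exists_le J E))
    _ = ∑ a ∈ J, cnt (E a) * (m - (2 * n + 12)) ^ n := by rw [Finset.sum_mul]
    _ ≤ ∑ _a ∈ J, m.factorial * 3 ^ n := Finset.sum_le_sum hone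
    _ = J.card * (m.factorial * 3 ^ n) := by rw [sum_const, smul_eq_mul]
    _ ≤ (4 ^ (n + 1) * (k * RR0 D0 D.card k ^ n)) * (m.factorial * 3 ^ n) :=
        Nat.mul_le_mul_right _ hcard
    _ = m.factorial * (3 ^ n * (k * RR0 D0 D.card k ^ n) * 4 ^ (n + 1)) := by ring

end Pool.Agent.SLD
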