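import Pool.Agent.Lib_helper26.SLD.Defs
import Pool.Agent.Lib_helper26.SLD.RK

/-! Block NZ (project SLD): the zones of a near-cycle. -/

namespace Pool.Agent.SLD

open Finset Equiv Function Pool.Agent.SEQ

variable {G : Type*} [AddCommGroup G] {m k : ℕ}

theorem zi_card (D : Finset ℕ) (k n : ℕ) (q : ℕ → ℕ) (hn : 1 ≤ n) (hq : NQ k n q) :
    (ZI D n q).card ≤ 2 * n + 12 := by
  unfold ZI
  refine card_biUnion_le.trans ?_
  have h1 : ∀ i ∈ range n, (if i = 0 then Ico (rk D (min (q 0) (q n) - 1))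
      (rk D (max (q 0) (q n) + 1)) else Ico (rk D (q i - 1)) (rk D (q i + 1))).card ≤
      2 + if i = 0 then 12 else 0 := by
    intro i hi
    split_ifs with h
    · rw [Nat.card_Ico]
      have hd := rk_diff D (show min (q 0) (q n) - 1 ≤ max (q 0) (q n) + 1 by omega)
      have h2 := hq.2.2
      have h3 := hq.1 0 (by omega)
      have h4 := hq.1 n le_rfl
      omega
    · rw [Nat.card_Ico]
      have hd := rk_diff D (show q i - 1 ≤ q i + 1 by omega)
      have h3 := hq.1 i (mem_range.1 hi).le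
      omega
  refine (sum_le_sum h1).trans ?_
  rw [sum_add_distrib, sum_ite_eq' (range n) 0 (fun _ => 12)]
  simp only [sum_const, card_range, smul_eq_mul, mem_range]
  split_ifs <;> omega

theorem nz_top {H : AddSubgroup G} {x : G} {D0 : ℕ} {e : Fin m → G} {D : Finset ℕ} {lam : ℕ → G}
    (h : Cf H x D0 e D lam k) {j : ℕ} (hj : j ≤ k) : rk D j ≤ m := by
  rw [← rk_k h]
  exact rk_mono D hj

theorem zi_sub {H : AddSubgroup G} {x : G} {D0 : ℕ} {e : Fin m → G} {D : Finset ℕ} {lam : ℕ → G}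
    (h : Cf H x D0 e D lam k) (n : ℕ) (q : ℕ → ℕ) (hn : 1 ≤ n) (hq : NQ k n q) :
    ZI D n q ⊆ range m := by
  intro y hy
  unfold ZI at hy
  rw [mem_biUnion] at hy
  obtain ⟨i, hi, hy⟩ := hy
  rw [mem_range] at hi ⊢
  have h3 := hq.1 i hi.le
  have h4 := hq.1 0 (by omega)
  have h5 := hq.1 n le_rfl
  split_ifs at hy with h0
  · have ha := (mem_Ico.1 hy).2
    have hb := nz_top h (show max (q 0) (q n) + 1 ≤ k by omega)
    omega
  · have ha := (mem_Ico.1 hy).2
    have hb := nz_top h (show q i + 1 ≤ k by omega)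
    omega

theorem zi_mem (D : Finset ℕ) (k n : ℕ) (q : ℕ → ℕ) (hn : 1 ≤ n) (hq : NQ k n q) (p : ℕ)
    (hp : (min (q 0) (q n) ≤ p + 1 ∧ p ≤ max (q 0) (q n)) ∨
      ∃ j, 1 ≤ j ∧ j < n ∧ (p + 1 = q j ∨ p = q j)) (hpD : p ∉ D) : rk D p ∈ ZI D n q := by
  have hs : rk D (p + 1) = rk D p + 1 := by
    rw [rk_succ, if_neg hpD]
  unfold ZI
  rw [mem_biUnion]
  rcases hp with ⟨h1, h2⟩ | ⟨j, hj1, hj2, hj⟩
  · refine ⟨0, mem_range.2 (by omega), ?_⟩
    rw [if_pos rfl, mem_Ico]
    have ha := rk_mono D (show min (q 0) (q n) - 1 ≤ p by omega)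
    have hb := rk_mono D (show p + 1 ≤ max (q 0) (q n) + 1 by omega)
    omega
  · refine ⟨j, mem_range.2 hj2, ?_⟩
    rw [if_neg (by omega), mem_Ico]
    have ha := rk_mono D (show q j - 1 ≤ p by omega)
    have hb := rk_mono D (show p + 1 ≤ q j + 1 by omega)
    omega

/-- the sum of the prescribed elements before `j` -/
def nzL (D : Finset ℕ) (lam : ℕ → G) (j : ℕ) : G := ∑ p ∈ D.filter (fun p => p < j), lam p

theorem nz_uu (e : Fin m → G) (D : Finset ℕ) (lam : ℕ → G) (I : Finset ℕ) (τ : Fin 4) {q : ℕ}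
    (hq : q < k) (h1 : q - 1 ∉ D → rk D (q - 1) ∈ I) (h2 : q ∉ D → rk D q ∈ I) :
    Dep I (fun π : Perm (Fin m) => uu (sq k e D lam π) 1 τ q) := by
  intro π π' ha
  have e1 := dep_fl e D lam I (q - 1) h1 π π' ha
  have e2 := dep_fl e D lam I q h2 π π' ha
  simp only at e1 e2
  simp only [uu]
  rw [el_sq e D lam π (show q - 1 < k by omega), el_sq e D lam π hq,
    el_sq e D lam π' (show q - 1 < k by omega), el_sq e D lam π' hq, e1, e2]

theorem nz_ww (e : Fin m → G) (D : Finset ℕ) (lam : ℕ → G) (I : Finset ℕ) (τ : Fin 4) {q : ℕ}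
    (hq : q < k) (h1 : q - 1 ∉ D → rk D (q - 1) ∈ I) (h2 : q ∉ D → rk D q ∈ I) :
    Dep I (fun π : Perm (Fin m) => ww (sq k e D lam π) 1 τ q) := by
  intro π π' ha
  have e1 := dep_fl e D lam I (q - 1) h1 π π' ha
  have e2 := dep_fl e D lam I q h2 π π' ha
  simp only at e1 e2
  simp only [ww]
  rw [el_sq e D lam π (show q - 1 < k by omega), el_sq e D lam π hq,
    el_sq e D lam π' (show q - 1 < k by omega), el_sq e D lam π' hq, e1, e2]

theorem near_zones {H : AddSubgroup G} {x : G} {D0 : ℕ} {e : Fin m → G} {D : Finset ℕ} {lam : ℕ → G}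
    (h : Cf H x D0 e D lam k) (n : ℕ) (q : ℕ → ℕ) (τ : ℕ → Fin 4) (hn : 1 ≤ n) (hq : NQ k n q)
    (S : Perm (Fin m) → Prop) (hS : Dep (ZI D n q) S) :
    cnt (fun π : Perm (Fin m) => S π ∧ Chain (sq k e D lam π) 1 n q τ) *
      (m - (ZI D n q).card) ^ (n - 1) ≤ cnt S * 3 ^ (n - 1) := by
  classical
  set a : ℕ := min (q 0) (q n) - 1 with ha
  set b : ℕ := max (q 0) (q n) + 1 with hb
  set l : ℕ → ℕ := fun i => if i = 0 then rk D a else rk D (q i - 1) with hl
  set r : ℕ → ℕ := fun i => if i = 0 then rk D b else rk D (q i + 1) with hr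
  have hl0 : l 0 = rk D a := by simp [hl]
  have hr0 : r 0 = rk D b := by simp [hr]
  have hli : ∀ i, 1 ≤ i → l i = rk D (q i - 1) := fun i hi => by
    rw [hl]; simp only; rw [if_neg (by omega)]
  have hri : ∀ i, 1 ≤ i → r i = rk D (q i + 1) := fun i hi => by
    rw [hr]; simp only; rw [if_neg (by omega)]
  have hI : ZI D n q = (range n).biUnion fun i => Ico (l i) (r i) := by
    unfold ZI
    refine biUnion_congr rfl fun i _ => ?_
    simp only [hl, hr]
    split_ifs with h0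
    · rfl
    · rfl
  obtain ⟨hq1, hqf, hqc⟩ := hq
  have hq0 := hq1 0 (by omega)
  have hqn := hq1 n le_rfl
  have hpos : ∀ j, 1 ≤ j → 1 ≤ rk D j := by
    intro j hj
    have h1 : rk D 1 = 1 := by
      rw [rk_succ, rk_zero, if_neg]
      intro h0
      have := h.lo 0 h0
      omega
    have h2 := rk_mono D hj
    omega
  have h0 : ∀ i < n, 1 ≤ l i := by
    intro i hi
    rcases Nat.eq_zero_or_pos i with rfl | h1
    · rw [hl0]; exact hpos _ (by omega)
    · rw [hli i h1]; have := hq1 i hi.le; exact hpos _ (by omega)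
  have hlr : ∀ i < n, l i < r i := by
    intro i hi
    rcases Nat.eq_zero_or_pos i with rfl | h1
    · rw [hl0, hr0]; exact rk_sep h (by omega)
    · rw [hli i h1, hri i h1]; have := hq1 i hi.le; exact rk_sep h (by omega)
  have hsep0 : ∀ j, 1 ≤ j → j < n → r 0 < l j ∨ r j < l 0 := by
    intro j h1 h2
    rw [hl0, hr0, hli j h1, hri j h1]
    have e1 := hqf 0 j (by omega) h2.le (by omega)
    have e2 := hqf j n h2 le_rfl (by omega)
    have e3 : b + 2 ≤ q j - 1 ∨ q j + 1 + 2 ≤ a := by omega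
    rcases e3 with e3 | e3
    · exact Or.inl (rk_sep h e3)
    · exact Or.inr (rk_sep h e3)
  have hsep : ∀ i < n, ∀ j < n, i ≠ j → r i < l j ∨ r j < l i := by
    intro i hi j hj hij
    rcases Nat.eq_zero_or_pos i with rfl | h1
    · exact hsep0 j (by omega) hj
    · rcases Nat.eq_zero_or_pos j with rfl | h2
      · rcases hsep0 i h1 hi with h | h
        · exact Or.inr h
        · exact Or.inl h
      · rw [hli i h1, hli j h2, hri i h1, hri j h2]
        have e3 : q i + 1 + 2 ≤ q j - 1 ∨ q j + 1 + 2 ≤ q i - 1 := by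
          rcases lt_or_gt_of_ne hij with h | h
          · have a := hqf i j h hj.le (by omega)
            omega
          · have a := hqf j i h hi.le (by omega)
            omega
        rcases e3 with e3 | e3
        · exact Or.inl (rk_sep h e3)
        · exact Or.inr (rk_sep h e3)
  have hrk : ∀ i < n, r i ≤ m := by
    intro i hi
    rcases Nat.eq_zero_or_pos i with rfl | h1
    · rw [hr0]; exact nz_top h (by omega)
    · rw [hri i h1]; have := hq1 i hi.le; exact nz_top h (by omega)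
  have hNQ : NQ k n q := ⟨hq1, hqf, hqc⟩
  have hmem : ∀ p, ((min (q 0) (q n) ≤ p + 1 ∧ p ≤ max (q 0) (q n)) ∨
      ∃ j, 1 ≤ j ∧ j < n ∧ (p + 1 = q j ∨ p = q j)) → p ∉ D → rk D p ∈ ZI D n q :=
    fun p hp hpD => zi_mem D k n q hn hNQ p hp hpD
  have hmemj : ∀ j ≤ n, (q j - 1 ∉ D → rk D (q j - 1) ∈ ZI D n q) ∧
      (q j ∉ D → rk D (q j) ∈ ZI D n q) := by
    intro j hj
    have hqj := hq1 j hj
    rcases Nat.eq_zero_or_pos j with rfl | h1
    · exact ⟨fun hD => hmem _ (Or.inl (by omega)) hD, fun hD => hmem _ (Or.inl (by omega)) hD⟩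
    · rcases eq_or_lt_of_le hj with rfl | h2
      · exact ⟨fun hD => hmem _ (Or.inl (by omega)) hD, fun hD => hmem _ (Or.inl (by omega)) hD⟩
      · exact ⟨fun hD => hmem _ (Or.inr ⟨j, h1, h2, by omega⟩) hD,
          fun hD => hmem _ (Or.inr ⟨j, h1, h2, by omega⟩) hD⟩
  set F : ℕ → Perm (Fin m) → G := fun i π =>
    nzL D lam a - nzL D lam (q i - 1) + snbC (sq k e D lam π) q τ i 1 +
      ∑ y ∈ Ico a (q 0 - 1), fl e D lam π y with hF
  set Ψ : ℕ → Perm (Fin m) → G := fun i π => if i = 0 then 0 else F i π with hΨ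
  have hC : ∀ i ≤ n, Dep (ZI D n q) (fun π : Perm (Fin m) => snbC (sq k e D lam π) q τ i 1) := by
    intro i hi π π' hag
    simp only [snbC]
    refine sum_congr rfl fun j hj => ?_
    have hj' := mem_range.1 hj
    have m1 := hmemj j (by omega)
    have m2 := hmemj (j + 1) (by omega)
    have s1 := nz_uu (k := k) e D lam (ZI D n q) (τ j) (hq1 j (by omega)).2 m1.1 m1.2 π π' hag
    have s2 := nz_ww (k := k) e D lam (ZI D n q) (τ (j + 1)) (hq1 (j + 1) (by omega)).2
      m2.1 m2.2 π π' hag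
    simp only at s1 s2
    rw [s1, s2]
  have hfl : Dep (ZI D n q) (fun π : Perm (Fin m) => ∑ y ∈ Ico a (q 0 - 1), fl e D lam π y) := by
    intro π π' hag
    refine sum_congr rfl fun y hy => ?_
    rw [mem_Ico] at hy
    exact dep_fl e D lam (ZI D n q) y (hmem y (Or.inl (by omega))) π π' hag
  have hΨdep : ∀ i < n, Dep (ZI D n q) (Ψ i) := by
    intro i hi π π' hag
    have s1 := hC i hi.le π π' hag
    have s2 := hfl π π' hag
    simp only at s1 s2
    simp only [hΨ, hF]
    rw [s1, s2]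
  have hz := zones_bound e h.inj n l r Ψ S (ZI D n q) hn hI h0 hlr hsep hrk hS hΨdep
  refine le_trans (Nat.mul_le_mul_right _ (cnt_mono fun π hπ => ⟨hπ.1, ?_⟩)) hz
  have hc := snb_chain hπ.2
  have hps : ∀ j ≤ k, ps e π (rk D j) = ps (sq k e D lam π) 1 j - nzL D lam j := by
    intro j hj
    rw [ps_sq e D lam π hj]
    unfold nzL
    abel
  have hA : ps (sq k e D lam π) 1 (q 0 - 1) = ps (sq k e D lam π) 1 a +
      ∑ y ∈ Ico a (q 0 - 1), fl e D lam π y := by
    rw [ps_eq_add (sq k e D lam π) 1 (show a ≤ q 0 - 1 by omega)]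
    congr 1
    refine sum_congr rfl fun y hy => ?_
    rw [mem_Ico] at hy
    exact el_sq e D lam π (by omega)
  have h3 : ∀ i < n, ps e π (l i) = ps e π (l 0) + Ψ i π := by
    intro i hi
    rcases Nat.eq_zero_or_pos i with rfl | h1
    · simp [hΨ]
    · have h2 := hc i hi.le
      have hqi := hq1 i hi.le
      rw [hA] at h2
      rw [hli i h1, hl0, hps _ (by omega), hps a (by omega), h2]
      simp only [hΨ, if_neg (show i ≠ 0 by omega), hF]
      abel
  intro i hi j hj
  rw [h3 i hi, h3 j hj]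
  abel

end Pool.Agent.SLD
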