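import Pool.Agent.Lib_helper26.SLD.Defs
import Pool.Agent.Lib_helper26.SLD.RK
import Pool.Agent.Lib_helper26.SLD.CS
import Pool.Agent.Lib_helper26.SLD.NZ

/-! Block PV (project SLD). -/

namespace Pool.Agent.SLD

open Finset Equiv Function Pool.Agent.SEQ

variable {G : Type*} [AddCommGroup G] {m k : ℕ}

theorem PV_dep_sum {ι : Type*} (I : Finset ℕ) (J : Finset ι) (F : ι → Perm (Fin m) → G)
    (h : ∀ i ∈ J, Dep I (F i)) : Dep I (fun π => ∑ i ∈ J, F i π) := by
  intro π π' ha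
  exact Finset.sum_congr rfl fun i hi => h i hi π π' ha

theorem near_free {H : AddSubgroup G} {x : G} {D0 : ℕ} {e : Fin m → G} {D : Finset ℕ} {lam : ℕ → G}
    (h : Cf H x D0 e D lam k) (n : ℕ) (q : ℕ → ℕ) (τ : ℕ → Fin 4) (hn : 1 ≤ n) (hq : NQ k n q) :
    cnt (fun π : Perm (Fin m) => Chain (sq k e D lam π) 1 n q τ) *
      (m - (2 * n + 12)) ^ (n - 1) ≤ m.factorial * 3 ^ (n - 1) := by
  have h1 := near_zones h n q τ hn hq (fun _ => True) (dep_const _ _)
  rw [cnt_true] at h1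
  have h2 := zi_card D k n q hn hq
  refine le_trans (Nat.mul_le_mul (cnt_mono fun π hπ => ⟨trivial, hπ⟩)
    (Nat.pow_le_pow_left ?_ _)) h1
  omega

theorem near_piv {H : AddSubgroup G} {x : G} {D0 : ℕ} {e : Fin m → G} {D : Finset ℕ} {lam : ℕ → G}
    (h : Cf H x D0 e D lam k) (n : ℕ) (q : ℕ → ℕ) (τ : ℕ → Fin 4) (hn : 1 ≤ n) (hq : NQ k n q)
    (hP : Pv D k n q τ) :
    cnt (fun π : Perm (Fin m) => Chain (sq k e D lam π) 1 n q τ) *
      (m - (2 * n + 12)) ^ n ≤ m.factorial * 3 ^ (n - 1) := by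
  classical
  obtain ⟨p₀, hp₀, hp₀D, hcf⟩ := hP
  have hcf0 : cf n q τ p₀ ≠ 0 := by
    rcases hcf with h | h <;> rw [h] <;> norm_num
  obtain ⟨S, hS⟩ : ∃ S : Perm (Fin m) → Prop, S = fun π =>
    ∑ p ∈ range k, cf n q τ p • fl e D lam π p = 0 := ⟨_, rfl⟩
  have hterm : ∀ (I : Finset ℕ) (p : ℕ), (cf n q τ p ≠ 0 → p ∉ D → rk D p ∈ I) →
      Dep I (fun π : Perm (Fin m) => cf n q τ p • fl e D lam π p) := by
    intro I p hp π π' ha
    by_cases h0 : cf n q τ p = 0
    · simp only [h0, zero_smul]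
    · have h1 := dep_fl e D lam I p (hp h0) π π' ha
      simp only at h1
      simp only [h1]
  have hmem : ∀ p, cf n q τ p ≠ 0 → p ∉ D → rk D p ∈ ZI D n q := fun p h0 hpD =>
    zi_mem D k n q hn hq p (cf_supp k n q τ hn hq p h0) hpD
  have hSdep : Dep (ZI D n q) S := by
    have h1 : Dep (ZI D n q) (fun π : Perm (Fin m) => ∑ p ∈ range k,
        cf n q τ p • fl e D lam π p) :=
      PV_dep_sum _ _ _ fun p _ => hterm _ p (hmem p)
    intro π π' ha
    have h2 := h1 π π' ha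
    simp only at h2
    rw [hS]
    simp only [h2]
  have hz := near_zones h n q τ hn hq S hSdep
  have hchain : ∀ π : Perm (Fin m), Chain (sq k e D lam π) 1 n q τ →
      S π ∧ Chain (sq k e D lam π) 1 n q τ := by
    intro π hπ
    refine ⟨?_, hπ⟩
    have h1 := closure_eq (sq k e D lam π) 1 n q τ hq.1 hπ
    rw [hS]
    show ∑ p ∈ range k, cf n q τ p • fl e D lam π p = 0
    rw [← h1]
    refine Finset.sum_congr rfl fun p hp => ?_
    rw [el_sq e D lam π (mem_range.1 hp)]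
  have hr₀ := hmem p₀ hcf0 hp₀D
  have hScnt : cnt S * (m - (ZI D n q).card) ≤ m.factorial := by
    refine snb_pivot e h.inj S (ZI D n q) (zi_sub h n q hn hq) (rk D p₀) hr₀
      (fun π => -(cf n q τ p₀ • ∑ p ∈ (range k).erase p₀, cf n q τ p • fl e D lam π p)) ?_ ?_
    · have h1 : Dep ((ZI D n q).erase (rk D p₀)) (fun π : Perm (Fin m) =>
          ∑ p ∈ (range k).erase p₀, cf n q τ p • fl e D lam π p) := by
        refine PV_dep_sum _ _ _ fun p hp => hterm _ p fun h0 hpD => ?_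
        refine mem_erase.2 ⟨?_, hmem p h0 hpD⟩
        intro h2
        exact (mem_erase.1 hp).1 (rk_inj D hpD hp₀D h2)
      intro π π' ha
      have h2 := h1 π π' ha
      simp only at h2
      simp only [h2]
    · intro π hπ
      rw [hS] at hπ
      rw [← add_sum_erase (range k) (fun p => cf n q τ p • fl e D lam π p)
        (mem_range.2 hp₀)] at hπ
      have h1 : fl e D lam π p₀ = el e π (rk D p₀) := by
        unfold fl
        rw [if_neg hp₀D]
      simp only [h1] at hπ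
      rcases hcf with h2 | h2
      · rw [h2, one_smul] at hπ ⊢
        exact eq_neg_of_add_eq_zero_left hπ
      · rw [h2, neg_one_smul] at hπ ⊢
        rw [neg_neg]
        exact (neg_add_eq_zero.1 hπ)
  have hcnt := cnt_mono hchain
  have hle : m - (2 * n + 12) ≤ m - (ZI D n q).card := by
    have := zi_card D k n q hn hq
    omega
  obtain ⟨n', rfl⟩ : ∃ n', n = n' + 1 := ⟨n - 1, by omega⟩
  simp only [Nat.add_sub_cancel] at hz ⊢
  calc cnt (fun π : Perm (Fin m) => Chain (sq k e D lam π) 1 (n' + 1) q τ) *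
        (m - (2 * (n' + 1) + 12)) ^ (n' + 1)
      ≤ cnt (fun π : Perm (Fin m) => S π ∧ Chain (sq k e D lam π) 1 (n' + 1) q τ) *
        (m - (ZI D (n' + 1) q).card) ^ (n' + 1) :=
        Nat.mul_le_mul hcnt (Nat.pow_le_pow_left hle _)
    _ = (cnt (fun π : Perm (Fin m) => S π ∧ Chain (sq k e D lam π) 1 (n' + 1) q τ) *
        (m - (ZI D (n' + 1) q).card) ^ n') * (m - (ZI D (n' + 1) q).card) := by
        rw [pow_succ]; ring
    _ ≤ (cnt S * 3 ^ n') * (m - (ZI D (n' + 1) q).card) := Nat.mul_le_mul_right _ hz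
    _ = (cnt S * (m - (ZI D (n' + 1) q).card)) * 3 ^ n' := by ring
    _ ≤ m.factorial * 3 ^ n' := Nat.mul_le_mul_right _ hScnt

end Pool.Agent.SLD
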