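import Pool.Agent.Lib_helper26.SLD.Defs
import Pool.Agent.Lib_helper26.SLD.CL
import Pool.Agent.Lib_helper26.SLD.CN
import Pool.Agent.Lib_helper26.SLD.SN
import Pool.Agent.Lib_helper26.SLD.NP
import Pool.Agent.Lib_helper26.SLD.PV
import Pool.Agent.Lib_helper26.SLD.CR
import Pool.Agent.Lib_helper26.SLD.C2

/-! Block UN (project SLD): union bound for near-cycles. -/

namespace Pool.Agent.SLD

open Finset Equiv Function Pool.Agent.SEQ

variable {G : Type*} [AddCommGroup G] {m k : ℕ}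

theorem UN_xq_castSucc (n : ℕ) (Q : Fin (n + 1) → ℕ) (i : Fin n) : xq n Q i = Q i.castSucc := by
  unfold xq
  rw [dif_pos (by omega)]
  rfl

theorem UN_xq_succ (n : ℕ) (Q : Fin (n + 1) → ℕ) (i : Fin n) : xq n Q (i + 1) = Q i.succ := by
  unfold xq
  rw [dif_pos (by omega)]
  rfl

theorem UN_xq_zero (n : ℕ) (Q : Fin (n + 1) → ℕ) : xq n Q 0 = Q 0 := by
  unfold xq
  rw [dif_pos (by omega)]
  rfl

theorem UN_xq_last (n : ℕ) (Q : Fin (n + 1) → ℕ) : xq n Q n = Q (Fin.last n) := by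
  unfold xq
  rw [dif_pos (by omega)]
  rfl

theorem UN_xq_restrict (n : ℕ) (q : ℕ → ℕ) (i : ℕ) (hi : i ≤ n) :
    q i = xq n (fun j : Fin (n + 1) => q j) i := by
  unfold xq
  rw [dif_pos (by omega)]

theorem UN_xt_restrict (n : ℕ) (τ : ℕ → Fin 4) (i : ℕ) (hi : i ≤ n) :
    τ i = xt n (fun j : Fin (n + 1) => τ j) i := by
  unfold xt
  rw [dif_pos (by omega)]

theorem UN_NQ_congr {n : ℕ} {q q' : ℕ → ℕ} (hq : ∀ i ≤ n, q i = q' i) (h : NQ k n q) : NQ k n q' := by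
  obtain ⟨h1, h2, h3⟩ := h
  refine ⟨fun i hi => ?_, fun i j hij hj hne => ?_, ?_⟩
  · rw [← hq i hi]; exact h1 i hi
  · rw [← hq i (by omega), ← hq j hj]; exact h2 i j hij hj hne
  · rw [← hq 0 (by omega), ← hq n le_rfl]; exact h3

/-- the condition on consecutive stops -/
def UN_P (H : AddSubgroup G) (x : G) (D : Finset ℕ) (lam : ℕ → G) (τ : ℕ → Fin 4) (i a b : ℕ) : Prop :=
  1 ≤ b ∧ KK H x D lam (a - 1) + UU H x D lam (τ i) a =
    KK H x D lam (b - 1) + WW H x D lam (τ (i + 1)) b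

open Classical in
theorem UN_count {H : AddSubgroup G} {x : G} {D0 : ℕ} {e : Fin m → G} {D : Finset ℕ} {lam : ℕ → G}
    (h : Cf H x D0 e D lam k) (τ : ℕ → Fin 4) (i a : ℕ) :
    ((range k).filter fun b => UN_P H x D lam τ i a b).card ≤ RR0 D0 D.card k := by
  refine le_trans (Finset.card_le_card ?_)
    (class_count h (τ (i + 1)) (KK H x D lam (a - 1) + UU H x D lam (τ i) a))
  intro b hb
  rw [mem_filter, mem_range] at hb ⊢
  exact ⟨by omega, hb.2.1, hb.2.2.symm⟩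

theorem ub_nc {H : AddSubgroup G} {x : G} {D0 : ℕ} {e : Fin m → G} {D : Finset ℕ} {lam : ℕ → G}
    (h : Cf H x D0 e D lam k) (n : ℕ) (hn : 2 ≤ n) :
    cnt (fun π : Perm (Fin m) => NC10 (sq k e D lam π) n 1) * (m - (2 * n + 12)) ^ n ≤
      m.factorial * (3 ^ (n - 1) * 4 ^ (n + 1) * (19 * k * RR0 D0 D.card k ^ (n - 1) +
        (if n = 2 then 437 * D.card else 19 * k * D.card ^ (n - 2)) *
          (m - (2 * n + 12)))) := by
  classical
  set M := m - (2 * n + 12) with hM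
  set R := RR0 D0 D.card k with hR
  set B := (if n = 2 then 437 * D.card else 19 * k * D.card ^ (n - 2)) with hB
  let A1 : (Fin (n + 1) → Fin 4) → Finset (Fin (n + 1) → ℕ) := fun T =>
    (Fintype.piFinset fun _ : Fin (n + 1) => range k).filter fun Q =>
      (∀ i : Fin n, (i : ℕ) + 1 < n → UN_P H x D lam (xt n T) i (Q i.castSucc) (Q i.succ)) ∧
        Q 0 ≤ Q (Fin.last n) + 9 ∧ Q (Fin.last n) ≤ Q 0 + 9
  let A2 : (Fin (n + 1) → Fin 4) → Finset (Fin (n + 1) → ℕ) := fun T =>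
    (Fintype.piFinset fun _ : Fin (n + 1) => range k).filter fun Q =>
      NQ k n (xq n Q) ∧ ¬ Pv D k n (xq n Q) (xt n T) ∧ Rl D lam n (xq n Q) (xt n T)
  let E1 : (Fin (n + 1) → Fin 4) → (Fin (n + 1) → ℕ) → Perm (Fin m) → Prop := fun T Q π =>
    NQ k n (xq n Q) ∧ Pv D k n (xq n Q) (xt n T) ∧ Chain (sq k e D lam π) 1 n (xq n Q) (xt n T)
  let E2 : (Fin (n + 1) → Fin 4) → (Fin (n + 1) → ℕ) → Perm (Fin m) → Prop := fun T Q π =>
    NQ k n (xq n Q) ∧ Chain (sq k e D lam π) 1 n (xq n Q) (xt n T)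
  -- decomposition of the event
  have h1 : cnt (fun π : Perm (Fin m) => NC10 (sq k e D lam π) n 1) ≤
      cnt (fun π : Perm (Fin m) => ∃ T ∈ (univ : Finset (Fin (n + 1) → Fin 4)),
        (∃ Q ∈ A1 T, E1 T Q π) ∨ (∃ Q ∈ A2 T, E2 T Q π)) := by
    apply cnt_mono
    rintro π ⟨q, τ, hq, hc⟩
    have eq1 : ∀ i ≤ n, q i = xq n (fun j : Fin (n + 1) => q j) i := fun i hi => UN_xq_restrict n q i hi
    have eq2 : ∀ i ≤ n, τ i = xt n (fun j : Fin (n + 1) => τ j) i := fun i hi => UN_xt_restrict n τ i hi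
    have hq' := UN_NQ_congr eq1 hq
    have hc' := sun_chain_congr (sq k e D lam π) 1 n eq1 eq2 hc
    refine ⟨fun j => τ j, mem_univ _, ?_⟩
    set Q : Fin (n + 1) → ℕ := fun j : Fin (n + 1) => q j with hQ
    set T : Fin (n + 1) → Fin 4 := fun j : Fin (n + 1) => τ j with hT
    have hQm : Q ∈ Fintype.piFinset fun _ : Fin (n + 1) => range k := by
      rw [Fintype.mem_piFinset]
      intro i
      rw [mem_range]
      exact (hq.1 i (by omega)).2
    by_cases hP : Pv D k n (xq n Q) (xt n T)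
    · left
      refine ⟨Q, ?_, hq', hP, hc'⟩
      rw [mem_filter]
      refine ⟨hQm, ?_, ?_⟩
      · intro i _
        have hcls := chain_cls h n (xq n Q) (xt n T) hq'.1 π hc' i i.2
        unfold CC at hcls
        rw [UN_xq_castSucc, UN_xq_succ] at hcls
        refine ⟨?_, hcls⟩
        have := (hq.1 (i + 1) (by omega)).1
        have e1 : Q i.succ = q (i + 1) := rfl
        omega
      · have := hq'.2.2
        rw [UN_xq_zero, UN_xq_last] at this
        exact this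
    · right
      refine ⟨Q, ?_, hq', hc'⟩
      rw [mem_filter]
      exact ⟨hQm, hq', hP, rel_of_chain h n (xq n Q) (xt n T) (by omega) hq' hP π hc'⟩
  have hA1 : ∀ T, (A1 T).card ≤ 19 * k * R ^ (n - 1) := fun T =>
    seq_near k n R (by omega) (UN_P H x D lam (xt n T)) (fun i a => UN_count h (xt n T) i a)
  have hA2 : ∀ T, (A2 T).card ≤ B := by
    intro T
    rw [hB]
    split_ifs with h2
    · subst h2
      exact count_rel2 h (xt 2 T)
    · exact count_rel h n (by omega) (xt n T)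
  have hE1 : ∀ T Q, cnt (E1 T Q) * M ^ n ≤ m.factorial * 3 ^ (n - 1) := by
    intro T Q
    by_cases hc : NQ k n (xq n Q) ∧ Pv D k n (xq n Q) (xt n T)
    · refine le_trans (Nat.mul_le_mul_right _ ?_) (near_piv h n (xq n Q) (xt n T) (by omega) hc.1 hc.2)
      exact cnt_mono fun π hπ => hπ.2.2
    · rw [sun_cnt_false (fun π hπ => hc ⟨hπ.1, hπ.2.1⟩)]
      simp
  have hE2 : ∀ T Q, cnt (E2 T Q) * M ^ n ≤ m.factorial * 3 ^ (n - 1) * M := by
    intro T Q
    by_cases hc : NQ k n (xq n Q)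
    · have h5 := near_free h n (xq n Q) (xt n T) (by omega) hc
      calc cnt (E2 T Q) * M ^ n = cnt (E2 T Q) * M ^ (n - 1) * M := by
            rw [mul_assoc, ← pow_succ, show n - 1 + 1 = n by omega]
        _ ≤ m.factorial * 3 ^ (n - 1) * M := by
            refine Nat.mul_le_mul_right _ (le_trans (Nat.mul_le_mul_right _ ?_) h5)
            exact cnt_mono fun π hπ => hπ.2
    · rw [sun_cnt_false (fun π hπ => hc hπ.1)]
      simp
  have hT : ∀ T, cnt (fun π : Perm (Fin m) => (∃ Q ∈ A1 T, E1 T Q π) ∨ (∃ Q ∈ A2 T, E2 T Q π)) * M ^ n ≤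
      m.factorial * 3 ^ (n - 1) * (19 * k * R ^ (n - 1) + B * M) := by
    intro T
    calc cnt (fun π : Perm (Fin m) => (∃ Q ∈ A1 T, E1 T Q π) ∨ (∃ Q ∈ A2 T, E2 T Q π)) * M ^ n
        ≤ (∑ Q ∈ A1 T, cnt (E1 T Q) + ∑ Q ∈ A2 T, cnt (E2 T Q)) * M ^ n :=
          Nat.mul_le_mul_right _ ((cnt_or_le _ _).trans
            (Nat.add_le_add (cnt_exists_le _ _) (cnt_exists_le _ _)))
      _ = ∑ Q ∈ A1 T, cnt (E1 T Q) * M ^ n + ∑ Q ∈ A2 T, cnt (E2 T Q) * M ^ n := by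
          rw [add_mul, Finset.sum_mul, Finset.sum_mul]
      _ ≤ ∑ _Q ∈ A1 T, m.factorial * 3 ^ (n - 1) + ∑ _Q ∈ A2 T, m.factorial * 3 ^ (n - 1) * M :=
          Nat.add_le_add (Finset.sum_le_sum fun Q _ => hE1 T Q) (Finset.sum_le_sum fun Q _ => hE2 T Q)
      _ = (A1 T).card * (m.factorial * 3 ^ (n - 1)) + (A2 T).card * (m.factorial * 3 ^ (n - 1) * M) := by
          rw [Finset.sum_const, Finset.sum_const, smul_eq_mul, smul_eq_mul]
      _ ≤ (19 * k * R ^ (n - 1)) * (m.factorial * 3 ^ (n - 1)) + B * (m.factorial * 3 ^ (n - 1) * M) :=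
          Nat.add_le_add (Nat.mul_le_mul_right _ (hA1 T)) (Nat.mul_le_mul_right _ (hA2 T))
      _ = m.factorial * 3 ^ (n - 1) * (19 * k * R ^ (n - 1) + B * M) := by ring
  calc cnt (fun π : Perm (Fin m) => NC10 (sq k e D lam π) n 1) * M ^ n
      ≤ (∑ T ∈ (univ : Finset (Fin (n + 1) → Fin 4)),
          cnt (fun π : Perm (Fin m) => (∃ Q ∈ A1 T, E1 T Q π) ∨ (∃ Q ∈ A2 T, E2 T Q π))) * M ^ n :=
        Nat.mul_le_mul_right _ (h1.trans (cnt_exists_le _ _))
    _ = ∑ T ∈ (univ : Finset (Fin (n + 1) → Fin 4)),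
          cnt (fun π : Perm (Fin m) => (∃ Q ∈ A1 T, E1 T Q π) ∨ (∃ Q ∈ A2 T, E2 T Q π)) * M ^ n :=
        Finset.sum_mul _ _ _
    _ ≤ ∑ _T ∈ (univ : Finset (Fin (n + 1) → Fin 4)),
          m.factorial * 3 ^ (n - 1) * (19 * k * R ^ (n - 1) + B * M) := Finset.sum_le_sum fun T _ => hT T
    _ = 4 ^ (n + 1) * (m.factorial * 3 ^ (n - 1) * (19 * k * R ^ (n - 1) + B * M)) := by
        rw [Finset.sum_const, smul_eq_mul, card_univ, Fintype.card_pi, Finset.prod_const, card_univ,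
          Fintype.card_fin, Fintype.card_fin]
    _ = _ := by ring

end Pool.Agent.SLD
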