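import Pool.Agent.Lib_helper26.SLD.AR
import Pool.Agent.Lib_helper26.SLD.U1
import Pool.Agent.Lib_helper26.SLD.UF
import Pool.Agent.Lib_helper26.SLD.UN
import Pool.Agent.Lib_helper26.SLD.DT

/-!
Assembly of the project SLD: sets nearly all of whose elements lie in a coset `x + H` such that
`x` has large order modulo `H` are sequenceable.
-/

namespace Pool.Agent.SLD

open Finset Equiv Function Pool.Agent.SEQ

variable {G : Type*} [AddCommGroup G] {m k : ℕ}

theorem exists_good10 : ∃ K : ℕ, ∀ {G : Type*} [AddCommGroup G] {m k : ℕ} {H : AddSubgroup G}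
    {x : G} {e : Fin m → G} {D : Finset ℕ} {lam : ℕ → G} (_h : Cf H x (10 ^ 10) e D lam k),
    K ≤ k → 10 ^ 10 * D.card ≤ k → ∃ π : Perm (Fin m),
      ¬ B1 (sq k e D lam π) (k - 1) 1 ∧ ¬ SC (sq k e D lam π) 1 ∧
      (∀ n, 2 ≤ n → n ≤ Nat.log 2 k + 1 → ¬ NC10 (sq k e D lam π) n 1) ∧
      ¬ FP10 (sq k e D lam π) (Nat.log 2 k + 1) 1 := by
  obtain ⟨K, hK⟩ := arith_sld
  refine ⟨K, fun {G} _ {m k H x e D lam} h hk hD => ?_⟩
  set N := Nat.log 2 k + 1 with hN
  have key := hK k m D.card N m.factorial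
    (cnt (fun π : Perm (Fin m) => B1 (sq k e D lam π) (k - 1) 1))
    (cnt (fun π : Perm (Fin m) => SC (sq k e D lam π) 1))
    (cnt (fun π : Perm (Fin m) => FP10 (sq k e D lam π) N 1))
    (fun n => cnt (fun π : Perm (Fin m) => NC10 (sq k e D lam π) n 1)) hk h.card hD hN
    (Nat.factorial_pos m) (ub_b1 h) (ub_sc h) (fun n hn _ => ub_nc h n hn) (ub_fp h N)
  have hle : cnt (fun π : Perm (Fin m) =>
      ((B1 (sq k e D lam π) (k - 1) 1 ∨ SC (sq k e D lam π) 1) ∨
        (∃ n ∈ Ico 2 (N + 1), NC10 (sq k e D lam π) n 1)) ∨ FP10 (sq k e D lam π) N 1) <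
      m.factorial := by
    refine lt_of_le_of_lt ?_ key
    refine (cnt_or_le _ _).trans ?_
    gcongr
    refine (cnt_or_le _ _).trans ?_
    gcongr
    · exact cnt_or_le _ _
    · exact cnt_exists_le _ _
  obtain ⟨π, hπ⟩ := exists_of_cnt_lt hle
  push Not at hπ
  obtain ⟨⟨⟨h1, h2⟩, h3⟩, h4⟩ := hπ
  exact ⟨π, h1, h2, fun n hn hn' => h3 n (by simp; omega), h4⟩

theorem fl_inj {H : AddSubgroup G} {x : G} {D0 : ℕ} {e : Fin m → G} {D : Finset ℕ} {lam : ℕ → G}
    (h : Cf H x D0 e D lam k) (hne : ∀ p ∈ D, lam p - x ∉ H) (π : Perm (Fin m)) :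
    Injective (sq k e D lam π) := by
  intro i j hij
  have hmix : ∀ i j : Fin k, (i : ℕ) ∈ D → (j : ℕ) ∉ D → sq k e D lam π i ≠ sq k e D lam π j := by
    intro i j hi hj hij
    unfold sq fl at hij
    rw [if_pos hi, if_neg hj] at hij
    apply hne _ hi
    rw [hij]
    unfold el
    rw [dif_pos (rk_lt h j.2 hj)]
    exact h.cls _
  by_cases hi : (i : ℕ) ∈ D
  · by_cases hj : (j : ℕ) ∈ D
    · unfold sq fl at hij
      rw [if_pos hi, if_pos hj] at hij
      exact Fin.ext (h.laminj _ hi _ hj hij)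
    · exact absurd hij (hmix i j hi hj)
  · by_cases hj : (j : ℕ) ∈ D
    · exact absurd hij.symm (hmix j i hj hi)
    · unfold sq fl at hij
      rw [if_neg hi, if_neg hj] at hij
      unfold el at hij
      rw [dif_pos (rk_lt h i.2 hi), dif_pos (rk_lt h j.2 hj)] at hij
      have h1 := π.injective (h.inj hij)
      exact Fin.ext (rk_inj D hi hj (congrArg Fin.val h1))

/-- **Large order case.** -/
theorem large_order : ∃ K : ℕ, ∀ {G : Type*} [AddCommGroup G] (A : Finset G)
    (H : AddSubgroup G) (x : G), (0 : G) ∉ A → K ≤ A.card →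
    (∀ j : ℕ, 1 ≤ j → j ≤ 10 ^ 10 → j • x ∉ H) →
    10 ^ 10 * {a ∈ (A : Set G) | a - x ∉ H}.ncard ≤ A.card →
    ∃ a : Fin A.card → G, Injective a ∧ Set.range a = (A : Set G) ∧
      ∀ i j : ℕ, i < j → j ≤ A.card → ¬ (i = 0 ∧ j = A.card) →
        ∑ m : Fin A.card with m.val < i, a m ≠ ∑ m : Fin A.card with m.val < j, a m := by
  obtain ⟨K, hK⟩ := exists_good10
  refine ⟨max K 20, fun {G} _ A H x h0 hKA hord hE => ?_⟩
  classical
  set E : Finset G := A.filter fun a => a - x ∉ H with hEdef
  set A' : Finset G := A.filter fun a => a - x ∈ H with hA'def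
  have hEc : {a ∈ (A : Set G) | a - x ∉ H}.ncard = E.card := by
    rw [← Set.ncard_coe_finset]
    congr 1
    ext a
    simp [E]
  rw [hEc] at hE
  have hk20 : 20 ≤ A.card := le_trans (le_max_right _ _) hKA
  have hcard : A.card = A'.card + E.card :=
    (Finset.card_filter_add_card_filter_not (s := A) (fun a => a - x ∈ H)).symm
  set d := E.card with hd
  let D : Finset ℕ := (range d).image fun i => 100 * (i + 1)
  have hDmem : ∀ p, p ∈ D ↔ ∃ i < d, 100 * (i + 1) = p := by
    intro p
    simp [D]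
  have hDcard : D.card = d := by
    simp only [D]
    rw [Finset.card_image_of_injective _ (by intro a b hab; simp only at hab; omega), card_range]
  let e : Fin A'.card → G := fun i => (A'.equivFin.symm i : G)
  have he : Injective e := fun i j h => A'.equivFin.symm.injective (Subtype.ext h)
  have hemem : ∀ i, e i ∈ A' := fun i => (A'.equivFin.symm i).2
  let lam : ℕ → G := fun p => if h : p / 100 - 1 < d then (E.equivFin.symm ⟨p / 100 - 1, h⟩ : G) else 0
  have hlam : ∀ i (hi : i < d), lam (100 * (i + 1)) = (E.equivFin.symm ⟨i, hi⟩ : G) := by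
    intro i hi
    have h1 : 100 * (i + 1) / 100 - 1 = i := by omega
    simp only [lam]
    rw [dif_pos (by rw [h1]; exact hi)]
    congr 3
  have hlammem : ∀ p ∈ D, lam p ∈ E := by
    intro p hp
    obtain ⟨i, hi, rfl⟩ := (hDmem p).1 hp
    rw [hlam i hi]
    exact (E.equivFin.symm ⟨i, hi⟩).2
  have hcf : Cf H x (10 ^ 10) e D lam A.card := by
    refine ⟨he, by rw [hDcard]; exact hcard, fun i => (mem_filter.1 (hemem i)).2, hord, ?_, ?_, ?_,
      ?_, ?_, by norm_num, hk20⟩
    · intro p hp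
      obtain ⟨i, hi, rfl⟩ := (hDmem p).1 hp
      omega
    · intro p hp
      obtain ⟨i, hi, rfl⟩ := (hDmem p).1 hp
      omega
    · intro p hp p' hp' hlt
      obtain ⟨i, hi, rfl⟩ := (hDmem p).1 hp
      obtain ⟨j, hj, rfl⟩ := (hDmem p').1 hp'
      omega
    · intro p hp p' hp' hpp
      obtain ⟨i, hi, rfl⟩ := (hDmem p).1 hp
      obtain ⟨j, hj, rfl⟩ := (hDmem p').1 hp'
      rw [hlam i hi, hlam j hj] at hpp
      have h1 := E.equivFin.symm.injective (Subtype.ext hpp)
      have h2 := congrArg Fin.val h1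
      simp only at h2
      omega
    · intro p hp h00
      have h1 := (mem_filter.1 (hlammem p hp)).1
      rw [h00] at h1
      exact h0 h1
  have hne : ∀ p ∈ D, lam p - x ∉ H := fun p hp => (mem_filter.1 (hlammem p hp)).2
  obtain ⟨π, h1, h2, h3, h4⟩ := hK hcf (le_trans (le_max_left _ _) hKA) (by rw [hDcard]; exact hE)
  set s : Fin A.card → G := sq A.card e D lam π with hs
  have hsinj : Injective s := fl_inj hcf hne π
  have hsA : ∀ i, s i ∈ A := by
    intro i
    simp only [hs, sq, fl]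
    split_ifs with hi
    · exact (mem_filter.1 (hlammem _ hi)).1
    · unfold el
      rw [dif_pos (rk_lt hcf i.2 hi)]
      exact (mem_filter.1 (hemem _)).1
  have hs0 : ∀ i, s i ≠ 0 := fun i hi => h0 (hi ▸ hsA i)
  obtain ⟨π', hπ'⟩ := main10 s hs0 (Nat.log 2 A.card + 1) (by omega) 1 h1 h2 h3 h4
  have hps : ∀ i ≤ A.card, ∑ m : Fin A.card with m.val < i, s (π' m) = ps s π' i := by
    intro i hi
    unfold ps
    symm
    refine Finset.sum_bij' (fun p hp => (⟨p, by
        have := Finset.mem_range.1 hp; omega⟩ : Fin A.card)) (fun m _ => (m : ℕ)) ?_ ?_ ?_ ?_ ?_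
    · intro p hp
      simpa using hp
    · intro m hm
      simpa using hm
    · intro p hp; rfl
    · intro m hm; rfl
    · intro p hp
      unfold el
      rw [dif_pos (by have := Finset.mem_range.1 hp; omega)]
  refine ⟨fun m => s (π' m), hsinj.comp π'.injective, ?_, ?_⟩
  · have himg : (univ.image fun m => s (π' m)) = A := by
      apply Finset.eq_of_subset_of_card_le
      · intro g hg
        obtain ⟨m, _, rfl⟩ := mem_image.1 hg
        exact hsA _
      · have hc := Finset.card_image_of_injective (univ : Finset (Fin A.card))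
          (show Injective (fun m => s (π' m)) from hsinj.comp π'.injective)
        rw [hc, card_univ, Fintype.card_fin]
    ext g
    have hg := Finset.ext_iff.1 himg g
    simp only [mem_image, mem_univ, true_and] at hg
    rw [Set.mem_range, mem_coe]
    exact hg
  · intro i j hij hj hne
    rw [hps i (by omega), hps j hj]
    exact hπ' i j hij hj (by omega)

end Pool.Agent.SLD

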