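import Mathlib

/-! Shrinking lemma for the dense half of the Alspach-Liversidge conjecture (MP_b4ec45_co). -/

namespace Pool.Agent.SLD

open Finset

variable {G : Type*} [AddCommGroup G]

theorem st_count (A : Finset G) (H : AddSubgroup G) (x : G) (hfin : (H : Set G).Finite) :
    A.card ≤ {a ∈ (A : Set G) | a - x ∉ H}.ncard + Nat.card H := by
  classical
  have h1 : {a ∈ (A : Set G) | a - x ∉ H}.ncard = (A.filter fun a => a - x ∉ H).card := by
    rw [← Set.ncard_coe_finset]
    congr 1
    ext a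
    simp
  have h2 : (A.filter fun a => a - x ∈ H).card ≤ Nat.card H := by
    have h3 : ((A.filter fun a => a - x ∈ H).image fun a => a - x).card =
        (A.filter fun a => a - x ∈ H).card :=
      Finset.card_image_of_injective _ (sub_left_injective)
    rw [← h3, ← Set.ncard_coe_finset]
    have h4 : Nat.card H = (H : Set G).ncard := by
      rw [← Nat.card_coe_set_eq]
      rfl
    rw [h4]
    apply Set.ncard_le_ncard _ hfin
    intro z hz
    rw [Finset.mem_coe, Finset.mem_image] at hz
    obtain ⟨a, ha, rfl⟩ := hz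
    exact (Finset.mem_filter.1 ha).2
  have h5 := Finset.card_filter_add_card_filter_not (s := A) (fun a => a - x ∈ H)
  rw [h1]
  omega

theorem st_half {H H' : AddSubgroup G} (hfin : (H : Set G).Finite) (h : H' < H) :
    Nat.card H' * 2 ≤ Nat.card H := by
  have : Finite H := hfin
  have h1 : (AddSubgroup.addSubgroupOf H' H).index * Nat.card (AddSubgroup.addSubgroupOf H' H) =
      Nat.card H := by
    rw [mul_comm]
    exact AddSubgroup.card_mul_index _
  have h2 : Nat.card (AddSubgroup.addSubgroupOf H' H) = Nat.card H' :=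
    Nat.card_congr (AddSubgroup.addSubgroupOfEquivOfLe h.le).toEquiv
  have h3 : (AddSubgroup.addSubgroupOf H' H).index ≠ 1 := by
    intro h3
    rw [AddSubgroup.index_eq_one, AddSubgroup.addSubgroupOf_eq_top] at h3
    exact absurd (lt_of_lt_of_le h h3) (lt_irrefl _)
  have h4 : (AddSubgroup.addSubgroupOf H' H).index ≠ 0 := by
    intro h4
    rw [h4, zero_mul] at h1
    have := Nat.card_pos (α := H)
    omega
  rw [h2] at h1
  have h5 : 2 ≤ (AddSubgroup.addSubgroupOf H' H).index := by omega
  calc Nat.card H' * 2 ≤ Nat.card H' * (AddSubgroup.addSubgroupOf H' H).index :=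
        Nat.mul_le_mul_left _ h5
    _ = Nat.card H := by rw [mul_comm]; exact h1

/-- Either nearly all elements lie in no small coset, or the subgroup may be chosen such that the
elements are spread over it. -/
theorem shrink (A : Finset G) (hA : 0 < A.card) (g : ℕ → ℝ) (hg : ∀ i, g i ≤ 1 / 2)
    (H₀ : AddSubgroup G) (x₀ : G) (hfin : (H₀ : Set G).Finite)
    (hcard : Nat.card H₀ ≤ 10000 * A.card)
    (hout : ({a ∈ (A : Set G) | a - x₀ ∉ H₀}.ncard : ℝ) ≤ g 15 * A.card) :
    ∃ i < 15, ∃ (H : AddSubgroup G) (x : G), H ≤ H₀ ∧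
      ({a ∈ (A : Set G) | a - x ∉ H}.ncard : ℝ) ≤ g (i + 1) * A.card ∧
      ∀ (H' : AddSubgroup G) (y : G), H' < H →
        g i * A.card < ({a ∈ (A : Set G) | a - y ∉ H'}.ncard : ℝ) := by
  by_contra hcon
  push Not at hcon
  have key : ∀ j ≤ 15, ∃ (H : AddSubgroup G) (x : G), H ≤ H₀ ∧
      Nat.card H * 2 ^ j ≤ 10000 * A.card ∧
      ({a ∈ (A : Set G) | a - x ∉ H}.ncard : ℝ) ≤ g (15 - j) * A.card := by
    intro j
    induction j with
    | zero => exact fun _ => ⟨H₀, x₀, le_rfl, by simpa using hcard, hout⟩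
    | succ j ih =>
      intro hj
      obtain ⟨H, x, hH, hc, ho⟩ := ih (by omega)
      have e1 : 15 - j = (15 - (j + 1)) + 1 := by omega
      rw [e1] at ho
      obtain ⟨H', y, hlt, hle⟩ := hcon (15 - (j + 1)) (by omega) H x hH ho
      refine ⟨H', y, hlt.le.trans hH, ?_, hle⟩
      have h1 := st_half (hfin.subset hH) hlt
      calc Nat.card H' * 2 ^ (j + 1) = (Nat.card H' * 2) * 2 ^ j := by ring
        _ ≤ Nat.card H * 2 ^ j := Nat.mul_le_mul_right _ h1
        _ ≤ 10000 * A.card := hc
  obtain ⟨H, x, hH, hc, ho⟩ := key 15 le_rfl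
  have h1 := st_count A H x (hfin.subset hH)
  have h2 : ({a ∈ (A : Set G) | a - x ∉ H}.ncard : ℝ) ≤ 1 / 2 * A.card := by
    refine ho.trans ?_
    have := hg (15 - 15)
    gcongr
  have h3 : (A.card : ℝ) ≤ ({a ∈ (A : Set G) | a - x ∉ H}.ncard : ℝ) + (Nat.card H : ℝ) := by
    exact_mod_cast h1
  have h4 : (Nat.card H : ℝ) * 2 ^ 15 ≤ 10000 * A.card := by exact_mod_cast hc
  have h5 : (0 : ℝ) < A.card := by exact_mod_cast hA
  norm_num at h4
  linarith

end Pool.Agent.SLD
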