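import Pool.Agent.Lib_helper8.SPQ.Main
import Pool.Agent.Lib_helper26.SLD.Main

/-!
Sets of nonzero elements which are not concentrated in a small finite subgroup are sequenceable.
-/

namespace Pool.Agent.SLD

open Finset Function

theorem sub_card {G : Type*} [AddCommGroup G] (H : AddSubgroup G) (x : G)
    (hfin : (H : Set G).Finite) (j : ℕ) (hj : 1 ≤ j) (hjx : j • x ∈ H) :
    ((H ⊔ AddSubgroup.zmultiples x : AddSubgroup G) : Set G).Finite ∧
      Nat.card (H ⊔ AddSubgroup.zmultiples x : AddSubgroup G) ≤ j * Nat.card H := by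
  classical
  have : Finite H := hfin
  -- the map `Fin j × H → V`
  let f : Fin j × H → G := fun p => (p.1 : ℕ) • x + (p.2 : G)
  have hsub : ((H ⊔ AddSubgroup.zmultiples x : AddSubgroup G) : Set G) ⊆ Set.range f := by
    intro z hz
    rw [SetLike.mem_coe, AddSubgroup.mem_sup] at hz
    obtain ⟨h, hh, y, hy, rfl⟩ := hz
    obtain ⟨n, rfl⟩ := AddSubgroup.mem_zmultiples_iff.1 hy
    have hj' : (j : ℤ) ≠ 0 := by omega
    have h1 := Int.emod_nonneg n hj'
    have h2 := Int.emod_lt_of_pos n (show (0 : ℤ) < j by omega)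
    refine ⟨(⟨(n % j).toNat, by omega⟩, ⟨h + (n / j) • (j • x), H.add_mem hh
      (H.zsmul_mem hjx _)⟩), ?_⟩
    show ((n % j).toNat) • x + (h + (n / j) • (j • x)) = h + n • x
    have h3 : ((n % j).toNat) • x = (n % j) • x := by
      conv_rhs => rw [← Int.toNat_of_nonneg h1]
      rw [natCast_zsmul]
    have h4 : (n / j) • (j • x) = ((j : ℤ) * (n / j)) • x := by
      rw [mul_comm, mul_zsmul, natCast_zsmul]
    rw [h3, h4]
    have h5 : n • x = (n % j) • x + ((j : ℤ) * (n / j)) • x := by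
      rw [← add_zsmul, Int.emod_add_mul_ediv]
    rw [h5]
    abel
  have hfinr : (Set.range f).Finite := Set.finite_range f
  refine ⟨hfinr.subset hsub, ?_⟩
  have h1 : Nat.card (H ⊔ AddSubgroup.zmultiples x : AddSubgroup G) =
      ((H ⊔ AddSubgroup.zmultiples x : AddSubgroup G) : Set G).ncard := by
    rw [← Nat.card_coe_set_eq]
    rfl
  rw [h1]
  refine (Set.ncard_le_ncard hsub hfinr).trans ?_
  rw [← Nat.card_coe_set_eq]
  refine (Finite.card_range_le f).trans ?_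
  rw [Nat.card_prod, Nat.card_fin]

/-- **Main theorem.** -/
theorem sub_main : ∃ K : ℕ, ∀ {G : Type*} [AddCommGroup G] (A : Finset G), (0 : G) ∉ A →
    K ≤ A.card →
    (∀ V : AddSubgroup G, (V : Set G).Finite → Nat.card V ≤ 10 ^ 14 * A.card →
      (A.card : ℝ) ^ (9 / 10 : ℝ) < (((A : Set G) \ V).ncard : ℝ)) →
    ∃ a : Fin A.card → G, Injective a ∧ Set.range a = (A : Set G) ∧
      ∀ i j : ℕ, i < j → j ≤ A.card → ¬ (i = 0 ∧ j = A.card) →
        ∑ m : Fin A.card with m.val < i, a m ≠ ∑ m : Fin A.card with m.val < j, a m := by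
  obtain ⟨K₁, h₁⟩ := SPQ.sparse_main
  obtain ⟨K₂, h₂⟩ := large_order
  refine ⟨max (max K₁ K₂) (10 ^ 100), fun {G} _ A h0 hK hV => ?_⟩
  have hK1 : K₁ ≤ A.card := (le_max_left _ _).trans ((le_max_left _ _).trans hK)
  have hK2 : K₂ ≤ A.card := (le_max_right _ _).trans ((le_max_left _ _).trans hK)
  have hK3 : 10 ^ 100 ≤ A.card := (le_max_right _ _).trans hK
  by_cases hsp : ∀ (H : AddSubgroup G) (x : G), (H : Set G).Finite →
      Nat.card H ≤ 10000 * A.card →
      (A.card : ℝ) ^ (9 / 10 : ℝ) < ({a ∈ (A : Set G) | a - x ∉ H}.ncard : ℝ)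
  · exact h₁ A h0 hK1 hsp
  push Not at hsp
  obtain ⟨H, x, hfin, hcard, hout⟩ := hsp
  by_cases hord : ∀ j : ℕ, 1 ≤ j → j ≤ 10 ^ 10 → j • x ∉ H
  · refine h₂ A H x h0 hK2 hord ?_
    have hk0 : (0 : ℝ) < A.card := by
      have : 0 < A.card := lt_of_lt_of_le (by norm_num) hK3
      exact_mod_cast this
    have h3 : (10 : ℝ) ^ 10 * (A.card : ℝ) ^ (9 / 10 : ℝ) ≤ A.card := by
      have h4 : (10 : ℝ) ^ 10 ≤ (A.card : ℝ) ^ (1 / 10 : ℝ) := by
        have h5 : ((10 : ℝ) ^ 100) ^ (1 / 10 : ℝ) ≤ (A.card : ℝ) ^ (1 / 10 : ℝ) := by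
          apply Real.rpow_le_rpow (by positivity) (by exact_mod_cast hK3) (by norm_num)
        have h6 : ((10 : ℝ) ^ 100) ^ (1 / 10 : ℝ) = 10 ^ 10 := by
          rw [← Real.rpow_natCast, ← Real.rpow_mul (by norm_num), ← Real.rpow_natCast]
          norm_num
        rwa [h6] at h5
      calc (10 : ℝ) ^ 10 * (A.card : ℝ) ^ (9 / 10 : ℝ)
          ≤ (A.card : ℝ) ^ (1 / 10 : ℝ) * (A.card : ℝ) ^ (9 / 10 : ℝ) := by gcongr
        _ = A.card := by
            rw [← Real.rpow_add hk0]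
            norm_num
    have h7 : (10 : ℝ) ^ 10 * ({a ∈ (A : Set G) | a - x ∉ H}.ncard : ℝ) ≤ A.card :=
      (mul_le_mul_of_nonneg_left hout (by positivity)).trans h3
    exact_mod_cast h7
  push Not at hord
  obtain ⟨j, hj1, hj2, hjx⟩ := hord
  exfalso
  obtain ⟨hVf, hVc⟩ := sub_card H x hfin j hj1 hjx
  have h3 := hV _ hVf (by
    calc Nat.card (H ⊔ AddSubgroup.zmultiples x : AddSubgroup G) ≤ j * Nat.card H := hVc
      _ ≤ 10 ^ 10 * (10000 * A.card) := Nat.mul_le_mul hj2 hcard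
      _ = 10 ^ 14 * A.card := by ring)
  have h4 : ((A : Set G) \ (H ⊔ AddSubgroup.zmultiples x : AddSubgroup G)).ncard ≤
      {a ∈ (A : Set G) | a - x ∉ H}.ncard := by
    apply Set.ncard_le_ncard _ (A.finite_toSet.subset (fun a ha => ha.1))
    rintro a ⟨haA, haV⟩
    refine ⟨haA, fun hax => haV ?_⟩
    have h5 : a = (a - x) + x := by abel
    rw [SetLike.mem_coe, h5]
    exact AddSubgroup.add_mem _ (AddSubgroup.mem_sup_left hax)
      (AddSubgroup.mem_sup_right (AddSubgroup.mem_zmultiples x))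
  have h6 : (((A : Set G) \ (H ⊔ AddSubgroup.zmultiples x : AddSubgroup G)).ncard : ℝ) ≤
      ({a ∈ (A : Set G) | a - x ∉ H}.ncard : ℝ) := by exact_mod_cast h4
  linarith

end Pool.Agent.SLD
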